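import Pool.Agent.MP_154433_an.t7.SpecE
import Pool.Agent.MP_154433_an.p4.A8

/-! Pairs of commuting maps: compact steps (packed). -/

section PkKeyP

/-! Row KeyP: the key inequality of the compact step with one factor for each slot. -/

set_option autoImplicit false

open MeasureTheory ProbabilityTheory Filter Topology Function Finset ComplexConjugate
open scoped BigOperators
open Fib27 (BM)

noncomputable section

namespace T4x

open T3x CptA

variable [Grp]

namespace KeyPL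

lemma rpInt (F : Fd) {X : Sys} {J : Type} [Fintype J] {j0 : J} {Z : J → Sys}
    {q : ∀ j, (Z j).X → X.X} (hq : ∀ j, Emb (Z j) X (q j)) {W : Sys} {P : ∀ j, W.X → (Z j).X}
    (hW : IsRP Z X X.ms q j0 W P) (G : ∀ j, (Z j).X → ℂ) (u : J → X.X → ℂ)
    (hG : ∀ j, BM (Z j).μ (Z j).ms (G j)) (hu : ∀ j, BM X.μ X.ms (u j))
    (h : ∀ j, (fun z => u j (q j z)) =ᵐ[(Z j).μ] (Z j).μ[G j | pull (Z j).μ (q j) X.ms]) :
    ∫ w, ∏ j, G j (P j w) ∂W.μ = ∫ x, ∏ j, u j x ∂X.μ := by
  have hm : ∀ j, MeasurePreserving (q j ∘ P j) W.μ X.μ := fun j => (hq j).mp.comp (hW.emb j).mp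
  rw [← integral_condExp (F.a.pull_le X.ms W.μ X.μ _ (hm j0) le_rfl),
    integral_congr_ae (hW.ind univ G fun j _ => hG j),
    ← intc (hm j0) (bm_prod univ fun j _ => hu j)]
  refine integral_congr_ae ?_
  have h1 : ∀ j, ∀ᵐ w ∂W.μ,
      ((Z j).μ[G j | pull (Z j).μ (q j) X.ms]) (P j w) = u j ((q j0 ∘ P j0) w) := by
    intro j
    have h2 := (hW.emb j).mp.quasiMeasurePreserving.ae_eq_comp (h j)
    have h3 := F.a.keq_fun X.ms W.μ X.μ _ _ (u j) (hm j) (hm j0) (hW.com j) (hu j).1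
    exact h2.symm.trans h3
  filter_upwards [ae_all_iff.2 h1] with w hw
  exact Finset.prod_congr rfl fun j _ => hw j

end KeyPL

theorem keyP (F : Fd) : KeyP := by
  intro X J _ j0 C Z p u H g k hC hP h
  obtain ⟨W, P, hW⟩ := F.rp J Z X X.ms (fun j => p j false) j0 (fun j => (hP j).nice)
    (F.t.top X) (fun j => ((hP j).emb false).mp) fun j n =>
      F.t.emb_z (Z j) X _ n ((hP j).emb false)
  have hH : ∀ j, BM (Z j).μ (Z j).ms (H j) := fun j => (h j).1.mono (F.t.finv (Z j) _).le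
  choose K hK using fun j => (hH j).2
  refine ⟨(∏ j, max (K j) 0) ^ 2, sq_nonneg _, fun N hN ρ c hc hc' => ?_⟩
  have hΦ : BM W.μ W.ms fun w => ∏ j, H j ((Z j).Tz (ρ j) (P j w)) :=
    bm_prod univ fun j _ => bmc F (hW.emb j).mp (bmT F (hH j) (ρ j))
  have hΦK : ∀ᵐ w ∂W.μ, ‖∏ j, H j ((Z j).Tz (ρ j) (P j w))‖ ≤ ∏ j, max (K j) 0 := by
    filter_upwards [ae_all_iff.2 fun j =>
      (hW.emb j).mp.quasiMeasurePreserving.ae (aeP F (hK j) (ρ j))] with w hw
    rw [norm_prod]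
    exact Finset.prod_le_prod (fun j _ => norm_nonneg _) fun j _ => (hw j).trans (le_max_left _ _)
  have hgz : ∀ j (n : Γ), BM (Z j).μ (Z j).ms
      fun z => g j (X.Tz n (X.Tz (ρ j) (p j true z))) := fun j n =>
    bmc F ((hP j).emb true).mp (bmT F (bmT F (h j).2.1 n) (ρ j))
  let Ψ : ℕ → W.X → ℂ := fun n w =>
    ∏ j, g j (X.Tz ((n : ℤ) • u) (X.Tz (ρ j) (p j true (P j w))))
  have hΨ : ∀ n, BM W.μ W.ms (Ψ n) := fun n =>
    bm_prod univ fun j _ => bmc F (hW.emb j).mp (hgz j _)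
  have e1 : ∀ n : ℕ, ∫ w, Ψ n w * ∏ j, H j ((Z j).Tz (ρ j) (P j w)) ∂W.μ =
      ∫ x, ∏ j, k j (X.Tz (ρ j) x) ∂X.μ := by
    intro n
    have h1 := KeyPL.rpInt F (fun j => (hP j).emb false) hW
      (fun j z => H j ((Z j).Tz (ρ j) z) * g j (X.Tz ((n : ℤ) • u) (X.Tz (ρ j) (p j true z))))
      (fun j x => k j (X.Tz ((n : ℤ) • u) (X.Tz (ρ j) x)))
      (fun j => (bmT F (hH j) (ρ j)).mul (hgz j _))
      (fun j => bmT F (bmT F (h j).2.2.1 _) (ρ j)) fun j =>
        starT F (hP j) (hH j) (bmT F (h j).2.1 _) (bmT F (h j).2.2.1 _)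
          (starI F (hP j) (h j).1 (h j).2.1 (h j).2.2.1 (h j).2.2.2 n) (ρ j)
    simp only [Finset.prod_mul_distrib] at h1
    simp only [Ψ, mul_comm _ (∏ j, H j ((Z j).Tz (ρ j) (P j _)))]
    rw [h1, ← intc (F.t.mp X ((n : ℤ) • u)) (bm_prod univ fun j _ => bmT F (h j).2.2.1 (ρ j))]
    simp only [← F.t.add, add_comm]
  have e2 : ∀ n n' : ℕ, ∫ w, Ψ n w * conj (Ψ n' w) ∂W.μ =
      ∫ x, ∏ j, c n n' j (X.Tz (ρ j) x) ∂X.μ := by
    intro n n'
    have hb : ∀ j, BM X.μ X.ms fun y =>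
        g j (X.Tz ((n : ℤ) • u) y) * conj (g j (X.Tz ((n' : ℤ) • u) y)) := fun j =>
      (bmT F (h j).2.1 _).mul (bmT F (h j).2.1 _).conj
    have h1 := KeyPL.rpInt F (fun j => (hP j).emb false) hW
      (fun j z => g j (X.Tz ((n : ℤ) • u) (X.Tz (ρ j) (p j true z))) *
        conj (g j (X.Tz ((n' : ℤ) • u) (X.Tz (ρ j) (p j true z)))))
      (fun j x => c n n' j (X.Tz (ρ j) x)) (fun j => (hgz j _).mul (hgz j _).conj)
      (fun j => bmT F (hc n n' j) (ρ j)) fun j => by
        refine EventuallyEq.trans ?_ (pairCE F (hC j) (hP j) (bmT F (hb j) (ρ j)))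
        exact aec ((hP j).emb false).mp ((aeT F (hc' n n' j) (ρ j)).trans
          (F.t.ce X (C j) (ρ j) _ (hC j) (hb j).integrable).symm)
    rw [← h1]
    simp only [Ψ, map_prod, Finset.prod_mul_distrib]
  have hN' : (N : ℂ) ≠ 0 := by exact_mod_cast (by omega : N ≠ 0)
  have e3 : ∫ x, ∏ j, k j (X.Tz (ρ j) x) ∂X.μ =
      ∫ w, (∑ n ∈ range N, (N : ℝ)⁻¹ • Ψ n w) * ∏ j, H j ((Z j).Tz (ρ j) (P j w)) ∂W.μ := by
    rw [int_wsum (range N) (fun _ => (N : ℝ)⁻¹) (fun n _ => hΨ n) hΦ]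
    simp only [e1, Finset.sum_const, Finset.card_range, nsmul_eq_mul]
    push_cast
    rw [← mul_assoc, mul_inv_cancel₀ hN', one_mul]
  rw [e3]
  refine (cs (Finset.prod_nonneg fun j _ => le_max_right _ _) hΦK
    (bm_wsum (range N) (fun _ => (N : ℝ)⁻¹) fun n _ => hΨ n)).trans (le_of_eq ?_)
  rw [sq_wsum (range N) (fun _ => (N : ℝ)⁻¹) fun n _ => hΨ n]
  simp only [e2]

end T4x

end

end PkKeyP

section PkVanP

/-! The compact step for pairs: averages of convolutions vanish when one function is orthogonal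
to the factor of its slot. -/

set_option autoImplicit false
set_option linter.unusedVariables false

noncomputable section

namespace T4x

open MeasureTheory ProbabilityTheory Filter Topology Function Finset ComplexConjugate
open scoped BigOperators
open Fib27 (BM)
open T3x

variable [Grp]

namespace VanPL

open CptA

/-- two copies of a family of functions, the second one conjugated -/
def dbl {ι : Type} {Z : ι → Sys} (H : ∀ i, (Z i).X → ℂ) :
    ∀ j : ι ⊕ ι, (Z (Sum.elim id id j)).X → ℂ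
  | Sum.inl i => H i
  | Sum.inr i => fun z => conj (H i z)

lemma core (F : Fd) (hKP : KeyP) {X : Sys} {ι : Type} [Fintype ι] [DecidableEq ι] (r : ι → Γ)
    {ν' ν'' : Wt} {A : ι → MeasurableSpace X.X} {B : MeasurableSpace X.X} {O : Set Γ} {i0 : ι}
    {Z : ι → Sys} {p : ∀ i, Bool → (Z i).X → X.X} {u : Γ} (hu : u ∈ O) (hC : ∀ i, Fac X (A i))
    (hP : ∀ i, Pair X (A i) (Z i) (p i)) (hGood : GoodP ν'' ν' X r A) (hG0 : G0P ν' X r i0 O B)
    (H : ∀ i, (Z i).X → ℂ) (g k : ι → X.X → ℂ)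
    (h : ∀ i, BM (Z i).μ (Inv (Z i) {u}) (H i) ∧ BM X.μ X.ms (g i) ∧ BM X.μ X.ms (k i) ∧
      Star (p i) (H i) (g i) (k i)) (hg1 : ∀ i, ∀ᵐ x ∂X.μ, ‖g i x‖ ≤ 1)
    (h0 : X.μ[g i0 | B] =ᵐ[X.μ] 0) :
    Tendsto (fun M => ∫ x, ‖avg ν'' M X r k x‖ ^ 2 ∂X.μ) atTop (𝓝 0) := by
  obtain ⟨K, hK, hkey⟩ := hKP X (ι ⊕ ι) (Sum.inl i0) (fun j => A (Sum.elim id id j))
    (fun j => Z (Sum.elim id id j)) (fun j => p (Sum.elim id id j)) u (dbl H)
    (Sum.elim g fun i y => conj (g i y)) (Sum.elim k fun i y => conj (k i y)) (fun j => hC _)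
    (fun j => hP _) (by
      rintro (i | i)
      · exact h i
      · exact ⟨(h i).1.conj, (h i).2.1.conj, (h i).2.2.1.conj,
          starC F (hP i) ((h i).1.mono (F.t.finv (Z i) _).le) (h i).2.1 (h i).2.2.2⟩)
  let G : ℕ → ℕ → ι → X.X → ℂ := fun n n' i y =>
    g i (X.Tz ((n : ℤ) • u) y) * conj (g i (X.Tz ((n' : ℤ) • u) y))
  have hG : ∀ n n' i, BM X.μ X.ms (G n n' i) := fun n n' i =>
    (bmT F (h i).2.1 _).mul (bmT F (h i).2.1 _).conj
  let c : ℕ → ℕ → ι → X.X → ℂ := fun n n' i => X.μ[G n n' i | A i]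
  have hc : ∀ n n' i, BM X.μ (A i) (c n n' i) := fun n n' i => (hG n n' i).ce (A i)
  have hc' : ∀ n n' i, BM X.μ X.ms (c n n' i) := fun n n' i => (hc n n' i).mono (hC i).le
  have hc1 : ∀ n n' i, ∀ᵐ x ∂X.μ, ‖c n n' i x‖ ≤ 1 := fun n n' i => by
    refine ae_bdd_norm_condExp_of_ae_bdd_norm ?_
    filter_upwards [aeP F (hg1 i) ((n : ℤ) • u), aeP F (hg1 i) ((n' : ℤ) • u)] with x h1 h2
    rw [norm_mul, Complex.norm_conj]
    exact mul_le_one₀ h1 (norm_nonneg _) h2
  have main : ∀ N M, 1 ≤ N → (∫ x, ‖avg ν'' M X r k x‖ ^ 2 ∂X.μ) ^ 2 ≤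
      K * ∑ n ∈ range N, ∑ n' ∈ range N,
        (N : ℝ)⁻¹ * (N : ℝ)⁻¹ * ∫ x, ‖avg ν'' M X r (c n n') x‖ ^ 2 ∂X.μ := by
    intro N M hN
    rw [sq_avg F r ν'' M fun i => (h i).2.2.1]
    refine (jensen _ _ (ν''.nn M) (ν''.one M) _ _ fun d d' => le_trans
      ((sq_abs _).symm.trans_le (pow_le_pow_left₀ (abs_nonneg _) (Complex.abs_re_le_norm _) 2))
      (hkey N hN (Sum.elim (fun i => d • r i) (fun i => d' • r i))
        (fun n n' => Sum.elim (c n n') fun i y => conj (c n n' i y)) ?_ ?_)).trans (le_of_eq ?_)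
    · rintro n n' (i | i)
      · exact hc' n n' i
      · exact (hc' n n' i).conj
    · rintro n n' (i | i)
      · exact EventuallyEq.rfl
      · have := Fib27.ce_conj (hC i).le (hG n n' i)
        simp only [G, map_mul] at this
        exact this.symm
    · simp only [sq_avg F r ν'' M (hc' _ _), Finset.mul_sum]
      simp only [Finset.sum_comm (s := ν''.sp M) (t := range N)]
      refine Finset.sum_congr rfl fun n _ => Finset.sum_congr rfl fun n' _ =>
        Finset.sum_congr rfl fun d _ => Finset.sum_congr rfl fun d' _ => by ring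
  refine tendsto_order.2 ⟨fun a ha => Eventually.of_forall fun M =>
    ha.trans_le (integral_nonneg fun x => by positivity), fun ε hε => ?_⟩
  have hδ : 0 < ε ^ 2 / (6 * K + 1) := by positivity
  obtain ⟨N, a, hN, ha, hs⟩ := hG0 u hu (g i0) (h i0).2.1 (hg1 i0) h0 _ hδ
  have hev : ∀ n ∈ range N, ∀ n' ∈ range N, ∀ᶠ M in atTop,
      ∫ x, ‖avg ν'' M X r (c n n') x‖ ^ 2 ∂X.μ ≤ 4 * (ε ^ 2 / (6 * K + 1)) + 2 * a n n' := by
    intro n _ n' _
    filter_upwards [(tendsto_order.1 (hGood (c n n') (hc n n'))).2 _ hδ,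
      hs (A i0) (hC i0) n n' (c n n') _ (hc' n n') (hc1 n n') EventuallyEq.rfl hδ] with M h1 h2
    have h3 := sq_le_two (bm_avg F r (F.t.top X) ν'' M (hc' n n'))
      (bm_avg F r (F.t.top X) ν' M (hc' n n'))
    linarith
  filter_upwards [(Finset.eventually_all _).2 fun n hn => (Finset.eventually_all _).2 (hev n hn)]
    with M hM
  have hN' : (0 : ℝ) < N := by exact_mod_cast hN
  have h5 : ∑ n ∈ range N, ∑ n' ∈ range N,
      (N : ℝ)⁻¹ * (N : ℝ)⁻¹ * ∫ x, ‖avg ν'' M X r (c n n') x‖ ^ 2 ∂X.μ ≤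
      6 * (ε ^ 2 / (6 * K + 1)) := by
    refine (Finset.sum_le_sum fun n hn => Finset.sum_le_sum fun n' hn' =>
      mul_le_mul_of_nonneg_left (hM n hn n' hn') (by positivity)).trans ?_
    simp only [← Finset.mul_sum, Finset.sum_add_distrib, Finset.sum_const, Finset.card_range,
      nsmul_eq_mul]
    calc _ = (N : ℝ)⁻¹ * (N : ℝ)⁻¹ * (N * (N * (4 * (ε ^ 2 / (6 * K + 1)))) +
          2 * ∑ n ∈ range N, ∑ n' ∈ range N, a n n') := by ring
      _ ≤ (N : ℝ)⁻¹ * (N : ℝ)⁻¹ * (N * (N * (4 * (ε ^ 2 / (6 * K + 1)))) +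
          2 * (ε ^ 2 / (6 * K + 1) * N ^ 2)) := by gcongr
      _ = _ := by
        field_simp
        ring
  have h6 := (main N M hN).trans (mul_le_mul_of_nonneg_left h5 hK)
  have h7 : K * (6 * (ε ^ 2 / (6 * K + 1))) < ε ^ 2 := by
    have : ε ^ 2 = (6 * K + 1) * (ε ^ 2 / (6 * K + 1)) := by field_simp
    linarith
  exact lt_of_pow_lt_pow_left₀ 2 hε.le (h6.trans_lt h7)

end VanPL

theorem vanP (F : Fd) (hK : KeyP) : VanP := by
  intro ν' ν'' X ι _ _ r A B O i0 Z p u hu hC hP hGood hG0 H g k h h0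
  have hb : ∀ i, ∃ L : ℝ, 0 < L ∧ ∀ᵐ x ∂X.μ, ‖g i x‖ ≤ L := fun i => by
    obtain ⟨L, hL⟩ := (h i).2.1.2
    exact ⟨max L 1, lt_max_of_lt_right one_pos, hL.mono fun x hx => hx.trans (le_max_left _ _)⟩
  choose L hL hLg using hb
  have hL' : ∀ i, (L i : ℂ) ≠ 0 := fun i => by exact_mod_cast (hL i).ne'
  refine VanPL.core F hK r hu hC hP hGood hG0 (fun i z => (L i : ℂ) * H i z)
    (fun i x => (L i : ℂ)⁻¹ * g i x) k (fun i => ⟨(h i).1.cmul _, (h i).2.1.cmul _,
      (h i).2.2.1, ?_⟩) (fun i => ?_) ?_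
  · have e : (fun z => (L i : ℂ) * H i z * ((L i : ℂ)⁻¹ * g i (p i true z))) =
        fun z => H i z * g i (p i true z) := by
      funext z
      have := hL' i
      field_simp
    unfold Star
    rw [e]
    exact (h i).2.2.2
  · filter_upwards [hLg i] with x hx
    rw [norm_mul, norm_inv, Complex.norm_real, Real.norm_of_nonneg (hL i).le,
      inv_mul_le_iff₀ (hL i), mul_one]
    exact hx
  · refine (condExp_smul ((L i0 : ℂ)⁻¹) (g i0) B).trans ?_
    filter_upwards [h0] with x hx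
    simp [hx]

end T4x

end

end PkVanP

section PkGfP

/-! Row GfP: good tuples of factors. -/

set_option autoImplicit false
set_option linter.unusedVariables false
set_option linter.unusedSectionVars false

open MeasureTheory ProbabilityTheory Filter Topology Function Finset ComplexConjugate
open scoped BigOperators
open Fib27 (BM)

noncomputable section

namespace T4x

open T3x GfL

variable [Grp]

namespace GfPL

variable {X : Sys} {ι : Type} [Fintype ι] [DecidableEq ι] {ν ν' : Wt} {r : ι → Γ}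

lemma dense (t : BasT) {C : ι → MeasurableSpace X.X} {T : ι → Set (X.X → ℂ)}
    (hC : ∀ i, C i ≤ X.ms) (hT : ∀ i, ∀ φ ∈ T i, BM X.μ X.ms φ)
    (h1 : ∀ i g, BM X.μ (C i) g → ∀ ε : ℝ, 0 < ε → ∃ (n : ℕ) (a : Fin n → X.X → ℂ),
      (∀ j, a j ∈ T i) ∧ ∫ x, ‖g x - ∑ j, a j x‖ ^ 2 ∂X.μ ≤ ε)
    (h2 : ∀ f : ι → X.X → ℂ, (∀ i, f i ∈ T i) →
      Sm X.μ fun M x => avg ν M X r f x - avg ν' M X r f x) : GoodP ν ν' X r C := by
  have key : ∀ (S : Finset ι) (f : ι → X.X → ℂ), (∀ i ∈ S, BM X.μ (C i) (f i)) →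
      (∀ i ∉ S, f i ∈ T i) → Sm X.μ fun M x => avg ν M X r f x - avg ν' M X r f x := by
    intro S
    induction S using Finset.induction_on with
    | empty => exact fun f _ h => h2 f fun i => h i (notMem_empty i)
    | insert i S hi ih =>
      intro f k1 k2
      have hf : ∀ j, BM X.μ X.ms (f j) := fun j =>
        (em _).elim (fun h => (k1 j h).mono (hC j)) fun h => hT _ _ (k2 j h)
      obtain ⟨K, hK, hc⟩ := contr (r := r) t hf i
      refine sm_apx fun ε hε => ?_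
      obtain ⟨n, a, ha, hb⟩ := h1 i (f i) (k1 i (mem_insert_self _ _)) (ε / (4 * K))
        (by positivity)
      have hd := (hf i).sub (bm_sum univ fun j _ => hT _ _ (ha j))
      have bm : ∀ j M, BM X.μ X.ms fun x => avg ν M X r (update f i (a j)) x -
          avg ν' M X r (update f i (a j)) x := fun j M =>
        (bm_avg t (bm_upd hf i (hT _ _ (ha j))) M).sub (bm_avg t (bm_upd hf i (hT _ _ (ha j))) M)
      refine ⟨_, fun M x => avg ν M X r (update f i fun y => f i y - ∑ j, a j y) x -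
        avg ν' M X r (update f i fun y => f i y - ∑ j, a j y) x,
        sm_sum univ bm fun j => ih _ (fun k hk => ?_) fun k hk => ?_, fun M => ⟨bm_sum _ fun j _ =>
          bm j M, (bm_avg t (bm_upd hf i hd) M).sub (bm_avg t (bm_upd hf i hd) M), ?_⟩,
        fun M x => ?_⟩
      · rw [update_of_ne (by rintro rfl; exact hi hk)]
        exact k1 k (mem_insert_of_mem hk)
      · rcases eq_or_ne k i with rfl | e
        · rw [update_self]; exact ha j
        · rw [update_of_ne e]; exact k2 k (by simp [e, hk])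
      · have e1 := mul_le_mul_of_nonneg_left hb hK.le
        have e2 : K * (ε / (4 * K)) = ε / 4 := by field_simp
        linarith [n2_sub (bm_avg (ν := ν) (r := r) t (bm_upd hf i hd) M)
          (bm_avg (ν := ν') (r := r) t (bm_upd hf i hd) M), hc ν M _ hd, hc ν' M _ hd]
      · rw [avg_split (ν := ν) i a, avg_split (ν := ν') i a, sum_sub_distrib]
        ring
  exact fun f hf => key univ f (fun i _ => hf i) fun i hi => absurd (mem_univ i) hi

end GfPL

theorem gfP (F : Fd) : GfP := by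
  refine ⟨fun ν ν' X ι _ _ r A T hA hT h1 h2 => GfPL.dense F.t hA hT h1 h2,
    fun ν ν' X ι _ _ r B 𝒞 hB hne hch h => ?_⟩
  have hle : ∀ i, sSup 𝒞 ⊔ B i ≤ X.ms := fun i => sup_le (sSup_le fun C hC => (h C hC).1) (hB i)
  refine GfPL.dense F.t (T := fun i => {φ | ∃ C ∈ 𝒞, BM X.μ (C ⊔ B i) φ}) hle
    (fun i φ ⟨C, hC, hφ⟩ => hφ.mono (sup_le (h C hC).1 (hB i))) (fun i g hg ε hε => ?_)
    fun f hf => ?_
  · have e : sSup ((fun C => C ⊔ B i) '' 𝒞) = sSup 𝒞 ⊔ B i := by
      rw [sSup_image, sSup_eq_iSup, biSup_sup hne]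
    obtain ⟨_, ⟨C, hC, rfl⟩, k⟩ := F.d.chain ((fun C => C ⊔ B i) '' 𝒞) X.μ (hne.image _)
      (hch.directedOn.mono_comp fun _ _ q => sup_le_sup_right q _)
      (by rintro _ ⟨C, hC, rfl⟩; exact sup_le (h C hC).1 (hB i)) g
      ((hg.mono (hle i)).memLp 2) ε hε
    refine ⟨1, fun _ => X.μ[g | C ⊔ B i], fun _ => ⟨C, hC, hg.ce _⟩, le_trans (le_of_eq ?_)
      (k _ ⟨C, hC, rfl⟩ le_rfl)⟩
    rw [e]
    refine integral_congr_ae ?_
    filter_upwards [BM.ce_self (hle i) hg] with x hx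
    rw [hx, Fin.sum_univ_one]
  · choose C hC hC' using hf
    have := hne.to_subtype
    obtain ⟨z, hz⟩ := hch.directedOn.directed_val.finite_le fun i => ⟨C i, hC i⟩
    exact (h z z.2).2 f fun i => (hC' i).mono (sup_le_sup_right (hz i) _)

end T4x

end

end PkGfP

section PkOwnP

/-! Row `OwnP`: the compact step in the slot that owns the direction. -/

set_option autoImplicit false
set_option linter.unusedVariables false
set_option linter.unusedSectionVars false

open MeasureTheory ProbabilityTheory Filter Topology Function Finset ComplexConjugate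
open scoped BigOperators
open Fib27 (BM)

noncomputable section

namespace T4x

open T3x GfL

variable [Grp]

namespace OwnPL

variable (F : Fd) {X Z : Sys} {C : MeasurableSpace X.X} {p : Bool → Z.X → X.X}

include F

lemma sw (hp : Pair X C Z p) (c : X.X → ℂ) (hc : BM X.μ C c) :
    (fun z => c (p true z)) =ᵐ[Z.μ] fun z => c (p false z) :=
  F.a.keq_fun C Z.μ X.μ _ _ c (hp.emb true).mp (hp.emb false).mp (hp.com true) hc.1

lemma star1 (hC : Fac X C) (hp : Pair X C Z p) (c : X.X → ℂ) (hc : BM X.μ C c) :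
    Star p (fun _ => 1) c c := by
  simp only [Star, one_mul]
  exact ((condExp_congr_ae (sw F hp c hc)).trans
    (BM.ce_self (F.t.fpull Z X (p false) X.ms (hp.emb false) (F.t.top X)).le
      (F.a.bm_comp X.ms Z.μ X.μ _ c (hp.emb false).mp (hc.mono hC.le)))).symm

lemma split {u : Γ} (hX : Nice X) (hC : Fac X C) (hp : Pair X C Z p) (hI : Inv X {u} ≤ C)
    (k : X.X → ℂ) (hk : BM X.μ (KK X u C) k) (ε : ℝ) (hε : 0 < ε) :
    ∃ (n : ℕ) (a : Fin n → X.X → ℂ), (∀ j, BM X.μ X.ms (a j) ∧ (BM X.μ C (a j) ∨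
      ∃ H g, BM Z.μ (Inv Z {u}) H ∧ BM X.μ X.ms g ∧ Star p H g (a j) ∧ X.μ[g | C] =ᵐ[X.μ] 0)) ∧
      ∫ x, ‖k x - ∑ j, a j x‖ ^ 2 ∂X.μ ≤ ε := by
  have mp : ∀ b, @MeasurePreserving _ _ Z.ms X.ms (p b) Z.μ X.μ := fun b => (hp.emb b).mp
  have hP := F.t.fpull Z X (p false) X.ms (hp.emb false) (F.t.top X)
  have b0 : ∀ c, BM X.μ X.ms c → BM Z.μ (pull Z.μ (p false) X.ms) fun z => c (p false z) :=
    fun c hc => F.a.bm_comp X.ms Z.μ X.μ _ c (mp false) hc
  obtain ⟨n, H, g, k', h1, h2⟩ := F.kb.span X u C Z p hX hC hp k hk ε hε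
  have key : ∀ i, ∃ k1 k2 : X.X → ℂ, BM X.μ C k1 ∧ (BM X.μ X.ms k2 ∧ ∃ g', BM X.μ X.ms g' ∧
      Star p (H i) g' k2 ∧ X.μ[g' | C] =ᵐ[X.μ] 0) ∧ k' i =ᵐ[X.μ] fun x => k1 x + k2 x := by
    intro i
    obtain ⟨a1, a2, a3, a4⟩ := h1 i
    have aH := a1.mono (F.t.finv Z {u}).le
    have hc := a2.ce C
    have hc' := hc.mono hC.le
    obtain ⟨k0, c1, c2⟩ := F.ka.star X C Z p hC hp _ _ aH (BM.const 1)
    obtain ⟨k2, d1, d2⟩ := F.ka.star X C Z p hC hp _ _ aH (a2.sub hc')
    simp only [Star, mul_one] at c2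
    have hk0 : BM X.μ C k0 := by
      refine (c1.of_aesm ((F.t.inv_iff X {u} k0 c1.1).2 fun h hh => desc (mp false)
        (bm_comp (X.mp h) c1) c1 ?_)).mono hI
      have e1 := F.a.keq_fun X.ms Z.μ X.μ _ _ k0 (mpc (mp false) (Z.mp h))
        (mpc (X.mp h) (mp false)) ((hp.emb false).eqv h) c1.1
      have e2 := F.t.ce Z _ h (H i) hP aH.integrable
      filter_upwards [e1, (Z.mp h).quasiMeasurePreserving.ae c2, e2, c2, condExp_congr_ae
        (m := pull Z.μ (p false) X.ms) ((F.t.inv_iff Z {u} _ aH.1).1 a1.1 h hh)]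
        with z z1 z2 z3 z4 z5
      exact z1.symm.trans (z2.trans (z3.symm.trans (z5.trans z4.symm)))
    refine ⟨fun x => (X.μ[g i | C]) x * k0 x, k2, hc.mul hk0, ⟨d1, _, a2.sub hc', d2, ?_⟩,
      desc (mp false) a3 ((hc'.mul c1).add d1) ?_⟩
    · filter_upwards [condExp_sub a2.integrable hc'.integrable C, BM.ce_self hC.le hc]
        with x x1 x2
      exact x1.trans (by rw [Pi.sub_apply, x2, sub_self]; rfl)
    · have e1 : (fun z => H i z * g i (p true z)) =ᵐ[Z.μ]
          (fun z => (X.μ[g i | C]) (p false z) * H i z) +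
            fun z => H i z * (g i (p true z) - (X.μ[g i | C]) (p true z)) := by
        filter_upwards [sw F hp _ hc] with z hz
        rw [Pi.add_apply, hz]
        ring
      filter_upwards [a4, condExp_congr_ae (m := pull Z.μ (p false) X.ms) e1, condExp_add
        ((bm_comp (mp false) hc').mul aH).integrable
        (aH.mul (bm_comp (mp true) (a2.sub hc'))).integrable (pull Z.μ (p false) X.ms),
        Fib27.ce_mul hP.le (b0 _ hc') aH, c2, d2] with z z1 z2 z3 z4 z5 z6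
      rw [z1, z2, z3, Pi.add_apply, z4, z5, z6]
  choose k1 k2 a1 a2 a3 using key
  refine ⟨n + n, Fin.append k1 k2, fun i => ?_, le_trans (le_of_eq (integral_congr_ae ?_)) h2⟩
  · refine Fin.addCases (fun j => ?_) (fun j => ?_) i
    · rw [Fin.append_left]; exact ⟨(a1 j).mono hC.le, Or.inl (a1 j)⟩
    · rw [Fin.append_right]; exact ⟨(a2 j).1, Or.inr ⟨H j, (a2 j).2.imp fun _ h =>
        ⟨(h1 j).1, h⟩⟩⟩
  · filter_upwards [ae_all_iff.2 a3] with x hx
    simp only [Fin.sum_univ_add, Fin.append_left, Fin.append_right, hx, sum_add_distrib]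

end OwnPL

open OwnPL in
theorem ownP (F : Fd) (G : GfP) (hV : VanP) : OwnP := by
  intro ν ν' X ι _ _ r A B O i0 u hu hX hA hB hBA hg
  have ex : ∀ i, ∃ Z p, Pair X (A i) Z p := fun i =>
    F.rp Bool (fun _ => X) X (A i) (fun _ => id) false (fun _ => hX) (hA i)
      (fun _ => (F.t.emb_id X).mp) fun _ _ _ _ => EventuallyEq.rfl
  choose Z p hp using ex
  refine G.dense ν ν' X ι r _ (fun i => {k | BM X.μ X.ms k ∧ (BM X.μ (A i) k ∨ (i = i0 ∧
    ∃ H g, BM (Z i).μ (Inv (Z i) {u}) H ∧ BM X.μ X.ms g ∧ Star (p i) H g k ∧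
      X.μ[g | A i] =ᵐ[X.μ] 0))}) (fun i => ?_) (fun _ _ h => h.1) (fun i k hk ε hε => ?_)
    fun f hf => ?_
  · rcases eq_or_ne i i0 with rfl | e
    · rw [update_self]
      exact (F.kb.fac X u _ hX (hA i)).le
    · rw [update_of_ne e]
      exact (hA i).le
  · rcases eq_or_ne i i0 with rfl | e
    · rw [update_self] at hk
      obtain ⟨n, a, h1, h2⟩ :=
        split F hX (hA i) (hp i) ((hB.inv u hu).trans hBA) k hk ε hε
      exact ⟨n, a, fun j => ⟨(h1 j).1, (h1 j).2.imp_right fun h => ⟨rfl, h⟩⟩, h2⟩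
    · rw [update_of_ne e] at hk
      exact ⟨1, fun _ => k, fun _ => ⟨hk.mono (hA i).le, Or.inl hk⟩, by simpa using hε.le⟩
  · by_cases hall : ∀ i, BM X.μ (A i) (f i)
    · exact hg f hall
    obtain ⟨i1, hi1⟩ := not_forall.1 hall
    obtain rfl : i1 = i0 := ((hf i1).2.resolve_left hi1).1
    have key : ∀ i, ∃ H g, (BM (Z i).μ (Inv (Z i) {u}) H ∧ BM X.μ X.ms g ∧ BM X.μ X.ms (f i) ∧
        Star (p i) H g (f i)) ∧ (¬ BM X.μ (A i) (f i) → X.μ[g | A i] =ᵐ[X.μ] 0) := fun i => by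
      rcases (hf i).2 with h | ⟨-, H, g, a1, a2, a3, a4⟩
      · exact ⟨fun _ => 1, f i, ⟨BM.const 1, (hf i).1, (hf i).1, star1 F (hA i) (hp i) _ h⟩,
          fun h' => absurd h h'⟩
      · exact ⟨H, g, ⟨a1, a2, (hf i).1, a3⟩, fun _ => a4⟩
    choose H g a1 a2 using key
    have h0 : X.μ[g i1 | B] =ᵐ[X.μ] 0 := by
      refine (condExp_condExp_of_le hBA (hA i1).le).symm.trans
        ((condExp_congr_ae (a2 i1 hi1)).trans ?_)
      rw [condExp_zero]
    exact sm_of (hV ν' ν X ι r A B O i1 Z p u hu hA hp hg hB.g0 H g f a1 h0)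
      (hV ν' ν' X ι r A B O i1 Z p u hu hA hp (fun _ _ => by simp) hB.g0 H g f a1 h0)
      fun M => n2_sub (bm_avg F.t (fun i => (hf i).1) M) (bm_avg F.t (fun i => (hf i).1) M)

end T4x

end

end PkOwnP

section PkForP

/-! Row `ForP`: the compact step in the slots that do not own the direction. -/

set_option autoImplicit false
set_option linter.unusedVariables false
set_option linter.unusedSectionVars false

open MeasureTheory ProbabilityTheory Filter Topology Function Finset ComplexConjugate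
open scoped BigOperators
open Fib27 (BM)

noncomputable section

namespace T4x

open T3x GfL

variable [Grp]

theorem forP (F : Fd) (G : GfP) (hV : VanP) : ForP := by
  intro ν ν' X ι _ _ r A B O i0 u hu hX hA hB hBA hg
  have ex : ∀ i, ∃ Z p, Pair X (A i) Z p := fun i =>
    F.rp Bool (fun _ => X) X (A i) (fun _ => id) false (fun _ => hX) (hA i)
      (fun _ => (F.t.emb_id X).mp) fun _ _ _ _ => EventuallyEq.rfl
  choose Z p hp using ex
  have st : ∀ i c, BM X.μ (A i) c → Star (p i) (fun _ => 1) c c := fun i c hc => by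
    have e := (hp i).emb
    simp only [Star, one_mul]
    exact ((condExp_congr_ae (F.a.keq_fun (A i) (Z i).μ X.μ _ _ c (e true).mp (e false).mp
      ((hp i).com true) hc.1)).trans (BM.ce_self (F.t.fpull _ X _ X.ms (e false) (F.t.top X)).le
        (F.a.bm_comp X.ms (Z i).μ X.μ _ c (e false).mp (hc.mono (hA i).le)))).symm
  refine G.dense ν ν' X ι r _ (fun i => {k | BM X.μ X.ms k ∧ (i = i0 → BM X.μ (A i) k) ∧
    ∃ H g, BM (Z i).μ (Inv (Z i) {u}) H ∧ BM X.μ X.ms g ∧ Star (p i) H g k}) (fun i => ?_)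
    (fun _ _ h => h.1) (fun i k hk ε hε => ?_) fun f hf => ?_
  · rcases eq_or_ne i i0 with rfl | e
    · rw [update_self]
      exact (hA i).le
    · rw [update_of_ne e]
      exact (F.kb.fac X u _ hX (hA i)).le
  · rcases eq_or_ne i i0 with rfl | e
    · rw [update_self] at hk
      have hk' := hk.mono (hA i).le
      exact ⟨1, fun _ => k, fun _ => ⟨hk', fun _ => hk, _, k, BM.const 1, hk', st i k hk⟩,
        by simpa using hε.le⟩
    · rw [update_of_ne e] at hk
      obtain ⟨n, H, g, k', h1, h2⟩ := F.kb.span X u _ _ _ hX (hA i) (hp i) k hk ε hε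
      exact ⟨n, k', fun j => ⟨(h1 j).2.2.1, fun h => absurd h e, _, _, (h1 j).1, (h1 j).2.1,
        (h1 j).2.2.2⟩, h2⟩
  · have b : ∀ i, BM X.μ X.ms (f i) := fun i => (hf i).1
    have hE := (b i0).ce B
    have hE' := hE.mono hB.fac.le
    have hd := ((hf i0).2.1 rfl).sub (hE.mono hBA)
    have b1 := bm_upd b i0 hE'
    have b2 := bm_upd b i0 (hd.mono (hA i0).le)
    have key : ∀ i, ∃ H g, (BM (Z i).μ (Inv (Z i) {u}) H ∧ BM X.μ X.ms g ∧ BM X.μ X.ms
        (update f i0 (fun x => f i0 x - (X.μ[f i0 | B]) x) i) ∧ Star (p i) H g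
        (update f i0 (fun x => f i0 x - (X.μ[f i0 | B]) x) i)) ∧
        (i = i0 → X.μ[g | B] =ᵐ[X.μ] 0) := fun i => by
      rcases eq_or_ne i i0 with rfl | e
      · rw [update_self]
        refine ⟨_, _, ⟨BM.const 1, (b i).sub hE', (b i).sub hE', st i _ hd⟩, fun _ => ?_⟩
        filter_upwards [condExp_sub (b i).integrable hE'.integrable B, BM.ce_self hB.fac.le hE]
          with x x1 x2
        exact x1.trans (by rw [Pi.sub_apply, x2, sub_self]; rfl)
      · obtain ⟨H, g, a1, a2, a3⟩ := (hf i).2.2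
        rw [update_of_ne e]
        exact ⟨H, g, ⟨a1, a2, b i, a3⟩, fun h => absurd h e⟩
    choose H g a1 a2 using key
    have s1 := hB.good (update f i0 (X.μ[f i0 | B])) fun i => by
      rcases eq_or_ne i i0 with rfl | e
      · rwa [update_self, update_self]
      · rw [update_of_ne e, update_of_ne e]
        exact b i
    have s2 := sm_of (hV ν' ν X ι r A B O i0 Z p u hu hA hp hg hB.g0 H g _ a1 (a2 i0 rfl))
      (hV ν' ν' X ι r A B O i0 Z p u hu hA hp (fun _ _ => by simp) hB.g0 H g _ a1 (a2 i0 rfl))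
      fun M => n2_sub (bm_avg F.t b2 M) (bm_avg F.t b2 M)
    refine sm_of s1 s2 fun M => le_trans (le_of_eq ?_) (n2_add
      ((bm_avg F.t b1 M).sub (bm_avg F.t b1 M)) ((bm_avg F.t b2 M).sub (bm_avg F.t b2 M)))
    refine integral_congr_ae (Eventually.of_forall fun x => ?_)
    have e := fun ν => avg_split (ν := ν) (r := r) (f := f) i0 (fun _ : Fin 1 => X.μ[f i0 | B]) M x
    simp only [Fin.sum_univ_one] at e
    simp only [e ν, e ν']
    congr 2
    ring

end T4x

end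

end PkForP

section PkDetP

/-! The hull induction with one factor for each slot. -/

set_option autoImplicit false
set_option linter.unusedVariables false

open MeasureTheory Filter Topology Function
open Fib27 (BM)

noncomputable section

namespace T4x

open T3x

variable [Grp]

lemma GoodP.anti {ν ν' : Wt} {X : Sys} {ι : Type} [Fintype ι] {r : ι → Γ}
    {A A' : ι → MeasurableSpace X.X} (h : GoodP ν ν' X r A) (hA : ∀ i, A' i ≤ A i) :
    GoodP ν ν' X r A' := fun f hf => h f fun i => (hf i).mono (hA i)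

theorem detP (F : Fd) (G : Gf) (GP : GfP) (hO : OwnP) (hF : ForP) (hT : TopS) : DETP := by
  intro ν ν' ι _ _ hι r O e1 e2 s1 s2 hr hO' hB X
  obtain ⟨X', e, hX, he, hf⟩ := F.nice0 X
  refine G.down ν ν' X X' e ι r he hf ?_
  choose B hB using hB X'
  obtain ⟨i0⟩ := hι
  have b1 := (hB i0).fac
  refine hT ν ν' X' ι r _ e1 e2 s1 s2 hr hX (F.h.kc X' (B i0) hX b1)
    (GoodP.anti (A := fun i => hull X' (B i0) ⊔ B i) (F.h.ind X' (B i0)
      (fun C => GoodP ν ν' X' r fun i => C ⊔ B i) hX b1 ?_ ?_ ?_) fun i => le_sup_left)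
  · refine (hB i0).good.anti fun i => ?_
    rcases eq_or_ne i i0 with rfl | h
    · simp
    · rw [update_of_ne h]
      exact sup_le b1.le (hB i).fac.le
  · intro u hu C c1 c2 c3
    obtain ⟨j, hj⟩ := hO' u hu
    have fa : ∀ i, Fac X' (C ⊔ B i) := fun i => F.t.fsup X' _ _ c1 (hB i).fac
    have h1 := hO ν ν' X' ι r _ (B j) (O j) j u hj hX fa (hB j) le_sup_right c3
    have h2 := hF ν ν' X' ι r _ (B j) (O j) j u hj hX (fun i => ?_) (hB j) ?_ h1
    · refine h2.anti fun i => ?_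
      have k : KK X' u C ⊔ B i ≤ KK X' u (C ⊔ B i) :=
        sup_le (F.kb.mono X' u _ _ hX c1 (fa i) le_sup_left)
          (le_sup_right.trans (F.kb.le X' u _ hX (fa i)))
      rcases eq_or_ne i j with rfl | h
      · simpa only [update_self] using k
      · simpa only [update_of_ne h] using k
    · rcases eq_or_ne i j with rfl | h
      · rw [update_self]
        exact F.kb.fac X' u _ hX (fa i)
      · rw [update_of_ne h]
        exact fa i
    · rw [update_self]
      exact le_sup_right.trans (F.kb.le X' u _ hX (fa j))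
  · exact fun 𝒞 c1 c2 c3 => GP.chain ν ν' X' ι r B 𝒞 (fun i => (hB i).fac.le) c1 c2
      fun C h => ⟨(c3 C h).1.le, (c3 C h).2.2⟩

end T4x

end

end PkDetP
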