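import Pool.Agent.MP_154433_an.t7.SpecE
import Pool.Agent.MP_154433_an.t3s.Shift

/-! Pairs of commuting maps: the bipolar of the atoms (packed). -/

section PkKcal

/-! Row Kcal: calculus of the bipolar of the atoms. -/

set_option autoImplicit false
set_option linter.unusedVariables false

open Filter Function Finset
open scoped BigOperators ComplexConjugate

noncomputable section

namespace Pool.Agent.MP_154433_an.T7

namespace KcalL

variable {N : ℕ} {L F α β : ℕ → ℕ → ℕ → ℂ} {t : ℝ}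

lemma ee_add (s t : ℝ) : ee (s + t) = ee s * ee t := by
  unfold ee
  rw [← Complex.exp_add]
  congr 1
  push_cast
  ring

lemma ee_zero : ee 0 = 1 := by simp [ee]

lemma ee_norm (s : ℝ) : ‖ee s‖ = 1 := Complex.norm_exp_ofReal_mul_I _

lemma ee_cj (s : ℝ) : conj (ee s) = ee (-s) := by
  unfold ee
  rw [← Complex.exp_conj, map_mul, Complex.conj_ofReal, Complex.conj_I]
  congr 1
  push_cast
  ring

lemma b2_mul {f g : ℕ → ℕ → ℂ} (hf : B2 f) (hg : B2 g) : B2 fun a b => f a b * g a b :=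
  fun a b => by
    rw [norm_mul]
    exact mul_le_one₀ (hf a b) (norm_nonneg _) (hg a b)

lemma at_mul (h : Atom α) (h' : Atom β) : Atom fun n m d => α n m d * β n m d := by
  obtain ⟨G, u, ξ, γ, h1, h2, e⟩ := h
  obtain ⟨G', u', ξ', γ', h1', h2', e'⟩ := h'
  refine ⟨_, _, fun m => ξ m + ξ' m, fun z => γ z + γ' z, b2_mul h1 h1', b2_mul h2 h2',
    fun n m d => ?_⟩
  have : (d : ℝ) * (ξ m + ξ' m) + d * (γ (n + m + d) + γ' (n + m + d)) =
      (d * ξ m + d * γ (n + m + d)) + (d * ξ' m + d * γ' (n + m + d)) := by ring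
  simp only [e, e']
  rw [this, ee_add (d * ξ m + d * γ (n + m + d))]
  ring

lemma at_cj (h : Atom α) : Atom fun n m d => conj (α n m d) := by
  obtain ⟨G, u, ξ, γ, h1, h2, e⟩ := h
  refine ⟨fun a b => conj (G a b), fun a b => conj (u a b), fun m => -ξ m, fun z => -γ z,
    fun a b => by rw [RCLike.norm_conj]; exact h1 a b,
    fun a b => by rw [RCLike.norm_conj]; exact h2 a b, fun n m d => ?_⟩
  simp only [e, map_mul, ee_cj]
  congr 2
  ring

lemma at_norm (h : Atom α) (n m d : ℕ) : ‖α n m d‖ ≤ 1 := by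
  obtain ⟨G, u, ξ, γ, h1, h2, e⟩ := h
  rw [e, norm_mul, ee_norm, mul_one, norm_mul]
  exact mul_le_one₀ (h1 _ _) (norm_nonneg _) (h2 _ _)

/-- the indicator of a point -/
def dl (a b c : ℕ) : ℕ → ℕ → ℕ → ℂ := fun n m d =>
  (if n = a then 1 else 0) * ((if m = b then 1 else 0) * if d = c then 1 else 0)

lemma at_dl (a b c : ℕ) : Atom (dl a b c) := by
  refine ⟨fun n m => (if n = a then 1 else 0) * if m = b then 1 else 0,
    fun _ z => if z = b + c then 1 else 0, fun _ => 0, fun _ => 0, fun n m => ?_, fun n z => ?_,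
    fun n m d => ?_⟩
  · beta_reduce; split_ifs <;> simp
  · beta_reduce; split_ifs <;> simp
  · by_cases h : m = b
    · subst h; simp [dl, ee_zero]
    · simp [dl, h]

lemma pai_dl {a b c : ℕ} (ha : a < N) (hb : b < N) (hc : c < N) :
    pai N L (dl a b c) = L a b c := by
  unfold pai
  rw [sum_eq_single_of_mem a (mem_range.2 ha) fun n _ h => by simp [dl, h],
    sum_eq_single_of_mem b (mem_range.2 hb) fun n _ h => by simp [dl, h],
    sum_eq_single_of_mem c (mem_range.2 hc) fun n _ h => by simp [dl, h]]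
  simp [dl]

lemma pai_congr {L' F' : ℕ → ℕ → ℕ → ℂ}
    (h : ∀ n < N, ∀ m < N, ∀ d < N, L n m d * F n m d = L' n m d * F' n m d) :
    pai N L F = pai N L' F' :=
  sum_congr rfl fun n hn => sum_congr rfl fun m hm => sum_congr rfl fun d hd =>
    h n (mem_range.1 hn) m (mem_range.1 hm) d (mem_range.1 hd)

lemma pai_cj : pai N (fun n m d => conj (L n m d)) F =
    conj (pai N L fun n m d => conj (F n m d)) := by
  simp only [pai, map_sum, map_mul, Complex.conj_conj]

lemma sum_cut {N' : ℕ} (h : N ≤ N') (f : ℕ → ℂ) :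
    ∑ n ∈ range N', (if n < N then f n else 0) = ∑ n ∈ range N, f n := by
  rw [← sum_filter]
  refine sum_congr ?_ fun _ _ => rfl
  ext n
  simp only [mem_filter, mem_range]
  omega

lemma pai_cut {N' : ℕ} (h : N ≤ N') : pai N' (fun n m d =>
    if n < N then if m < N then if d < N then L n m d else 0 else 0 else 0) F = pai N L F := by
  simp only [pai, ite_mul, zero_mul, sum_ite_irrel, sum_const_zero, sum_cut h]

lemma t_nonneg (h : ∀ α, Atom α → ‖pai N L α‖ ≤ t) : 0 ≤ t :=
  (norm_nonneg _).trans (h _ (at_dl 0 0 0))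

end KcalL

open KcalL in
theorem kcal : KcalS where
  atom N α h L t hL := by rw [one_mul]; exact hL α h
  add N C C' F F' h h' L t hL := by
    have e : (pai N L fun n m d => F n m d + F' n m d) = pai N L F + pai N L F' := by
      simp only [pai, mul_add, sum_add_distrib]
    rw [e, add_mul]
    exact (norm_add_le _ _).trans (add_le_add (h L t hL) (h' L t hL))
  smul N C F z h L t hL := by
    have e : (pai N L fun n m d => z * F n m d) = z * pai N L F := by
      simp only [pai, mul_sum, mul_left_comm]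
    rw [e, norm_mul, mul_assoc]
    exact mul_le_mul_of_nonneg_left (h L t hL) (norm_nonneg _)
  mul N C C' F F' h h' L t hL := by
    have e := h (fun n m d => L n m d * F' n m d) (C' * t) fun α hα => by
      have e1 := h' (fun n m d => L n m d * α n m d) t fun β hβ => by
        have e2 := hL _ (at_mul hα hβ)
        rwa [pai_congr (L' := fun n m d => L n m d * α n m d) (F' := β)
          fun n _ m _ d _ => by ring] at e2
      rwa [pai_congr (L' := fun n m d => L n m d * F' n m d) (F' := α)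
        fun n _ m _ d _ => by ring] at e1
    rwa [pai_congr (L' := L) (F' := fun n m d => F n m d * F' n m d)
      (fun n _ m _ d _ => by ring), ← mul_assoc] at e
  cj N C F h L t hL := by
    have e := h (fun n m d => conj (L n m d)) t fun α hα => by
      rw [pai_cj, RCLike.norm_conj]; exact hL _ (at_cj hα)
    rwa [pai_cj, RCLike.norm_conj] at e
  bound N C F h n hn m hm d hd := by
    have c : ∀ G, pai N (dl n m d) G = G n m d := fun G => by
      rw [← pai_dl (L := G) hn hm hd]; exact pai_congr fun _ _ _ _ _ _ => mul_comm _ _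
    have e := h (dl n m d) 1 fun α hα => by rw [c]; exact at_norm hα _ _ _
    rwa [c, mul_one] at e
  mono N N' C C' F hN hC h L t hL := by
    have e := h _ t fun α hα => by rw [pai_cut (L := L) hN]; exact hL α hα
    rw [pai_cut hN] at e
    exact e.trans (mul_le_mul_of_nonneg_right hC (t_nonneg hL))
  congr N C F F' e h L t hL := by
    rw [← pai_congr (L := L) (F := F) fun n hn m hm d hd => by rw [e n hn m hm d hd]]
    exact h L t hL
  expect N C ι _ _ F h L t hL := by
    have e : (pai N L fun n m d => 𝔼 i, F i n m d) = 𝔼 i, pai N L (F i) := by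
      simp only [pai, mul_expect, expect_sum_comm]
    rw [e]
    exact T3S.norm_exp_le_of ((norm_nonneg _).trans (h (Classical.arbitrary ι) L t hL))
      fun i _ => h i L t hL
  small N η F h L t hL := by
    have b : ∀ (f : ℕ → ℂ) (c : ℝ), (∀ n < N, ‖f n‖ ≤ c) → ‖∑ n ∈ range N, f n‖ ≤ N * c :=
      fun f c hf => (norm_sum_le _ _).trans <| by
        simpa using sum_le_card_nsmul (range N) _ c fun n hn => hf n (mem_range.1 hn)
    have e : η * N ^ 3 * t = N * (N * (N * (t * η))) := by ring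
    rw [e]
    refine b _ _ fun n hn => b _ _ fun m hm => b _ _ fun d hd => ?_
    rw [norm_mul]
    refine mul_le_mul ?_ (h n hn m hm d hd) (norm_nonneg _) (t_nonneg hL)
    rw [← pai_dl (L := L) hn hm hd]
    exact hL _ (at_dl _ _ _)

end Pool.Agent.MP_154433_an.T7

end

end PkKcal

section PkLine

/-! The frequency may be chosen line by line. -/

set_option autoImplicit false
set_option linter.unusedVariables false

open Finset
open scoped BigOperators ComplexConjugate

noncomputable section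

namespace Pool.Agent.MP_154433_an.T7

namespace LineL

lemma ee_add (a b : ℝ) : ee (a + b) = ee a * ee b := by
  simp only [ee, ← Complex.exp_add]
  congr 1
  push_cast
  ring

lemma ee_norm (a : ℝ) : ‖ee a‖ = 1 := Complex.norm_exp_ofReal_mul_I _

lemma core {P ι : Type} [Fintype ι] [Nonempty ι] (S : Finset P) (κ : P → ℕ) (W : ι → P → ℂ)
    (c : ℕ → ι → ℂ) (C t : ℝ) (hc : ∀ z, ∑ i, ‖c z i‖ ≤ C)
    (h : ∀ (s : ℕ → ι) (ph : ℕ → ℂ), (∀ z, ‖ph z‖ ≤ 1) →
      ‖∑ p ∈ S, ph (κ p) * W (s (κ p)) p‖ ≤ t) :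
    ‖∑ p ∈ S, ∑ i, c (κ p) i * W i p‖ ≤ C * t := by
  have key : ∀ F : ℕ → P → ℂ, ∑ p ∈ S, F (κ p) p =
      ∑ z ∈ S.image κ, ∑ p ∈ S with κ p = z, F z p := fun F => by
    rw [← sum_fiberwise_of_maps_to (fun p hp => mem_image_of_mem κ hp)]
    exact sum_congr rfl fun z _ => sum_congr rfl fun p hp => by rw [(mem_filter.1 hp).2]
  set lam : ℕ → ι → ℂ := fun z i => ∑ p ∈ S with κ p = z, W i p with hl
  choose s hs using fun z => Finite.exists_max fun i => ‖lam z i‖
  choose ph h1 h2 using fun z => Complex.exists_norm_eq_mul_self (lam z (s z))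
  have hC : 0 ≤ C := (sum_nonneg fun i _ => norm_nonneg _).trans (hc 0)
  have h3 := h s ph fun z => (h1 z).le
  rw [key fun z p => ph z * W (s z) p] at h3
  have h4 : ∑ z ∈ S.image κ, ∑ p ∈ S with κ p = z, ph z * W (s z) p =
      ((∑ z ∈ S.image κ, ‖lam z (s z)‖ : ℝ) : ℂ) := by
    push_cast
    exact sum_congr rfl fun z _ => by rw [h2, hl, mul_sum]
  rw [h4, Complex.norm_real, Real.norm_eq_abs] at h3
  rw [key fun z p => ∑ i, c z i * W i p]
  refine (norm_sum_le _ _).trans (le_trans ?_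
    (mul_le_mul_of_nonneg_left ((le_abs_self _).trans h3) hC))
  rw [mul_sum]
  refine sum_le_sum fun z _ => ?_
  rw [sum_comm]
  refine (norm_sum_le _ _).trans (le_trans (sum_le_sum fun i _ => ?_)
    ((sum_mul _ _ _).symm.trans_le (mul_le_mul_of_nonneg_right (hc z) (norm_nonneg _))))
  rw [← mul_sum, norm_mul]
  exact mul_le_mul_of_nonneg_left (hs z i) (norm_nonneg _)

lemma pai_eq (N : ℕ) (L F : ℕ → ℕ → ℕ → ℂ) : pai N L F =
    ∑ p ∈ range N ×ˢ range N ×ˢ range N, L p.1 p.2.1 p.2.2 * F p.1 p.2.1 p.2.2 := by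
  simp only [pai, sum_product]

lemma byLine (N : ℕ) (C : ℝ) {ι : Type} [Fintype ι] (κ : ℕ → ℕ → ℕ → ℕ)
    (E : ι → ℕ → ℕ → ℕ → ℂ) (c : ℕ → ι → ℂ) (hc : ∀ z, ∑ i, ‖c z i‖ ≤ C)
    (h : ∀ (s : ℕ → ι) (ph : ℕ → ℂ), (∀ z, ‖ph z‖ ≤ 1) →
      Atom fun n m d => ph (κ n m d) * E (s (κ n m d)) n m d) :
    InK N C fun n m d => ∑ i, c (κ n m d) i * E i n m d := by
  intro L t ht
  rcases isEmpty_or_nonempty ι with hι | hι
  · have h0 := ht (fun _ _ _ => 0)
      ⟨fun _ _ => 0, fun _ _ => 0, 0, 0, fun _ _ => by simp, fun _ _ => by simp, by simp⟩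
    have hC : 0 ≤ C := (sum_nonneg fun i _ => norm_nonneg _).trans (hc 0)
    simpa [pai] using mul_nonneg hC ((norm_nonneg _).trans h0)
  have h1 := core (range N ×ˢ range N ×ˢ range N) (fun p => κ p.1 p.2.1 p.2.2)
    (fun i p => L p.1 p.2.1 p.2.2 * E i p.1 p.2.1 p.2.2) c C t hc fun s ph hp => by
      have h2 := ht _ (h s ph hp)
      rw [pai_eq] at h2
      simpa only [mul_left_comm] using h2
  rw [pai_eq]
  simpa only [mul_sum, mul_left_comm] using h1

end LineL

open LineL in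
theorem line : LineS := by
  intro N C ι _ θ c hc
  refine ⟨byLine N C (fun _ m _ => m) (fun i n m d => ee (((n + m + d : ℕ) : ℝ) * θ i)) c hc
    fun s ph hp => ⟨fun n m => ph m * ee (((n + m : ℕ) : ℝ) * θ (s m)), fun _ _ => 1,
      fun m => θ (s m), fun _ => 0, fun n m => ?_, fun _ _ => by simp, fun n m d => ?_⟩,
    byLine N C (fun n m d => n + m + d) (fun i n m d => ee (-(m : ℝ) * θ i)) c hc
    fun s ph hp => ⟨fun _ _ => 1, fun n y => ph (n + y) * ee (-(y : ℝ) * θ (s (n + y))),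
      fun _ => 0, fun z => θ (s z), fun _ _ => by simp, fun n m => ?_, fun n m d => ?_⟩⟩
  · rw [norm_mul, ee_norm, mul_one]
    exact hp _
  · simp only [mul_one, mul_assoc, ← ee_add]
    congr 2
    push_cast
    ring
  · rw [norm_mul, ee_norm, mul_one]
    exact hp _
  · simp only [one_mul, mul_assoc, ← ee_add, ← add_assoc]
    congr 2
    push_cast
    ring

end Pool.Agent.MP_154433_an.T7

end

end PkLine

section PkWie

/-! Fourier expansion of a trilinear average in the shift. -/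

set_option autoImplicit false

noncomputable section

namespace Pool.Agent.MP_154433_an.T7

open Finset
open scoped BigOperators ComplexConjugate
open T3S (B1)

namespace WieL

lemma ee_add (s t : ℝ) : ee (s + t) = ee s * ee t := by
  unfold ee; rw [← Complex.exp_add]; congr 1; push_cast; ring

lemma norm_ee (t : ℝ) : ‖ee t‖ = 1 := Complex.norm_exp_ofReal_mul_I _

lemma ee_cj (t : ℝ) : conj (ee t) = ee (-t) := by
  unfold ee; rw [← Complex.exp_conj]; congr 1; simp [Complex.conj_ofReal, map_ofNat]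

lemma ee_nat (n : ℕ) (t : ℝ) : ee (n * t) = ee t ^ n := by
  unfold ee; rw [← Complex.exp_nat_mul]; congr 1; push_cast; ring

lemma ee_one {t : ℝ} : ee t = 1 ↔ ∃ k : ℤ, t = k := by
  unfold ee
  rw [Complex.exp_eq_one_iff]
  refine exists_congr fun k => ⟨fun h => ?_, fun h => by rw [h]; push_cast; ring⟩
  have h2 : ((2 * Real.pi * t : ℝ) : ℂ) = ((2 * Real.pi * k : ℝ) : ℂ) :=
    mul_right_cancel₀ Complex.I_ne_zero (by rw [h]; push_cast; ring)
  exact mul_left_cancel₀ (by positivity : (2 * Real.pi) ≠ 0) (Complex.ofReal_injective h2)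

lemma orth {M : ℕ} (a : ℤ) (ha : |a| < M) :
    ∑ ξ : Fin M, ee (a * ((ξ : ℕ) / M : ℝ)) = if a = 0 then (M : ℂ) else 0 := by
  have hM : (0 : ℝ) < M := by exact_mod_cast (abs_nonneg a).trans_lt ha
  have e : ∀ ξ : Fin M, ee (a * ((ξ : ℕ) / M : ℝ)) = ee (a / M) ^ (ξ : ℕ) := fun ξ => by
    rw [← ee_nat]; congr 1; ring
  simp only [e]
  rw [Fin.sum_univ_eq_sum_range (fun i => ee (a / M) ^ i)]
  split_ifs with h
  · have : ee ((a : ℝ) / M) = 1 := ee_one.2 ⟨0, by simp [h]⟩
    simp [this]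
  · have h1 : ee ((a : ℝ) / M) ≠ 1 := fun h1 => by
      obtain ⟨k, hk⟩ := ee_one.1 h1
      have : a = M * k := by
        have : (a : ℝ) = M * k := by rw [← hk]; field_simp
        exact_mod_cast this
      exact h (Int.eq_zero_of_abs_lt_dvd ⟨k, this⟩ ha)
    rw [geom_sum_eq h1, ← ee_nat, ee_one.2 ⟨a, by field_simp⟩]
    simp

/-- transform of a function on an interval -/
def G (L : ℕ) (g : ℤ → ℂ) (t : ℝ) : ℂ := 𝔼 i : Fin L, g (i : ℕ) * ee (((i : ℕ) : ℤ) * t)

lemma pars {L : ℕ} (hL : 1 ≤ L) {g : ℤ → ℂ} (hg : B1 g) :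
    ∑ ξ : Fin (4 * L), ‖G L g ((ξ : ℕ) / (4 * L : ℕ))‖ ^ 2 ≤ 4 := by
  have hL' : (0 : ℝ) < L := by exact_mod_cast hL
  have hc : (L : ℂ) ≠ 0 := by exact_mod_cast hL'.ne'
  have key : ((∑ ξ : Fin (4 * L), ‖G L g ((ξ : ℕ) / (4 * L : ℕ))‖ ^ 2 : ℝ) : ℂ) =
      ((4 / L * ∑ i : Fin L, ‖g (i : ℕ)‖ ^ 2 : ℝ) : ℂ) := by
    have e1 : ∀ t : ℝ, ((‖G L g t‖ : ℂ)) ^ 2 = ∑ i : Fin L, ∑ j : Fin L,
        (L : ℂ)⁻¹ ^ 2 * (g (i : ℕ) * conj (g (j : ℕ))) *
          ee (((((i : ℕ) : ℤ) - ((j : ℕ) : ℤ) : ℤ) : ℝ) * t) := fun t => by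
      rw [← Complex.mul_conj']
      simp only [G, expect_eq_sum_div_card, card_univ, Fintype.card_fin, map_div₀, map_sum,
        map_mul, map_natCast, ee_cj, div_mul_div_comm, sum_mul_sum, sum_div]
      refine sum_congr rfl fun i _ => sum_congr rfl fun j _ => ?_
      rw [Int.cast_sub, sub_mul, sub_eq_add_neg, ee_add]; field_simp
    push_cast
    simp only [← Nat.cast_ofNat (R := ℝ) (n := 4), ← Nat.cast_mul, e1]
    rw [sum_comm, mul_sum]
    refine sum_congr rfl fun i _ => ?_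
    rw [sum_comm, sum_eq_single i]
    · rw [← mul_sum, orth _ (by simp; omega), if_pos (sub_self _), Complex.mul_conj']
      push_cast; field_simp
    · intro j _ hj
      have := i.2; have := j.2
      have h3 : (j : ℕ) ≠ i := fun h => hj (Fin.ext h)
      rw [← mul_sum, orth _ (by rw [abs_lt]; push_cast; omega), if_neg (by omega), mul_zero]
    · simp
  rw [Complex.ofReal_injective key]
  have : ∑ i : Fin L, ‖g (i : ℕ)‖ ^ 2 ≤ ∑ _i : Fin L, (1 : ℝ) :=
    sum_le_sum fun i _ => pow_le_one₀ (norm_nonneg _) (hg _)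
  simp only [sum_const, card_univ, Fintype.card_fin, nsmul_eq_mul, mul_one] at this
  calc _ ≤ 4 / L * (L : ℝ) := by gcongr
    _ = 4 := by field_simp

lemma inv {L : ℕ} (g : ℤ → ℂ) (t : ℤ) (h1 : -L ≤ t) (h2 : t < 3 * L) :
    g t = ∑ ξ : Fin (4 * L), G (4 * L) (fun s => g (s - L)) (-((ξ : ℕ) / (4 * L : ℕ))) *
      ee ((t + L : ℤ) * ((ξ : ℕ) / (4 * L : ℕ) : ℝ)) := by
  have hc : ((4 * L : ℕ) : ℂ) ≠ 0 := by exact_mod_cast (by omega : 4 * L ≠ 0)
  have e : ∀ (s : Fin (4 * L)) (x : ℝ), g (((s : ℕ) : ℤ) - L) * ee (((s : ℕ) : ℤ) * -x) /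
      ((4 * L : ℕ) : ℂ) * ee ((t + L : ℤ) * x) = g (((s : ℕ) : ℤ) - L) / ((4 * L : ℕ) : ℂ) *
        ee ((t + L - (s : ℕ) : ℤ) * x) := fun s x => by
    rw [Int.cast_sub, sub_mul, sub_eq_add_neg (_ * x), ee_add, mul_neg]; ring
  simp only [G, expect_eq_sum_div_card, card_univ, Fintype.card_fin, sum_div, sum_mul, e]
  rw [sum_comm, sum_eq_single (⟨(t + L).toNat, by omega⟩ : Fin (4 * L))]
  · have h3 : (((t + L).toNat : ℕ) : ℤ) = t + L := by omega
    rw [← mul_sum, orth _ (by simp only [h3]; simp; omega), if_pos (by simp only [h3]; ring)]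
    simp only [h3, add_sub_cancel_right]; field_simp
  · intro j _ hj
    have := j.2
    have h3 : (j : ℕ) ≠ (t + L).toNat := fun h => hj (Fin.ext h)
    rw [← mul_sum, orth _ (by rw [abs_lt]; push_cast; omega), if_neg (by omega), mul_zero]
  · simp

lemma norm_G {L : ℕ} (hL : 1 ≤ L) {g : ℤ → ℂ} (hg : B1 g) (t : ℝ) : ‖G L g t‖ ≤ 1 := by
  have : Nonempty (Fin L) := ⟨⟨0, hL⟩⟩
  refine (RCLike.norm_expect_le (K := ℂ)).trans (expect_le univ_nonempty fun i _ => ?_)
  rw [norm_mul, norm_ee, mul_one]; exact hg _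

lemma plain {L : ℕ} (hL : 1 ≤ L) {g1 g2 g3 : ℤ → ℂ} (h1 : B1 g1) (h2 : B1 g2) (h3 : B1 g3) :
    ∃ c : Fin (4 * L) → ℂ, ∑ i, ‖c i‖ ≤ 4 ∧ ∀ y : ℤ, |y| ≤ L →
      (𝔼 i : Fin L, 𝔼 j : Fin L, g1 (i : ℕ) * g2 (j : ℕ) * g3 ((i : ℕ) + (j : ℕ) - y)) =
        ∑ ξ, c ξ * ee (y * -((ξ : ℕ) / (4 * L : ℕ) : ℝ)) := by
  refine ⟨fun ξ => G L g1 ((ξ : ℕ) / (4 * L : ℕ)) * G L g2 ((ξ : ℕ) / (4 * L : ℕ)) *
    (G (4 * L) (fun s => g3 (s - L)) (-((ξ : ℕ) / (4 * L : ℕ))) *
      ee (L * ((ξ : ℕ) / (4 * L : ℕ) : ℝ))), ?_, fun y hy => ?_⟩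
  · have p1 := pars hL h1
    have p2 := pars hL h2
    refine le_trans (sum_le_sum (g := fun ξ : Fin (4 * L) =>
      (‖G L g1 ((ξ : ℕ) / (4 * L : ℕ))‖ ^ 2 + ‖G L g2 ((ξ : ℕ) / (4 * L : ℕ))‖ ^ 2) / 2)
        fun ξ _ => ?_) (by rw [← sum_div, sum_add_distrib]; linarith)
    have := norm_G (L := 4 * L) (by omega) (g := fun s => g3 (s - L)) (fun s => h3 _)
      (-((ξ : ℕ) / (4 * L : ℕ)))
    simp only [norm_mul, norm_ee, mul_one]
    refine (mul_le_of_le_one_right (by positivity) this).trans ?_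
    nlinarith [sq_nonneg (‖G L g1 ((ξ : ℕ) / (4 * L : ℕ))‖ - ‖G L g2 ((ξ : ℕ) / (4 * L : ℕ))‖)]
  · rw [abs_le] at hy
    have e : ∀ i j : Fin L, g3 ((i : ℕ) + (j : ℕ) - y) = _ := fun i j =>
      inv (L := L) g3 _ (by omega) (by have := i.2; have := j.2; omega)
    simp only [e, mul_sum, expect_sum_comm]
    refine sum_congr rfl fun ξ _ => ?_
    generalize G (4 * L) _ _ = z
    generalize (((ξ : ℕ) : ℝ) / (4 * L : ℕ)) = x
    rw [G, G, expect_mul_expect]
    simp only [expect_mul]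
    refine expect_congr rfl fun i _ => expect_congr rfl fun j _ => ?_
    rw [show (((i : ℕ) + (j : ℕ) - y + L : ℤ) : ℝ) * x = (((i : ℕ) : ℤ) : ℝ) * x +
      (((j : ℕ) : ℤ) : ℝ) * x + L * x + y * -x by push_cast; ring, ee_add, ee_add, ee_add]
    ring

end WieL

open WieL in
theorem wie : WieS := by
  intro L hL
  have : Nonempty (Fin L) := ⟨⟨0, hL⟩⟩
  refine ⟨fun ξ => -((ξ : ℕ) / (4 * L : ℕ) : ℝ), fun g1 g2 g3 h1 h2 h3 => ?_⟩
  choose c hc he using fun a b : Fin L => plain hL (g1 := fun s => g1 (s - (a : ℕ)))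
    (g2 := fun s => g2 (s - (b : ℕ))) (g3 := fun s => g3 (s - (a : ℕ) - (b : ℕ)))
    (fun _ => h1 _) (fun _ => h2 _) fun _ => h3 _
  refine ⟨fun ξ => 𝔼 a, 𝔼 b, c a b ξ, ?_, fun y hy => ?_⟩
  · refine le_trans (sum_le_sum (g := fun ξ => 𝔼 a, 𝔼 b, ‖c a b ξ‖) fun ξ _ =>
      (RCLike.norm_expect_le (K := ℂ)).trans
        (expect_le_expect fun a _ => RCLike.norm_expect_le (K := ℂ))) ?_
    simp only [← expect_sum_comm]
    exact expect_le univ_nonempty fun a _ => expect_le univ_nonempty fun b _ => hc a b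
  · simp only [expect_mul, ← expect_sum_comm, ← he _ _ y hy, dE]
    refine expect_congr rfl fun a _ => ?_
    rw [expect_comm]
    refine expect_congr rfl fun b _ => expect_congr rfl fun i _ => expect_congr rfl fun j _ => ?_
    congr 2; ring

end Pool.Agent.MP_154433_an.T7

end

end PkWie

section PkShift

/-! Row Shift: the cube average is almost invariant under short shifts. -/

set_option autoImplicit false
set_option linter.unusedVariables false

noncomputable section

namespace Pool.Agent.MP_154433_an.T7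

open Finset
open scoped BigOperators ComplexConjugate
open T3S (B1 norm_exp_le_of)

namespace ShiftL

variable {L : ℕ} {F F' : ℤ → ℂ}

lemma b1 (hF : B1 F) : ‖dE L F‖ ≤ 1 :=
  norm_exp_le_of zero_le_one fun _ _ => norm_exp_le_of zero_le_one fun _ _ => hF _

lemma two (hL : 1 ≤ L) (hF : B1 F') (c : ℤ) {e : ℝ} (h : ∀ t, ‖F t - F' (c + t)‖ ≤ e) :
    ‖dE L F - dE L F'‖ ≤ e + 2 * |(c : ℝ)| / L := by
  have he : 0 ≤ e := (norm_nonneg _).trans (h 0)
  refine (norm_sub_le_norm_sub_add_norm_sub _ (dE L fun t => F' (c + t)) _).trans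
    (add_le_add ?_ ?_)
  · simp only [dE, ← expect_sub_distrib]
    exact norm_exp_le_of he fun _ _ => norm_exp_le_of he fun _ _ => h _
  · rw [dE, dE, ← expect_sub_distrib]
    refine norm_exp_le_of (by positivity) fun a _ => ?_
    have := T3S.Shift.one (M := c.natAbs) hL (hF.comp fun t => t - ((a : ℕ) : ℤ)) (s := c)
      (Int.natCast_natAbs c).ge
    rw [Nat.cast_natAbs, Int.cast_abs] at this
    simpa only [add_sub_assoc, add_comm _ c] using this

lemma prod : dE L F = 𝔼 p : Fin L × Fin L, F (((p.2 : ℕ) : ℤ) - ((p.1 : ℕ) : ℤ)) := by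
  rw [← univ_product_univ, expect_product]
  rfl

lemma comm (G : ℤ → ℤ → ℂ) :
    (dE L fun s => dE L fun t => G s t) = dE L fun t => dE L fun s => G s t := by
  simp only [prod]
  exact expect_comm _ _ _

lemma mul (z : ℂ) : z * dE L F = dE L fun t => z * F t := by
  simp only [dE, mul_expect]

end ShiftL

open ShiftL in
theorem shift : ShiftS := by
  intro L φ y k hL hφ
  let G : ℤ → ℤ → ℤ → ℂ := fun t1 t2 t3 => conj (φ t1 k) * conj (φ t2 k) * φ (t1 + t2 - y) k *
    (conj (φ y t3) * φ t1 t3 * φ t2 t3 * conj (φ (t1 + t2 - y) t3))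
  have hG : ∀ t1 t2, B1 (G t1 t2) := fun t1 t2 t3 => by
    have m : ∀ {a b : ℂ}, ‖a‖ ≤ 1 → ‖b‖ ≤ 1 → ‖a * b‖ ≤ 1 := fun ha hb =>
      (norm_mul_le _ _).trans (mul_le_one₀ ha (norm_nonneg _) hb)
    have c : ∀ a b, ‖conj (φ a b)‖ ≤ 1 := fun a b => (RCLike.norm_conj _).trans_le (hφ a b)
    exact m (m (m (c _ _) (c _ _)) (hφ _ _)) (m (m (m (c _ _) (hφ _ _)) (hφ _ _)) (c _ _))
  have e1 : cu2 L φ y k = dE L fun t1 => dE L fun t2 => dE L fun t3 => G t1 t2 t3 := by
    simp only [cu2, mul]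
    rw [comm]
    refine congrArg _ (funext fun t1 => ?_)
    rw [comm]
    refine congrArg _ (funext fun t2 => congrArg _ (funext fun t3 => ?_))
    simp only [G, map_mul, RCLike.conj_conj]
    ring
  have e2 : (4 * |(y : ℝ)| + 2 * |(k : ℝ)|) / L =
      0 + 2 * |(k : ℝ)| / L + 2 * |(y : ℝ)| / L + 2 * |(y : ℝ)| / L := by ring
  rw [e1, e2]
  refine two hL (fun t1 => b1 fun t2 => b1 (hG t1 t2)) y fun t1 =>
    two hL (fun t2 => b1 (hG _ t2)) y fun t2 => two hL (hG _ _) k fun t3 => le_of_eq ?_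
  simp only [G, show y + t1 + (y + t2) - y = y + t1 + t2 by ring, sub_self, norm_zero]

end Pool.Agent.MP_154433_an.T7

end

end PkShift

section PkCub

/-! The dual cubes lie in the bipolar of the atoms. -/

set_option autoImplicit false
set_option linter.unusedVariables false

noncomputable section

namespace Pool.Agent.MP_154433_an.T7

open Filter Finset
open scoped BigOperators ComplexConjugate
open T3S (B1)

namespace CubL

def WW (L : ℕ) (φ : ℤ → ℤ → ℂ) (t y k : ℤ) : ℂ := dE L fun t1 => dE L fun t2 =>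
  conj (φ t1 k * conj (φ t1 t)) * conj (φ t2 k * conj (φ t2 t)) *
    (φ (t1 + t2 - y) k * conj (φ (t1 + t2 - y) t))

lemma core (hK : KcalS) (hS : ShiftS) {N L : ℕ} (hL : 18 * N ^ 4 + 1 ≤ L) {φ : ℤ → ℤ → ℂ}
    (hφ : B2 φ) (y k : ℕ → ℕ → ℕ → ℤ)
    (hb : ∀ n < N, ∀ m < N, ∀ d < N, |y n m d| ≤ 3 * N ∧ |k n m d| ≤ 3 * N)
    (h1 : ∀ t, InK N 1 fun n m d => conj (φ (y n m d) t))
    (h2 : ∀ t, InK N 4 fun n m d => WW L φ t (y n m d) (k n m d)) :
    InK N 5 fun n m d => cube L φ (y n m d) (k n m d) := by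
  have hL1 : 1 ≤ L := by omega
  have hLp : (0 : ℝ) < L := by exact_mod_cast hL1
  have : Nonempty (Fin L) := ⟨⟨0, hL1⟩⟩
  have hc : InK N (1 * 4) fun n m d => cu2 L φ (y n m d) (k n m d) :=
    hK.expect N _ (Fin L) _ fun h => hK.expect N _ (Fin L) _ fun h' =>
      hK.mul N _ _ _ _ (h1 (((h' : ℕ) : ℤ) - ((h : ℕ) : ℤ))) (h2 (((h' : ℕ) : ℤ) - ((h : ℕ) : ℤ)))
  have he := hK.small N (18 * N / L)
    (fun n m d => cube L φ (y n m d) (k n m d) - cu2 L φ (y n m d) (k n m d))
    fun n hn m hm d hd => (hS L φ _ _ hL1 hφ).trans (by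
      obtain ⟨a, b⟩ := hb n hn m hm d hd
      have a' : |(y n m d : ℝ)| ≤ 3 * N := by exact_mod_cast a
      have b' : |(k n m d : ℝ)| ≤ 3 * N := by exact_mod_cast b
      exact div_le_div_of_nonneg_right (by linarith) hLp.le)
  refine hK.congr N _ _ _ (fun n _ m _ d _ => by ring)
    (hK.mono N N _ 5 _ le_rfl ?_ (hK.add N _ _ _ _ hc he))
  have : (18 * N ^ 4 + 1 : ℝ) ≤ L := by exact_mod_cast hL
  have h3 : 18 * (N : ℝ) / L * N ^ 3 ≤ 1 := by
    rw [div_mul_eq_mul_div, div_le_one hLp]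
    linarith
  linarith

lemma b1 {φ : ℤ → ℤ → ℂ} (hφ : B2 φ) (k t : ℤ) : B1 fun s => φ s k * conj (φ s t) := fun s => by
  rw [norm_mul, Complex.norm_conj]
  exact mul_le_one₀ (hφ _ _) (norm_nonneg _) (hφ _ _)

lemma ee0 : ee 0 = 1 := by simp [ee]

end CubL

open CubL in
theorem cub (hKcal : KcalS) (hLine : LineS) (hWie : WieS) (hShift : ShiftS) : CubS := by
  intro N
  filter_upwards [eventually_ge_atTop (18 * N ^ 4 + 3 * N + 1)] with L hL φ hφ
  obtain ⟨θ, hθ⟩ := hWie L (by omega)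
  have hw : ∀ t k : ℤ, ∃ c : Fin (4 * L) → ℂ, ∑ i, ‖c i‖ ≤ 4 ∧ ∀ y : ℤ, |y| ≤ L →
      WW L φ t y k = ∑ i, c i * ee (y * θ i) := fun t k =>
    hθ (fun s => conj (φ s k * conj (φ s t))) (fun s => conj (φ s k * conj (φ s t)))
      (fun s => φ s k * conj (φ s t))
      (fun s => by rw [Complex.norm_conj]; exact b1 hφ k t s)
      (fun s => by rw [Complex.norm_conj]; exact b1 hφ k t s) (b1 hφ k t)
  choose c hc hcw using hw
  have hN : (3 * N : ℤ) ≤ L := by omega
  have bd : ∀ n < N, ∀ m < N, ∀ d < N,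
      |((n + m + d : ℕ) : ℤ)| ≤ 3 * N ∧ |(-(m : ℤ))| ≤ 3 * N := fun n hn m hm d hd => by
    rw [abs_neg, Nat.abs_cast, Nat.abs_cast]
    omega
  have cφ : ∀ a b, ‖conj (φ a b)‖ ≤ 1 := fun a b => by rw [Complex.norm_conj]; exact hφ a b
  constructor
  · refine CubL.core hKcal hShift (by omega) hφ _ _ bd (fun t => hKcal.atom N _
      ⟨fun _ _ => 1, fun n z => conj (φ ((n + z : ℕ) : ℤ) t), 0, 0, fun _ _ => by simp,
        fun _ _ => cφ _ _, fun n m d => by simp [ee0, add_assoc]⟩) fun t => ?_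
    refine hKcal.congr N _ _ _ (fun n hn m hm d hd => ?_)
      (hLine N 4 _ θ (fun m => c t (-(m : ℤ))) fun m => hc _ _).1
    rw [hcw t _ _ ((bd n hn m hm d hd).1.trans hN), Int.cast_natCast]
  · refine CubL.core hKcal hShift (by omega) hφ _ _ (fun n hn m hm d hd => (bd n hn m hm d hd).symm)
      (fun t => hKcal.atom N _
      ⟨fun _ m => conj (φ (-(m : ℤ)) t), fun _ _ => 1, 0, 0, fun _ _ => cφ _ _,
        fun _ _ => by simp, fun n m d => by simp [ee0]⟩) fun t => ?_
    refine hKcal.congr N _ _ _ (fun n hn m hm d hd => ?_)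
      (hLine N 4 _ θ (fun j => c t (j : ℤ)) fun m => hc _ _).2
    rw [hcw t _ _ ((bd n hn m hm d hd).2.trans hN), Int.cast_neg, Int.cast_natCast]

end Pool.Agent.MP_154433_an.T7

end

end PkCub

section PkYg

/-! Row Yg: a finite form of the inequality of Young. -/

set_option autoImplicit false
set_option linter.unusedVariables false

noncomputable section

namespace Pool.Agent.MP_154433_an.T7

open Finset
open scoped BigOperators ComplexConjugate

namespace YgL

variable {I J : Type} [Fintype I] [Fintype J]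

def La (A B C D : I → J → ℂ) : ℂ :=
  𝔼 i, 𝔼 i', 𝔼 j, 𝔼 j', A i' j' * conj (B i j') * conj (C i' j) * D i j

theorem split (A B C D : I → J → ℂ) : La A B C D =
    𝔼 i, 𝔼 i', (𝔼 j, A i' j * conj (B i j)) * conj (𝔼 j, C i' j * conj (D i j)) := by
  refine expect_congr rfl fun i _ => expect_congr rfl fun i' _ => ?_
  rw [T3S.conj_exp, mul_expect]
  refine expect_congr rfl fun j _ => ?_
  rw [expect_mul]
  refine expect_congr rfl fun j' _ => ?_
  rw [map_mul, Complex.conj_conj, mul_assoc]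

theorem tr (A B C D : I → J → ℂ) : La A B C D = La (fun j i => A i j) (fun j i => C i j)
    (fun j i => B i j) fun j i => D i j := by
  refine (expect_congr rfl fun i _ => expect_comm _ _ _).trans ((expect_comm _ _ _).trans
    (expect_congr rfl fun j _ => ?_))
  refine (expect_congr rfl fun i _ => expect_comm _ _ _).trans ((expect_comm _ _ _).trans ?_)
  exact expect_congr rfl fun j' _ => expect_congr rfl fun i _ => expect_congr rfl fun i' _ => by
    ring

theorem am (A B C D : I → J → ℂ) :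
    2 * (La A B C D).re ≤ (La A B A B).re + (La C D C D).re := by
  simp only [split, T3S.re_exp, mul_expect _ _ (2 : ℝ), ← expect_add_distrib]
  refine expect_le_expect fun i _ => expect_le_expect fun i' _ => ?_
  generalize (𝔼 j, A i' j * conj (B i j)) = p
  generalize (𝔼 j, C i' j * conj (D i j)) = q
  simp only [Complex.mul_re, Complex.conj_re, Complex.conj_im]
  nlinarith [sq_nonneg (p.re - q.re), sq_nonneg (p.im - q.im)]

end YgL

theorem yg : YgS := by
  intro I J _ _ V W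
  have h1 := YgL.am W W W V
  have h2 := YgL.am (fun j i => W i j) (fun j i => W i j) (fun j i => V i j) fun j i => V i j
  rw [← YgL.tr W V W V, ← YgL.tr W W W W, ← YgL.tr V V V V] at h2
  change 4 * (YgL.La W W W V).re ≤ (YgL.La V V V V).re + 3 * (YgL.La W W W W).re
  linarith

end Pool.Agent.MP_154433_an.T7

end

end PkYg

section PkAlg

/-! The functions approximated by the bipolar of the atoms form an invariant algebra. -/

set_option autoImplicit false
set_option linter.unusedVariables false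

noncomputable section

namespace Pool.Agent.MP_154433_an.T7

open MeasureTheory ProbabilityTheory Filter Topology Function Finset
open scoped BigOperators ComplexConjugate
open T3S (B1 MB1)
open T4S (Gm Act)

namespace AlgL

variable {X : Type} [MeasurableSpace X] {l : ℕ} {μ : Measure X} {A : Gm l → X → X} {a b : Gm l}

lemma atom {G u : ℕ → ℕ → ℂ} (hG : B2 G) (hu : B2 u) : Atom fun n m d => G n m * u n (m + d) :=
  ⟨G, u, fun _ => 0, fun _ => 0, hG, hu, fun n m d => by simp [ee]⟩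

lemma bd (hK : KcalS) (hA : Act μ A) {N : ℕ} {C : ℝ} {u : X → ℂ} (hu : u ∈ KX A a b N C) (x : X) :
    ‖u x‖ ≤ C := by
  have h := hK.bound _ _ _ (hu.2 x) 0 N.succ_pos 0 N.succ_pos 0 N.succ_pos
  simpa [Orb, hA.zero] using h

lemma intg [IsProbabilityMeasure μ] {f u : X → ℂ} {K C : ℝ} (hf : Measurable f)
    (hK : ∀ x, ‖f x‖ ≤ K) (hu : Measurable u) (hC : ∀ x, ‖u x‖ ≤ C) :
    Integrable (fun x => ‖f x - u x‖) μ :=
  ((Integrable.of_bound hf.aestronglyMeasurable K (Eventually.of_forall hK)).sub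
    (Integrable.of_bound hu.aestronglyMeasurable C (Eventually.of_forall hC))).norm

lemma exact (hA : Act μ A) {f : X → ℂ} (hf : MB1 f) {e : Gm l}
    (h : (fun x => f (A e x)) =ᵐ[μ] f) :
    ∃ u, MB1 u ∧ f =ᵐ[μ] u ∧ ∀ (k : ℕ) v x, u (A ((k : ℤ) • e + v) x) = u (A v x) := by
  let S : Set X := {x | ∀ v, f (A (e + v) x) = f (A v x)}
  have hm : MeasurableSet S := by
    simp only [S, Set.ofPred_forall]
    exact MeasurableSet.iInter fun v =>
      measurableSet_eq_fun (hf.1.comp (hA.meas _)) (hf.1.comp (hA.meas _))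
  have h1 : ∀ w x, x ∈ S → A w x ∈ S := fun w x hx v => by
    rw [← hA.add, ← hA.add, add_assoc]
    exact hx _
  have h2 : ∀ x, S.indicator f (A e x) = S.indicator f x := fun x => by
    by_cases hx : x ∈ S
    · rw [Set.indicator_of_mem hx, Set.indicator_of_mem (h1 e x hx)]
      simpa [hA.zero] using hx 0
    · rw [Set.indicator_of_notMem hx, Set.indicator_of_notMem]
      intro h3
      have h4 := h1 (-e) _ h3
      rw [← hA.add, neg_add_cancel, hA.zero] at h4
      exact hx h4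
  refine ⟨S.indicator f, ⟨hf.1.indicator hm, fun x => (norm_indicator_le_norm_self _ _).trans
    (hf.2 x)⟩, ?_, fun k v x => ?_⟩
  · have h3 : ∀ᵐ x ∂μ, ∀ v, f (A e (A v x)) = f (A v x) :=
      ae_all_iff.2 fun v => (hA.mp v).quasiMeasurePreserving.ae h
    filter_upwards [h3] with x hx
    rw [Set.indicator_of_mem]
    intro v
    rw [hA.add]
    exact hx v
  · induction k with
    | zero => simp
    | succ k ih =>
      rw [Nat.cast_succ, add_comm (k : ℤ), add_smul, one_smul, add_assoc, hA.add, h2, ih]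

end AlgL

open AlgL

theorem alg (hKcal : KcalS) : AlgS := by
  intro l X _ μ _ A hA a b
  have b1 : B2 fun _ _ : ℕ => (1 : ℂ) := fun _ _ => by simp
  refine ⟨fun z => ?_, ?_, ?_, ?_, ?_, fun f hf h => ?_⟩
  · refine ⟨measurable_const, ⟨‖z‖, fun _ => le_rfl⟩, ‖z‖ * 1, fun N ε hε =>
      ⟨fun _ => z, ⟨measurable_const, fun x => ?_⟩, by simpa using hε.le⟩⟩
    exact hKcal.congr _ _ _ _ (fun n _ m _ d _ => by simp [Orb])
      (hKcal.smul _ _ _ z (hKcal.atom _ _ (atom b1 b1)))
  · rintro f ⟨m, ⟨K, hK⟩, C, h⟩ f' ⟨m', ⟨K', hK'⟩, C', h'⟩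
    refine ⟨m.add m', ⟨K + K', fun x => norm_add_le_of_le (hK x) (hK' x)⟩, C + C',
      fun N ε hε => ?_⟩
    obtain ⟨u, hu, e⟩ := h N _ (half_pos hε)
    obtain ⟨u', hu', e'⟩ := h' N _ (half_pos hε)
    refine ⟨fun x => u x + u' x, ⟨hu.1.add hu'.1, fun x =>
      hKcal.add _ _ _ _ _ (hu.2 x) (hu'.2 x)⟩, ?_⟩
    have i1 := intg (μ := μ) m hK hu.1 (bd hKcal hA hu)
    have i2 := intg (μ := μ) m' hK' hu'.1 (bd hKcal hA hu')
    refine (integral_mono_of_nonneg (Eventually.of_forall fun x => norm_nonneg _) (i1.add i2)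
      (Eventually.of_forall fun x => ?_)).trans ?_
    · exact (congrArg norm (add_sub_add_comm _ _ _ _)).trans_le (norm_add_le _ _)
    · rw [integral_add' i1 i2]
      linarith
  · rintro f ⟨m, ⟨K, hK⟩, C, h⟩ f' ⟨m', ⟨K', hK'⟩, C', h'⟩
    refine ⟨m.mul m', ⟨K * K', fun x => norm_mul_le_of_le (hK x) (hK' x)⟩, C * C',
      fun N ε hε => ?_⟩
    have hδ : 0 < ε / (|K| + |C'| + 1) := by positivity
    obtain ⟨u, hu, e⟩ := h N _ hδ
    obtain ⟨u', hu', e'⟩ := h' N _ hδ
    refine ⟨fun x => u x * u' x, ⟨hu.1.mul hu'.1, fun x =>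
      hKcal.mul _ _ _ _ _ (hu.2 x) (hu'.2 x)⟩, ?_⟩
    have i1 := (intg (μ := μ) m hK hu.1 (bd hKcal hA hu)).const_mul |C'|
    have i2 := (intg (μ := μ) m' hK' hu'.1 (bd hKcal hA hu')).const_mul |K|
    refine (integral_mono_of_nonneg (Eventually.of_forall fun x => norm_nonneg _) (i1.add i2)
      (Eventually.of_forall fun x => ?_)).trans ?_
    · have e1 : f x * f' x - u x * u' x = u' x * (f x - u x) + f x * (f' x - u' x) := by ring
      exact (congrArg norm e1).trans_le (norm_add_le_of_le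
        (norm_mul_le_of_le ((bd hKcal hA hu' x).trans (le_abs_self _)) le_rfl)
        (norm_mul_le_of_le ((hK x).trans (le_abs_self _)) le_rfl))
    · rw [integral_add' i1 i2, integral_const_mul, integral_const_mul]
      have h1 := mul_le_mul_of_nonneg_left e (abs_nonneg C')
      have h2 := mul_le_mul_of_nonneg_left e' (abs_nonneg K)
      have h3 : (|K| + |C'| + 1) * (ε / (|K| + |C'| + 1)) = ε := by field_simp
      nlinarith
  · rintro f ⟨m, ⟨K, hK⟩, C, h⟩
    refine ⟨Complex.continuous_conj.measurable.comp m, ⟨K, fun x => by simpa using hK x⟩, C,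
      fun N ε hε => ?_⟩
    obtain ⟨u, hu, e⟩ := h N _ hε
    refine ⟨fun x => conj (u x), ⟨Complex.continuous_conj.measurable.comp hu.1, fun x =>
      hKcal.cj _ _ _ (hu.2 x)⟩, ?_⟩
    simpa only [← map_sub, Complex.norm_conj] using e
  · rintro f ⟨m, ⟨K, hK⟩, C, h⟩ v
    refine ⟨m.comp (hA.meas v), ⟨K, fun x => hK _⟩, C, fun N ε hε => ?_⟩
    obtain ⟨u, hu, e⟩ := h N _ hε
    refine ⟨fun x => u (A v x), ⟨hu.1.comp (hA.meas v), fun x => hKcal.congr _ _ _ _
      (fun n _ m _ d _ => ?_) (hu.2 (A v x))⟩, ?_⟩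
    · simp only [Orb, hA.comm v]
    · exact (hA.integral v (m.sub hu.1).norm.aestronglyMeasurable).trans_le e
  · have key : ∃ u, MB1 u ∧ f =ᵐ[μ] u ∧ ∀ x, Atom (Orb A a b u x) := by
      rcases h with h | h
      · obtain ⟨u, hu, e, hi⟩ := exact hA hf h
        refine ⟨u, hu, e, fun x => ?_⟩
        convert atom (G := fun n m => u (A ((m : ℤ) • b) x)) (fun _ _ => hu.2 _) b1 using 4
        rw [Orb, hi, mul_one]
      · obtain ⟨u, hu, e, hi⟩ := exact hA hf h
        refine ⟨u, hu, e, fun x => ?_⟩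
        convert atom (u := fun n k => u (A (((n + k : ℕ) : ℤ) • a) x)) b1 (fun _ _ => hu.2 _)
          using 4 with n m d
        rw [Orb, ← hi m, one_mul]
        congr 2
        push_cast
        module
    obtain ⟨u, hu, e, ha⟩ := key
    refine ⟨hf.1, ⟨1, hf.2⟩, 1, fun N ε hε => ⟨u, ⟨hu.1, fun x => hKcal.atom _ _ (ha x)⟩, ?_⟩⟩
    rw [integral_eq_zero_of_ae]
    · exact hε.le
    · filter_upwards [e] with x hx
      simp [hx]

end Pool.Agent.MP_154433_an.T7

end

end PkAlg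

section PkFac

/-! The factor of one slot is invariant and contains the almost invariant sets. -/

set_option autoImplicit false
set_option linter.unusedVariables false

open MeasureTheory Filter
open scoped ComplexConjugate

noncomputable section

namespace Pool.Agent.MP_154433_an.T7

open T4S (Gm Act)

namespace FacL

variable {X : Type} [m0 : MeasurableSpace X] {μ : Measure X} {l : ℕ} {A : Gm l → X → X}
  {a b : Gm l}

lemma gen {φ : X → ℝ} (hφ : (fun x => (φ x : ℂ)) ∈ AA μ A a b) : Measurable[BB μ A a b] φ :=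
  measurable_iff_comap_le.2 (le_iSup₂ (f := fun φ (_ : φ ∈ {φ : X → ℝ |
    (fun x => (φ x : ℂ)) ∈ AA μ A a b}) => MeasurableSpace.comap φ inferInstance) φ hφ)

lemma re (h : AlgX μ A a b) {D : X → ℂ} (hD : D ∈ AA μ A a b) :
    (fun x => (((D x).re : ℝ) : ℂ)) ∈ AA μ A a b := by
  have e : (fun x => (((D x).re : ℝ) : ℂ)) = fun x => 2⁻¹ * (D x + conj (D x)) := by
    funext x
    rw [Complex.add_conj]
    push_cast
    ring
  rw [e]
  exact h.mul _ (h.const _) _ (h.add _ hD _ (h.cj _ hD))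

lemma tz (h : AlgX μ A a b) (v : Gm l) : Measurable[BB μ A a b, BB μ A a b] (A v) := by
  refine measurable_iff_comap_le.2 ?_
  conv_lhs => rw [BB]
  simp only [MeasurableSpace.comap_iSup, MeasurableSpace.comap_comp]
  exact iSup₂_le fun φ hφ => measurable_iff_comap_le.1 (gen (h.tz _ hφ v))

end FacL

theorem fac (hAlg : AlgS) : FacS := by
  intro l X m0 μ _ A hA a b
  have h := hAlg l X μ A hA a b
  refine ⟨⟨iSup₂_le fun φ hφ => measurable_iff_comap_le.1 ?_, fun v S hS => FacL.tz h v hS⟩,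
    fun D hD => ?_, fun u hu S hS hI => ?_⟩
  · simpa [Function.comp_def] using Complex.measurable_re.comp hφ.1
  · have h1 := FacL.gen (FacL.re h hD)
    have h2 : Measurable[BB μ A a b] fun x => (D x).im := by
      simpa using FacL.gen (FacL.re h (h.mul _ (h.const (-Complex.I)) _ hD))
    rw [show D = fun x => (((D x).re : ℝ) : ℂ) + (((D x).im : ℝ) : ℂ) * Complex.I from
      funext fun x => (Complex.re_add_im _).symm]
    let _ : MeasurableSpace X := BB μ A a b
    exact (Complex.measurable_ofReal.comp h1).add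
      ((Complex.measurable_ofReal.comp h2).mul_const _)
  · have hi : (fun x => ((S.indicator (fun _ => (1 : ℝ)) (A u x) : ℝ) : ℂ)) =ᵐ[μ]
        fun x => ((S.indicator (fun _ => (1 : ℝ)) x : ℝ) : ℂ) := by
      refine Eventually.mono (eventuallyEq_set.1 hI) fun x hx => ?_
      have hx' : A u x ∈ S ↔ x ∈ S := hx
      by_cases hxS : x ∈ S <;> simp [hx', hxS]
    have hφ := h.inv (fun x => ((S.indicator (fun _ => (1 : ℝ)) x : ℝ) : ℂ))
      ⟨Complex.measurable_ofReal.comp (measurable_const.indicator hS), fun x => by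
        by_cases hx : x ∈ S <;> simp [hx]⟩ (by
        rcases hu with rfl | rfl
        exacts [Or.inl hi, Or.inr hi])
    have e : S = S.indicator (fun _ => (1 : ℝ)) ⁻¹' {1} := by
      ext x
      by_cases hx : x ∈ S <;> simp [hx]
    rw [e]
    exact FacL.gen hφ (measurableSet_singleton 1)

end Pool.Agent.MP_154433_an.T7

end

end PkFac
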