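import Pool.Agent.MP_154433_an.t7.SpecE
import Pool.Agent.MP_154433_an.t3s.Zero
import Pool.Agent.MP_154433_an.t3s.Unif
import Pool.Agent.MP_154433_an.p4.S1

/-! Pairs of commuting maps: the factor of one slot (packed). -/

section PkLink

/-! The box functional of three steps as a pairing with the cube. -/

set_option autoImplicit false
set_option linter.unusedVariables false

noncomputable section

namespace Pool.Agent.MP_154433_an.T7

open MeasureTheory ProbabilityTheory Filter Topology Function Finset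
open scoped BigOperators ComplexConjugate
open T3S (B1 MB1)
open T4S (Gm Act QX ln ddX QX_ln)

namespace LinkL

variable {X : Type} [MeasurableSpace X]

lemma dE_mb (L : ℕ) {F : ℤ → X → ℂ} (hF : ∀ t, MB1 (F t)) : MB1 fun x => dE L fun t => F t x :=
  ⟨T3S.meas_exp _ fun h _ => T3S.meas_exp _ fun h' _ => (hF _).1, fun x =>
    T3S.norm_exp_le_of zero_le_one fun h _ => T3S.norm_exp_le_of zero_le_one fun h' _ =>
      (hF _).2 x⟩

lemma dE_int (μ : Measure X) [IsProbabilityMeasure μ] (L : ℕ) {g : X → ℂ} (hg : MB1 g)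
    {F : ℤ → X → ℂ} (hF : ∀ t, MB1 (F t)) :
    (∫ x, g x * dE L (fun t => F t x) ∂μ).re = 𝔼 h : Fin L, 𝔼 h' : Fin L,
      (∫ x, g x * F (((h' : ℕ) : ℤ) - ((h : ℕ) : ℤ)) x ∂μ).re := by
  simp only [dE, Finset.mul_expect]
  rw [T3S.integral_exp, T3S.re_exp]
  · refine Finset.expect_congr rfl fun h _ => ?_
    rw [T3S.integral_exp _ fun h' _ => (hg.mul (hF _)).integrable μ, T3S.re_exp]
  · intro h _
    exact MB1.integrable ⟨T3S.meas_exp _ fun h' _ => (hg.mul (hF _)).1, fun x =>
      T3S.norm_exp_le_of zero_le_one fun h' _ => (hg.mul (hF _)).2 x⟩ μ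

end LinkL

open LinkL in
theorem link : LinkS := by
  intro l X _ μ _ A hA u w L g hg
  obtain ⟨S, hS⟩ : ∃ S : ℤ → ℤ → ℤ → X → ℂ, S = fun t1 t2 t3 x =>
      conj (g (A ((0 + t1) • u + (0 : ℤ) • w) x)) * conj (g (A ((0 + t2) • u + (0 : ℤ) • w) x)) *
        g (A ((0 + t1 + t2) • u + (0 : ℤ) • w) x) *
        (conj (g (A ((0 : ℤ) • u + (0 + t3) • w) x)) * g (A ((0 + t1) • u + (0 + t3) • w) x) *
          g (A ((0 + t2) • u + (0 + t3) • w) x) *
          conj (g (A ((0 + t1 + t2) • u + (0 + t3) • w) x))) := ⟨_, rfl⟩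
  have hb : bk A u w L g = fun x => dE L fun t1 => dE L fun t2 => dE L fun t3 => S t1 t2 t3 x := by
    rw [hS]
    rfl
  have m3 : ∀ t1 t2 t3, MB1 (S t1 t2 t3) := fun t1 t2 t3 => by
    rw [hS]
    exact (((hA.tz hg _).cj.mul (hA.tz hg _).cj).mul (hA.tz hg _)).mul
      ((((hA.tz hg _).cj.mul (hA.tz hg _)).mul (hA.tz hg _)).mul (hA.tz hg _).cj)
  have m2 : ∀ t1 t2, MB1 fun x => dE L fun t3 => S t1 t2 t3 x := fun t1 t2 => dE_mb L (m3 t1 t2)
  have m1 : ∀ t1, MB1 fun x => dE L fun t2 => dE L fun t3 => S t1 t2 t3 x :=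
    fun t1 => dE_mb L (m2 t1)
  have key : ∀ t1 t2 t3 : ℤ, QX μ A [] (ddX A (t3 • w) (ddX A (t2 • u) (ddX A (t1 • u) g))) =
      (∫ x, g x * S t1 t2 t3 x ∂μ).re := fun t1 t2 t3 => by
    rw [QX, ← Complex.conj_re, ← integral_conj]
    refine congrArg _ (integral_congr_ae (Eventually.of_forall fun x => ?_))
    simp only [hS, ddX, zero_add, zero_smul, add_zero, add_smul, hA.add, map_mul,
      Complex.conj_conj]
    ring
  rw [hb]
  refine ⟨dE_mb L m1, ?_⟩
  rw [dE_int μ L hg m1, QX_ln]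
  refine Finset.expect_congr rfl fun a _ => Finset.expect_congr rfl fun a' _ => ?_
  rw [dE_int μ L hg (m2 _), QX_ln]
  refine Finset.expect_congr rfl fun b _ => Finset.expect_congr rfl fun b' _ => ?_
  rw [dE_int μ L hg (m3 _ _), QX_ln]
  exact Finset.expect_congr rfl fun c _ => Finset.expect_congr rfl fun c' _ => key _ _ _

end Pool.Agent.MP_154433_an.T7

end

end PkLink

section PkBlk

/-! Row Blk: the cubes along an orbit lie in the bipolar of the atoms. -/

set_option autoImplicit false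

noncomputable section

namespace Pool.Agent.MP_154433_an.T7

open MeasureTheory Filter
open T4S (Gm Act)

namespace BlkL

theorem shift (L : ℕ) (φ : ℤ → ℤ → ℂ) (y k : ℤ) :
    cube L (fun y' k' => φ (y + y') (k + k')) 0 0 = cube L φ y k := by
  simp only [cube, zero_add, add_zero, add_assoc]

theorem orb {X : Type} [MeasurableSpace X] {μ : Measure X} {l : ℕ} {A : Gm l → X → X}
    (hA : Act μ A) (u w : Gm l) (L : ℕ) (g : X → ℂ) (x : X) (y k : ℤ) :
    bk A u w L g (A (y • u + k • w) x) = cube L (fun y k => g (A (y • u + k • w) x)) y k := by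
  rw [← shift L _ y k, bk]
  congr 1
  funext y' k'
  rw [← hA.add]
  congr 2
  module

end BlkL

open BlkL in
theorem blk (hCub : CubS) (hLink : LinkS) : BlkS := by
  intro l X _ μ _ A hA a b g hg N
  filter_upwards [hCub (N + 1)] with L hL
  refine ⟨⟨(hLink l X μ A hA _ _ L g hg).1.1, fun x => ?_⟩,
    ⟨(hLink l X μ A hA _ _ L g hg).1.1, fun x => ?_⟩⟩
  · have h := (hL (fun y k => g (A (y • a + k • (a - b)) x)) fun _ _ => hg.2 _).1
    simp only [← orb hA] at h
    refine (congrArg (InK (N + 1) 5) (funext fun n => funext fun m => funext fun d => ?_)).mp h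
    rw [Orb]
    congr 2
    push_cast
    module
  · have h := (hL (fun y k => g (A (y • (a - b) + k • a) x)) fun _ _ => hg.2 _).2
    simp only [← orb hA] at h
    refine (congrArg (InK (N + 1) 5) (funext fun n => funext fun m => funext fun d => ?_)).mp h
    rw [Orb]
    congr 2
    push_cast
    module

end Pool.Agent.MP_154433_an.T7

end

end PkBlk

section PkZero

/-! A function orthogonal to the algebra is nearly orthogonal to some member of the sequence. -/

set_option autoImplicit false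
set_option linter.unusedVariables false

open MeasureTheory ProbabilityTheory Filter Topology Function
open scoped BigOperators ComplexConjugate InnerProductSpace

noncomputable section

namespace Pool.Agent.MP_154433_an.T7

open T3S (B1 MB1)

open T3S.Zero in
theorem zero (hKcal : KcalS) (hT3SNest : T3S.NestS) : ZeroS := by
  intro l X _ μ _ A hA a b g C β hg hβ hK h0 ε hε
  by_contra hn
  push Not at hn
  obtain ⟨F, hF⟩ := hT3SNest (Lp ℂ 2 μ)
    (fun N => {F | ∃ u ∈ KX A a b N C, MB1 u ∧ ε ≤ (∫ x, g x * u x ∂μ).re ∧ F =ᵐ[μ] u}) 1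
    (fun N N' hN F ⟨u, hu, h⟩ =>
      ⟨u, ⟨hu.1, fun x => hKcal.mono _ _ _ _ _ (Nat.succ_le_succ hN) le_rfl (hu.2 x)⟩, h⟩)
    (fun N => by
      obtain ⟨L, h1, h2⟩ := ((hK N).and (eventually_ge_atTop 1)).exists
      exact ⟨(MemLp.of_bound (hβ L).1.aestronglyMeasurable 1 (Eventually.of_forall (hβ L).2)).toLp _,
        _, h1, hβ L, (hn L h2).le, MemLp.coeFn_toLp _⟩)
    (fun N F ⟨u, hu, mu, e1, e2⟩ F' ⟨u', hu', mu', e1', e2'⟩ s c ha hc hac => by
      have m : MB1 (s • u + c • u') := MB1.convex mu mu' ha hc hac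
      refine ⟨s • u + c • u', ⟨m.1, fun x => ?_⟩, m, ?_, ?_⟩
      · have h := hKcal.add _ _ _ _ _ (hKcal.smul _ _ _ (s : ℂ) (hu.2 x))
          (hKcal.smul _ _ _ (c : ℂ) (hu'.2 x))
        rw [Complex.norm_of_nonneg ha, Complex.norm_of_nonneg hc, ← add_mul, hac, one_mul] at h
        exact hKcal.congr _ _ _ _ (fun _ _ _ _ _ _ => by simp [Orb]) h
      · have e : ∀ x, g x * (s • u + c • u') x = s * (g x * u x) + c * (g x * u' x) := fun x => by
          simp only [Pi.add_apply, Pi.smul_apply, Complex.real_smul]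
          ring
        simp only [e]
        rw [integral_add (((hg.mul mu).integrable μ).const_mul _)
          (((hg.mul mu').integrable μ).const_mul _), integral_const_mul,
          integral_const_mul, Complex.add_re, Complex.re_ofReal_mul, Complex.re_ofReal_mul]
        have := mul_le_mul_of_nonneg_left e1 ha
        have := mul_le_mul_of_nonneg_left e1' hc
        calc ε = s * ε + c * ε := by rw [← add_mul, hac, one_mul]
          _ ≤ _ := by linarith
      · filter_upwards [Lp.coeFn_add (s • F) (c • F'), Lp.coeFn_smul s F, Lp.coeFn_smul c F', e2,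
          e2'] with x p1 p2 p3 p4 p5
        simp only [p1, Pi.add_apply, p2, p3, Pi.smul_apply, p4, p5])
    (fun N F ⟨u, hu, mu, _, e⟩ => by
      have := Lp.norm_le_of_ae_bound (f := F) zero_le_one (by
        filter_upwards [e] with x h
        rw [h]
        exact mu.2 x)
      simpa [measureUnivNNReal] using this)
  have key : ∀ N δ, 0 < δ → ∃ u ∈ KX A a b N C, MB1 u ∧ ε ≤ (∫ x, g x * u x ∂μ).re ∧
      ∫ x, ‖clip (F x) - u x‖ ∂μ ≤ δ := fun N δ hδ => by
    obtain ⟨F', ⟨u, hu, mu, e1, e2⟩, hd⟩ :=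
      Metric.mem_closure_iff.1 (hF N) (δ / 2) (half_pos hδ)
    exact ⟨u, hu, mu, e1, (close F F' mu e2).trans (by linarith)⟩
  have m : MB1 fun x => clip (F x) :=
    ⟨clip_meas.comp (Lp.stronglyMeasurable F).measurable, fun x => norm_clip _⟩
  have z := h0 _ ⟨m.1, ⟨1, m.2⟩, C, fun N δ hδ => (key N δ hδ).imp fun u h => ⟨h.1, h.2.2.2⟩⟩ m
  obtain ⟨u, -, mu, e1, e2⟩ := key 0 (ε / 2) (half_pos hε)
  have e3 : ‖∫ x, g x * clip (F x) - g x * u x ∂μ‖ ≤ ∫ x, ‖clip (F x) - u x‖ ∂μ :=
    norm_integral_le_of_norm_le ((m.integrable μ).sub (mu.integrable μ)).norm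
      (Eventually.of_forall fun x => by
        rw [← mul_sub, norm_mul]
        exact mul_le_of_le_one_left (norm_nonneg _) (hg.2 x))
  rw [integral_sub ((hg.mul m).integrable μ) ((hg.mul mu).integrable μ), z, zero_sub,
    norm_neg] at e3
  linarith [Complex.re_le_norm (∫ x, g x * u x ∂μ)]

end Pool.Agent.MP_154433_an.T7

end

end PkZero

section PkGcs

/-! Row Gcs: the box functional in two directions decreases under conditional expectation. -/

set_option autoImplicit false
set_option linter.unusedVariables false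
set_option warn.classDefReducibility false

noncomputable section

namespace Pool.Agent.MP_154433_an.T7

open MeasureTheory ProbabilityTheory Filter Topology Function Finset
open scoped BigOperators ComplexConjugate
open T3S (B1 MB1 meas_exp norm_exp_le_of integral_exp re_exp)
open T4S (Gm Act QX ln ddX)

namespace GcsL

variable {X : Type} {C : MeasurableSpace X} [m0 : MeasurableSpace X] {μ : Measure X}
  [IsProbabilityMeasure μ] {l : ℕ} {A : Gm l → X → X} {I J : Type} [Fintype I] [Fintype J]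

omit m0 in
def tm (A : Gm l → X → X) (a : I → Gm l) (b : J → Gm l) (g k : X → ℂ) (i i' : I) (j j' : J)
    (x : X) : ℂ := g (A (a i' + b j') x) * conj (g (A (a i + b j') x)) *
  conj (g (A (a i' + b j) x)) * k (A (a i + b j) x)

omit m0 in
def bx (A : Gm l → X → X) (a : I → Gm l) (b : J → Gm l) (g k : X → ℂ) (x : X) : ℂ :=
  𝔼 i, 𝔼 i', 𝔼 j, 𝔼 j', tm A a b g k i i' j j' x

lemma mb_exp {ι : Type} [Fintype ι] {f : ι → X → ℂ} (h : ∀ i, MB1 (f i)) :
    MB1 fun x => 𝔼 i, f i x :=
  ⟨meas_exp _ fun i _ => (h i).1, fun x => norm_exp_le_of zero_le_one fun i _ => (h i).2 x⟩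

omit [Fintype I] [Fintype J] [IsProbabilityMeasure μ] in
lemma tm_mb (hA : Act μ A) (a : I → Gm l) (b : J → Gm l) {g k : X → ℂ} (hg : MB1 g) (hk : MB1 k)
    (i i' : I) (j j' : J) : MB1 (tm A a b g k i i' j j') :=
  (((hA.tz hg _).mul (hA.tz hg _).cj).mul (hA.tz hg _).cj).mul (hA.tz hk _)

lemma bx_int (hA : Act μ A) (a : I → Gm l) (b : J → Gm l) {g k : X → ℂ} (hg : MB1 g)
    (hk : MB1 k) : Integrable (fun x => (bx A a b g k x).re) μ ∧ ∫ x, (bx A a b g k x).re ∂μ =
      𝔼 i, 𝔼 i', 𝔼 j, 𝔼 j', (∫ x, tm A a b g k i i' j j' x ∂μ).re := by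
  have h0 := tm_mb hA a b hg hk
  have h1 := fun i i' j => mb_exp (h0 i i' j)
  have h2 := fun i i' => mb_exp (h1 i i')
  have h3 := fun i => mb_exp (h2 i)
  have h4 : Integrable (bx A a b g k) μ := (mb_exp h3).integrable μ
  refine ⟨h4.re, (integral_re h4).trans ?_⟩
  unfold bx
  rw [integral_exp _ fun i _ => (h3 i).integrable μ]
  simp only [integral_exp _ fun i' _ => (h2 _ i').integrable μ,
    integral_exp _ fun j _ => (h1 _ _ j).integrable μ,
    integral_exp _ fun j' _ => (h0 _ _ _ j').integrable μ, RCLike.re_to_complex, re_exp]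

omit [Fintype I] [Fintype J] [IsProbabilityMeasure μ] in
lemma tm_dd (hA : Act μ A) (a : I → Gm l) (b : J → Gm l) {g : X → ℂ} (hg : MB1 g)
    (i i' : I) (j j' : J) : ∫ x, ddX A (b j' - b j) (ddX A (a i' - a i) g) x ∂μ =
      ∫ x, tm A a b g g i i' j j' x ∂μ := by
  rw [← hA.integral (a i + b j) (hA.dd (hA.dd hg _) _).1.aestronglyMeasurable]
  refine integral_congr_ae (Eventually.of_forall fun x => ?_)
  simp only [ddX, tm, ← hA.add, map_mul, RCLike.conj_conj]
  rw [show a i' - a i + (b j' - b j + (a i + b j)) = a i' + b j' by abel,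
    show b j' - b j + (a i + b j) = a i + b j' by abel,
    show a i' - a i + (a i + b j) = a i' + b j by abel]
  ring

omit [Fintype I] [Fintype J] in
lemma tm_ce (hA : Act μ A) (hC : Sub C m0 A) (a : I → Gm l) (b : J → Gm l) {h c : X → ℂ}
    (hh : MB1 h) (hc : MB1 c) (e : c =ᵐ[μ] μ[h | C]) (i i' : I) (j j' : J) :
    ∫ x, tm A a b c c i i' j j' x ∂μ = ∫ x, tm A a b c h i i' j j' x ∂μ := by
  have bm : ∀ v, Fib27.BM μ C fun x => c (A v x) := fun v =>
    ⟨⟨fun x => (μ[h | C]) (A v x), stronglyMeasurable_condExp.comp_measurable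
      (fun S hS => hC.2 v S hS), (hA.mp v).quasiMeasurePreserving.ae_eq_comp e⟩, 1,
      Eventually.of_forall fun x => hc.2 _⟩
  have sh : ∀ k : X → ℂ, MB1 k → ∫ x, tm A a b c k i i' j j' x ∂μ =
      ∫ x, c (A (a i' + b j' - (a i + b j)) x) * conj (c (A (a i + b j' - (a i + b j)) x)) *
        conj (c (A (a i' + b j - (a i + b j)) x)) * k x ∂μ := fun k hk => by
    rw [← hA.integral (a i + b j) ((((hA.tz hc _).mul (hA.tz hc _).cj).mul
      (hA.tz hc _).cj).mul hk).1.aestronglyMeasurable]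
    simp only [tm, ← hA.add, sub_add_cancel]
  rw [sh c hc, sh h hh, ← Fib27.int_mul_ce hC.1 (((bm _).mul (bm _).conj).mul (bm _).conj)
    ⟨hh.1.aestronglyMeasurable, 1, Eventually.of_forall hh.2⟩]
  refine integral_congr_ae ?_
  filter_upwards [e] with x hx
  rw [hx]

end GcsL

open GcsL in
theorem gcs (hYg : YgS) : GcsS := by
  intro l X C m0 μ _ A hA hC u w L L' h c hh hc e
  have q : ∀ g : X → ℂ, MB1 g → QX μ A [ln u L, ln w L'] g =
      ∫ x, (bx A (ln u L).a (ln w L').a g g x).re ∂μ := fun g hg => by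
    rw [(bx_int hA _ _ hg hg).2]
    simp only [QX, tm_dd hA _ _ hg]
  have q2 : ∫ x, (bx A (ln u L).a (ln w L').a c c x).re ∂μ =
      ∫ x, (bx A (ln u L).a (ln w L').a c h x).re ∂μ := by
    rw [(bx_int hA _ _ hc hc).2, (bx_int hA _ _ hc hh).2]
    simp only [tm_ce hA hC _ _ hh hc e]
  have i1 := (bx_int hA (ln u L).a (ln w L').a hc hh).1
  have i2 := (bx_int hA (ln u L).a (ln w L').a hh hh).1
  have i3 := (bx_int hA (ln u L).a (ln w L').a hc hc).1
  have y := integral_mono (i1.const_mul 4) (i2.add (i3.const_mul 3)) fun x =>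
    hYg _ _ (fun i j => h (A ((ln u L).a i + (ln w L').a j) x))
      fun i j => c (A ((ln u L).a i + (ln w L').a j) x)
  simp only [Pi.add_apply] at y
  rw [integral_add i2 (i3.const_mul 3), integral_const_mul, integral_const_mul] at y
  rw [q c hc, q h hh]
  linarith

end Pool.Agent.MP_154433_an.T7

end

end PkGcs

section PkUnif

set_option autoImplicit false
set_option linter.unusedVariables false

open MeasureTheory Filter Topology Function
open scoped BigOperators ComplexConjugate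

noncomputable section

namespace Pool.Agent.MP_154433_an.T7

open T3S (B1 MB1 PW AsInv)
open T4S (Gm Act wavg QX ln ddX QX_ln)
open T3S.UnifAux (int_zero le_pow_div sum_eq)

namespace UnifL

lemma step (h5 : GcsS) (h4 : T4S.GvnS) {w : ℕ → ℕ → ℝ} (hw : PW w) (hinv : AsInv w) {l : ℕ}
    {X : Type} (C : MeasurableSpace X) [m0 : MeasurableSpace X] {μ : Measure X}
    [IsProbabilityMeasure μ] {A : Gm l → X → X} (hA : Act μ A) (hC : Sub C m0 A)
    (r : Fin 2 → Gm l) (i : Fin 2) (u : Gm l) {g : X → ℂ} (hg : MB1 g) {L : ℕ} (hL : 1 ≤ L)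
    (a a' : ℕ) (c : Fin 2 → X → ℂ) (hc : ∀ i, MB1 (c i))
    (he : c i =ᵐ[μ] μ[fun y => g (A ((a : ℤ) • u) y) * conj (g (A ((a' : ℤ) • u) y)) | C])
    {s η : ℝ} (hs : 0 < s) (hη : 0 < η) :
    ∀ᶠ M in atTop, ∫ x, ‖wavg A w r c M x‖ ^ 2 ∂μ ≤ s + QX μ A [ln (r i) L, ln (r i - r i.rev) L]
      (ddX A (((a : ℤ) - (a' : ℤ)) • u) g) / s ^ 1 + η := by
  have hFe : (fun y => g (A ((a : ℤ) • u) y) * conj (g (A ((a' : ℤ) • u) y))) =
      fun y => ddX A (((a : ℤ) - (a' : ℤ)) • u) g (A ((a' : ℤ) • u) y) := by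
    funext y
    simp only [ddX, ← hA.add, ← add_smul, sub_add_cancel]
  have h1 := h5 l X C μ A hA hC (r i) (r i - r i.rev) L L _ _
    ((hA.tz hg _).mul (hA.tz hg _).cj) (hc i) he
  rw [hFe, hA.QX_tz _ _ (hA.dd hg _)] at h1
  have e : ∀ M, wavg A w ![r i, r i.rev] ![c i, c i.rev] M = wavg A w r c M := by
    intro M
    funext x
    refine Finset.sum_congr rfl fun d _ => ?_
    rw [Fin.prod_univ_two, Fin.prod_univ_two]
    fin_cases i
    · rfl
    · exact congrArg _ (mul_comm _ _)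
  filter_upwards [h4 w hw hinv l X μ A hA 1 (fun _ => L) (fun _ => hL) ![r i, r i.rev]
    ![c i, c i.rev] (Fin.forall_fin_two.2 ⟨hc _, hc _⟩) (η * s ^ 1) (by positivity)] with M hM
  rw [e] at hM
  have h6 := le_pow_div (t := ∫ x, ‖wavg A w r c M x‖ ^ 2 ∂μ)
    (integral_nonneg fun x => sq_nonneg _) hs 1
  have h7 : (∫ x, ‖wavg A w r c M x‖ ^ 2 ∂μ) ^ (1 + 1) / s ^ 1 ≤ QX μ A
      [ln (r i) L, ln (r i - r i.rev) L] (ddX A (((a : ℤ) - (a' : ℤ)) • u) g) / s ^ 1 + η := by
    rw [div_le_iff₀ (by positivity), add_mul, div_mul_cancel₀ _ (by positivity)]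
    exact hM.trans (add_le_add h1 le_rfl)
  linarith

end UnifL

theorem unif (hFac : FacS) (hZero : ZeroS) (hLink : LinkS) (hBlk : BlkS) (hGcs : GcsS)
    (hT4SGvn : T4S.GvnS) (hT4SPerm : T4S.PermS) : UnifS := by
  intro w hw hinv l X m0 μ _ A hA r i u hu g hg h0 ε hε
  obtain ⟨hF, hD, -⟩ := hFac l X μ A hA (r i) (r i.rev)
  have hs : 0 < ε / 2 := by positivity
  have hz := fun β h1 h2 => hZero l X μ A hA (r i) (r i.rev) g 5 β hg h1 h2
    (fun D hD' hm => int_zero hF.1 hg hm (hD D hD') h0) (ε / 2 * (ε / 2) ^ 1) (by positivity)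
  have hb := hBlk l X μ A hA (r i) (r i.rev) g hg
  obtain ⟨L, hL, hQ⟩ : ∃ L, 1 ≤ L ∧
      QX μ A [ln u L, ln (r i) L, ln (r i - r i.rev) L] g ≤ ε / 2 * (ε / 2) ^ 1 := by
    rcases hu with rfl | rfl
    · obtain ⟨L, hL, h⟩ := hz _ (fun L => (hLink l X μ A hA _ _ L g hg).1)
        fun N => (hb N).mono fun L h => h.1
      exact ⟨L, hL, (hLink l X μ A hA _ _ L g hg).2.trans_le h⟩
    · obtain ⟨L, hL, h⟩ := hz _ (fun L => (hLink l X μ A hA _ _ L g hg).1)
        fun N => (hb N).mono fun L h => h.2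
      exact ⟨L, hL, ((hT4SPerm l X μ A hA _ _ ((List.Perm.swap _ _ _).cons _) g).trans
        (hLink l X μ A hA _ _ L g hg).2).trans_le h⟩
  let p : ℕ → ℕ → ℝ := fun a a' => QX μ A [ln (r i) L, ln (r i - r i.rev) L]
    (ddX A (((a : ℤ) - (a' : ℤ)) • u) g)
  refine ⟨L, fun a a' => ε / 2 + p a a' / (ε / 2) ^ 1, hL, ?_, fun C hC a a' c hc he η hη =>
    UnifL.step (m0 := m0) hGcs hT4SGvn hw hinv C hA hC r i u hg hL a a' c hc he hs hη⟩
  simp only [Finset.sum_add_distrib, Finset.sum_const, Finset.card_range, nsmul_eq_mul,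
    ← Finset.sum_div]
  rw [QX_ln] at hQ
  rw [sum_eq L hL p, add_comm, ← le_sub_iff_add_le, div_le_iff₀ (by positivity)]
  have := mul_le_mul_of_nonneg_right hQ (sq_nonneg (L : ℝ))
  exact this.trans (le_of_eq (by ring))

end Pool.Agent.MP_154433_an.T7

end

end PkUnif

section PkProd

/-! The weighted average vanishes when one slot lies in the algebra of that slot. -/

set_option autoImplicit false
set_option linter.unusedVariables false
set_option linter.unusedSectionVars false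

open MeasureTheory Filter Topology Finset
open scoped BigOperators ComplexConjugate

noncomputable section

namespace Pool.Agent.MP_154433_an.T7

open T3S (B1 MB1 Bd integral_exp meas_exp norm_exp_le_of)
open T4S (Gm Act wavg Van)

namespace ProdL

lemma cut {L N : ℕ} (h : L ≤ N) (g : ℕ → ℂ) :
    ∑ n ∈ range N, (if n < L then g n else 0) = ∑ n ∈ range L, g n := by
  rw [← sum_filter]
  refine sum_congr ?_ fun _ _ => rfl
  ext n
  simp only [mem_filter, mem_range]
  omega

lemma fun_bound {w : ℕ → ℝ} {M N : ℕ} {L : ℕ → ℕ} (hM : M ≤ N) (hL : ∀ d < M, L d ≤ N)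
    {C δ : ℝ} {F : ℕ → ℕ → ℕ → ℂ} (hF : InK N C F)
    (h : ∀ α, Atom α → ‖∑ d ∈ range M, (w d : ℂ) * win (L d) α d‖ ≤ δ) :
    ‖∑ d ∈ range M, (w d : ℂ) * win (L d) F d‖ ≤ C * δ := by
  have e : ∀ α : ℕ → ℕ → ℕ → ℂ, pai N (fun n m d => if d < M then if n < L d then
      if m < L d then (w d : ℂ) / L d / L d else 0 else 0 else 0) α =
      ∑ d ∈ range M, (w d : ℂ) * win (L d) α d := fun α => by
    simp only [pai, ite_mul, zero_mul]
    rw [sum_congr rfl fun n _ => sum_congr rfl fun m _ => cut hM _,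
      sum_congr rfl fun n _ => sum_comm, sum_comm]
    refine sum_congr rfl fun d hd => ?_
    have hd' := hL d (mem_range.1 hd)
    have e1 : ∀ n, ∑ m ∈ range N, (if n < L d then if m < L d then
        (w d : ℂ) / L d / L d * α n m d else 0 else 0) = if n < L d then
        ∑ m ∈ range (L d), (w d : ℂ) / L d / L d * α n m d else 0 := fun n => by
      split_ifs
      · exact cut hd' _
      · exact sum_const_zero
    simp only [e1, cut hd', win, expect_eq_sum_div_card, card_range, sum_div, mul_sum]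
    exact sum_congr rfl fun n _ => sum_congr rfl fun m _ => by ring
  rw [← e]
  exact hF _ _ fun α hα => by rw [e]; exact h α hα

variable {l : ℕ} {X : Type} [MeasurableSpace X] {μ : Measure X} [IsProbabilityMeasure μ]
  {A : Gm l → X → X}

/-- the triple product -/
def tp (A : Gm l → X → X) (a b : Gm l) (p g q : X → ℂ) (d : ℕ) (x : X) : ℂ :=
  p x * (g (A ((d : ℤ) • a) x) * q (A ((d : ℤ) • b) x))

lemma tp_meas (hA : Act μ A) (a b : Gm l) {p g q : X → ℂ} (hp : MB1 p) (hg : Measurable g)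
    (hq : MB1 q) (d : ℕ) : Measurable (tp A a b p g q d) :=
  hp.1.mul ((hg.comp (hA.meas _)).mul (hq.1.comp (hA.meas _)))

lemma tp_le (a b : Gm l) {p q : X → ℂ} (g : X → ℂ) (hp : MB1 p) (hq : MB1 q) (d : ℕ) (x : X) :
    ‖tp A a b p g q d x‖ ≤ ‖g (A ((d : ℤ) • a) x)‖ := by
  rw [tp, norm_mul, norm_mul]
  exact (mul_le_of_le_one_left (by positivity) (hp.2 x)).trans
    (mul_le_of_le_one_right (norm_nonneg _) (hq.2 _))

lemma tp_int (hA : Act μ A) (a b : Gm l) {p g q : X → ℂ} (hp : MB1 p) (hg : Measurable g)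
    (hq : MB1 q) {K : ℝ} (hK : ∀ x, ‖g x‖ ≤ K) (d : ℕ) (v : Gm l) :
    Integrable (fun x => tp A a b p g q d (A v x)) μ :=
  Integrable.of_bound ((tp_meas hA a b hp hg hq d).comp (hA.meas v)).aestronglyMeasurable K
    (Eventually.of_forall fun x => (tp_le a b g hp hq d _).trans (hK _))

lemma KX_le (hK : KcalS) (hA : Act μ A) {a b : Gm l} {N : ℕ} {C : ℝ} {u : X → ℂ}
    (hu : u ∈ KX A a b N C) (x : X) : ‖u x‖ ≤ C := by
  simpa [Orb, hA.zero] using hK.bound _ _ _ (hu.2 x) 0 N.succ_pos 0 N.succ_pos 0 N.succ_pos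

lemma key (hK : KcalS) (hA : Act μ A) (a b : Gm l) {p u q : X → ℂ} (hp : MB1 p) (hq : MB1 q)
    {w : ℕ → ℝ} {M N : ℕ} {L : ℕ → ℕ} (hM : M ≤ N + 1) (hL : ∀ d < M, L d ≤ N + 1)
    (h1 : ∀ d, 1 ≤ L d) {C δ : ℝ} (hu : u ∈ KX A a b N C)
    (h : ∀ α, Atom α → ‖∑ d ∈ range M, (w d : ℂ) * win (L d) α d‖ ≤ δ) :
    ‖∑ d ∈ range M, (w d : ℂ) * ∫ x, tp A a b p u q d x ∂μ‖ ≤ C * δ := by
  have hi := tp_int hA a b hp hu.1 hq (KX_le hK hA hu)
  let F : X → ℕ → ℕ → ℕ → ℂ := fun x n m d => tp A a b p u q d (A ((n : ℤ) • a + (m : ℤ) • b) x)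
  have hi2 : ∀ d n, Integrable (fun x => 𝔼 m ∈ range (L d), F x n m d) μ := fun d n => by
    simp only [expect_eq_sum_div_card]
    exact (integrable_finsetSum _ fun m _ => hi d _).div_const _
  have hi3 : ∀ d, Integrable (fun x => win (L d) (F x) d) μ := fun d => by
    simp only [win, expect_eq_sum_div_card (s := range (L d)) (f := fun n => 𝔼 m ∈ _, _)]
    exact (integrable_finsetSum _ fun n _ => hi2 d n).div_const _
  have e : ∀ d, ∫ x, tp A a b p u q d x ∂μ = ∫ x, win (L d) (F x) d ∂μ := fun d => by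
    have hne : (range (L d)).Nonempty := nonempty_range_iff.2 (Nat.one_le_iff_ne_zero.1 (h1 d))
    simp only [win]
    rw [integral_exp _ fun n _ => hi2 d n, expect_congr rfl fun n _ =>
      integral_exp _ fun m _ => hi d _]
    simp only [hA.integral _ (tp_meas hA a b hp hu.1 hq d).aestronglyMeasurable,
      expect_const hne]
  simp only [e, ← integral_const_mul]
  rw [← integral_finsetSum _ fun d _ => (hi3 d).const_mul _]
  refine (norm_integral_le_of_norm_le_const (C := C * δ)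
    (Eventually.of_forall fun x => fun_bound hM hL ?_ h)).trans (by simp)
  have ha : Atom fun n m d => p (A ((n : ℤ) • a + (m : ℤ) • b) x) *
      q (A ((n : ℤ) • a + ((m + d : ℕ) : ℤ) • b) x) :=
    ⟨fun n m => p (A ((n : ℤ) • a + (m : ℤ) • b) x), fun n z => q (A ((n : ℤ) • a + (z : ℤ) • b) x),
      0, 0, fun _ _ => hp.2 _, fun _ _ => hq.2 _, fun n m d => by simp [ee]⟩
  have h2 := hK.mul _ _ _ _ _ (hK.atom (N + 1) _ ha) (hu.2 x)
  rw [one_mul] at h2
  refine hK.congr _ _ _ _ (fun n _ m _ d _ => ?_) h2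
  have e1 : (d : ℤ) • a + ((n : ℤ) • a + (m : ℤ) • b) = ((n + d : ℕ) : ℤ) • a + (m : ℤ) • b := by
    push_cast
    module
  have e2 : (d : ℤ) • b + ((n : ℤ) • a + (m : ℤ) • b) = (n : ℤ) • a + ((m + d : ℕ) : ℤ) • b := by
    push_cast
    module
  simp only [F, tp, Orb, ← hA.add, e1, e2]
  ring

end ProdL

open ProdL in
theorem prod (hKcal : KcalS) : ProdS := by
  intro w hR hB l X _ μ _ A hA r i f ⟨hm, ⟨K0, hK0⟩, C, hC⟩ hq
  obtain ⟨K, hK1, hK⟩ : ∃ K : ℝ, 0 < K ∧ ∀ x, ‖f i x‖ ≤ K :=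
    ⟨|K0| + 1, by positivity, fun x => by linarith [hK0 x, le_abs_self K0]⟩
  have hf : ∀ j, Measurable (f j) := fun j => by
    rcases (by fin_cases i <;> fin_cases j <;> simp : j = i ∨ j = i.rev) with rfl | rfl
    exacts [hm, hq.1]
  have ep : ∀ g : Fin 2 → ℂ, ∏ j, g j = g i * g i.rev := fun g => by
    fin_cases i <;> simp [Fin.prod_univ_two, mul_comm]
  refine (tendsto_order.2 ⟨fun c hc => Eventually.of_forall fun M =>
    hc.trans_le (integral_nonneg fun x => sq_nonneg _), fun c hc => ?_⟩)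
  obtain ⟨δ, hδ, hc'⟩ : ∃ δ : ℝ, 0 < δ ∧ 3 * K * ((|C| + 3) * δ) < c :=
    ⟨c / 2 / (3 * K * (|C| + 3)), by positivity, by
      rw [← mul_assoc, mul_div_cancel₀ _ (by positivity)]; linarith⟩
  filter_upwards [hR δ hδ, hB] with M ⟨L, h1, hL⟩ hM
  obtain ⟨u, hu, hε⟩ := hC (M + (range M).sup L) δ hδ
  set S := wavg A w r f M with hS
  have hS3 : ∀ x, ‖S x‖ ≤ 3 * K := fun x => by
    refine (norm_sum_le _ _).trans ((sum_le_sum fun d _ => ?_).trans
      ((sum_mul _ _ K).symm.le.trans (mul_le_mul_of_nonneg_right hM hK1.le)))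
    rw [norm_mul, Complex.norm_real, Real.norm_eq_abs, ep, norm_mul]
    exact mul_le_mul_of_nonneg_left ((mul_le_of_le_one_right (norm_nonneg _) (hq.2 _)).trans
      (hK _)) (abs_nonneg _)
  let p : X → ℂ := fun x => conj (S x) / ((3 * K : ℝ) : ℂ)
  have hp : MB1 p := ⟨(Complex.continuous_conj.measurable.comp (hA.wavg_meas w r hf M)).div_const _,
    fun x => by
      rw [norm_div, RCLike.norm_conj, Complex.norm_real, Real.norm_of_nonneg (by positivity)]
      exact (div_le_one (by positivity)).2 (hS3 x)⟩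
  have hi : ∀ d, Integrable (tp A (r i) (r i.rev) p (f i) (f i.rev) d) μ := fun d => by
    simpa [hA.zero] using tp_int hA (r i) (r i.rev) hp hm hq hK d 0
  have hi' : ∀ d, Integrable (tp A (r i) (r i.rev) p u (f i.rev) d) μ := fun d => by
    simpa [hA.zero] using tp_int hA (r i) (r i.rev) hp hu.1 hq (KX_le hKcal hA hu) d 0
  have e : ∑ d ∈ range M, (w M d : ℂ) * ∫ x, tp A (r i) (r i.rev) p (f i) (f i.rev) d x ∂μ =
      (((∫ x, ‖S x‖ ^ 2 ∂μ) / (3 * K) : ℝ) : ℂ) := by
    simp only [← integral_const_mul]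
    rw [← integral_finsetSum _ fun d _ => (hi d).const_mul _, ← integral_div,
      ← integral_complex_ofReal]
    refine integral_congr_ae (Eventually.of_forall fun x => ?_)
    have e1 : ∑ d ∈ range M, (w M d : ℂ) * tp A (r i) (r i.rev) p (f i) (f i.rev) d x =
        p x * S x := by
      simp only [hS, wavg, ep, tp, mul_sum]
      exact sum_congr rfl fun d _ => by ring
    simp only [e1, p]
    rw [div_mul_eq_mul_div, Complex.conj_mul']
    push_cast
    rfl
  have hd : ∀ d, ‖∫ x, tp A (r i) (r i.rev) p (f i) (f i.rev) d x ∂μ -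
      ∫ x, tp A (r i) (r i.rev) p u (f i.rev) d x ∂μ‖ ≤ δ := fun d => by
    have hm' : Measurable fun x => ‖f i x - u x‖ := (hm.sub hu.1).norm
    rw [← integral_sub (hi d) (hi' d)]
    refine (norm_integral_le_of_norm_le (g := fun x => ‖f i (A ((d : ℤ) • r i) x) -
      u (A ((d : ℤ) • r i) x)‖) (Integrable.of_bound (hm'.comp (hA.meas _)).aestronglyMeasurable
      (K + C) (Eventually.of_forall fun x => ?_)) (Eventually.of_forall fun x => ?_)).trans
      ((hA.integral _ hm'.aestronglyMeasurable).le.trans hε)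
    · rw [norm_norm]
      exact (norm_sub_le _ _).trans (add_le_add (hK _) (KX_le hKcal hA hu _))
    · refine le_of_eq_of_le ?_ (tp_le (A := A) (r i) (r i.rev) (fun y => f i y - u y) hp hq d x)
      simp only [tp]
      ring_nf
  have h2 := key hKcal hA (r i) (r i.rev) hp hq (w := w M) (by omega)
    (fun d hd => by have := le_sup (f := L) (mem_range.2 hd); omega) h1 hu hL
  have h3 : ‖∑ d ∈ range M, (w M d : ℂ) * ∫ x, tp A (r i) (r i.rev) p (f i) (f i.rev) d x ∂μ -
      ∑ d ∈ range M, (w M d : ℂ) * ∫ x, tp A (r i) (r i.rev) p u (f i.rev) d x ∂μ‖ ≤ 3 * δ := by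
    rw [← sum_sub_distrib]
    refine (norm_sum_le _ _).trans ((sum_le_sum fun d _ => ?_).trans
      ((sum_mul _ _ δ).symm.le.trans (mul_le_mul_of_nonneg_right hM hδ.le)))
    rw [← mul_sub, norm_mul, Complex.norm_real, Real.norm_eq_abs]
    exact mul_le_mul_of_nonneg_left (hd d) (abs_nonneg _)
  have h4 := (norm_le_insert' _ _).trans (add_le_add h2 h3)
  rw [e, Complex.norm_real, Real.norm_eq_abs] at h4
  have h5 := (div_le_iff₀' (by positivity)).1 ((le_abs_self _).trans h4)
  have h6 : C * δ ≤ |C| * δ := mul_le_mul_of_nonneg_right (le_abs_self C) hδ.le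
  refine (h5.trans (mul_le_mul_of_nonneg_left ?_ (by positivity))).trans_lt hc'
  linarith

end Pool.Agent.MP_154433_an.T7

end

end PkProd

section PkGood

/-! Row Good: the factor of one slot is good. -/

set_option autoImplicit false
set_option linter.unusedVariables false

noncomputable section

namespace Pool.Agent.MP_154433_an.T7

open MeasureTheory ProbabilityTheory Filter Topology Function
open scoped BigOperators ComplexConjugate
open T3S (B1 MB1 Bd)
open T4S (Gm Act wavg Van)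
open T3S.GoodR (MB V V_of_sq rep prod_bd)
open T4S.GoodR (op op_MB slot V_mul)

namespace GoodL

lemma wavg_op {X : Type} {l : ℕ} (A : Gm l → X → X) (w : ℕ → ℕ → ℝ) (r : Fin 2 → Gm l)
    (i : Fin 2) (F : Fin 2 → X → ℂ) : wavg A w r F =
      op A w (r i) (fun d x => F i.rev (A ((d : ℤ) • r i.rev) x)) (F i) := by
  funext M x
  refine Finset.sum_congr rfl fun d _ => congrArg _ ?_
  rw [Fin.prod_univ_two]
  fin_cases i
  · rfl
  · exact mul_comm _ _

end GoodL

open GoodL in
theorem good (hProd : ProdS) (hAlg : AlgS) (hFac : FacS) : GoodS := by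
  intro w hs hw l X m0 μ _ A hA r i f hf hfi
  choose g h1 _ h3 using fun j => rep m0 le_rfl (hf j)
  have hV : V μ (wavg A w r g) := by
    obtain ⟨hm, K, hK, hb⟩ := h1 i.rev
    have hg' : MB1 fun x => ((K + 1 : ℝ) : ℂ)⁻¹ * g i.rev x := ⟨hm.const_mul _, fun x => by
      rw [norm_mul, norm_inv, Complex.norm_real, Real.norm_of_nonneg (by linarith),
        inv_mul_le_iff₀ (by linarith)]
      linarith [hb x]⟩
    have hR := fun d : ℕ => hA.tz hg' ((d : ℤ) • r i.rev)
    have al := hAlg l X μ A hA (r i) (r i.rev)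
    have hS : ∀ φ ∈ {φ : X → ℝ | (fun x => (φ x : ℂ)) ∈ AA μ A (r i) (r i.rev)},
        Measurable φ ∧ ∃ C : ℝ, ∀ x, |φ x| ≤ C := fun φ hφ =>
      ⟨Complex.measurable_re.comp hφ.1, hφ.2.1.imp fun C hC x => by
        simpa only [Complex.norm_real, Real.norm_eq_abs] using hC x⟩
    have := V_mul ((K + 1 : ℝ) : ℂ) (slot (a := r i) hA hw zero_le_one (fun d => (hR d).1)
      (fun d => (hR d).2) _ (al.const 1) (fun φ hφ φ' hφ' => by
        simpa only [Set.mem_ofPred_eq, Pi.mul_apply, Complex.ofReal_mul] using al.mul _ hφ _ hφ')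
      hS (fun φ hφ => ?_) (h1 i) (hfi.1.congr (h3 i)))
    · rw [wavg_op A w r i]
      convert this using 1
      funext M x
      refine Finset.sum_congr rfl fun d _ => congrArg _ ?_
      have : ((K + 1 : ℝ) : ℂ) ≠ 0 := Complex.ofReal_ne_zero.2 (by linarith)
      field_simp
    · have ne : i.rev ≠ i := by fin_cases i <;> decide
      have := hProd w hs hw l X μ A hA r i
        (update (fun _ x => ((K + 1 : ℝ) : ℂ)⁻¹ * g i.rev x) i fun x => (φ x : ℂ))
        (by rw [update_self]; exact hφ) (by rw [update_of_ne ne]; exact hg')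
      rw [Van, wavg_op A w r i, update_self, update_of_ne ne] at this
      exact V_of_sq (fun M => op_MB hA zero_le_one (fun d => (hR d).1) (fun d => (hR d).2)
        (MB.ofReal (hS φ hφ)) M) this
  obtain ⟨K, hK, hb⟩ := prod_bd Finset.univ h1
  have h4 : ∀ᵐ x ∂μ, ∀ (i : Fin 2) (v : Gm l), f i (A v x) = g i (A v x) :=
    ae_all_iff.2 fun i => ae_all_iff.2 fun v => (hA.mp v).quasiMeasurePreserving.ae (h3 i)
  have h5 := hV.const_mul (3 * K)
  rw [mul_zero] at h5
  refine squeeze_zero' (Eventually.of_forall fun M => integral_nonneg fun x => sq_nonneg _) ?_ h5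
  filter_upwards [hw] with M hM
  have hn : ∀ x, ‖wavg A w r g M x‖ ≤ 3 * K := fun x => by
    refine (norm_sum_le _ _).trans (le_trans (Finset.sum_le_sum fun d _ => ?_)
      ((Finset.sum_mul _ _ K).ge.trans (mul_le_mul_of_nonneg_right hM hK)))
    rw [norm_mul, Complex.norm_real, Real.norm_eq_abs]
    exact mul_le_mul_of_nonneg_left (hb _) (abs_nonneg _)
  have hi : Integrable (fun x => ‖wavg A w r g M x‖) μ :=
    MB.intn ⟨hA.wavg_meas w r (fun i => (h1 i).1) M, 3 * K, by positivity, hn⟩ μ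
  rw [← integral_const_mul]
  refine integral_mono_of_nonneg (Eventually.of_forall fun x => sq_nonneg _) (hi.const_mul _) ?_
  filter_upwards [h4] with x hx
  have e : wavg A w r f M x = wavg A w r g M x := by simp only [wavg, hx]
  rw [e, sq]
  exact mul_le_mul_of_nonneg_right (hn x) (norm_nonneg _)

end Pool.Agent.MP_154433_an.T7

end

end PkGood
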