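import Pool.Agent.MP_154433_an.t7.SpecF

/-! Pairs of commuting maps: finite rows (packed). -/

section PkSt

/-! Row St: removal of the predicted parts. -/

set_option autoImplicit false

open Finset
open scoped BigOperators

noncomputable section

namespace Pool.Agent.MP_154433_an.T7

open T3S (B1)

namespace StL

/-- the coefficient of the target point -/
def kk (S : St) (v : S.I → ℝ) (G : S.A → ℂ) (c : S.A → S.I → ℂ) (z : S.A) : ℂ :=
  ∑ i, (v i : ℂ) * (G (z - S.ι i) * c (z - S.ι i) i)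

theorem lin (S : St) (v : S.I → ℝ) (G W : S.A → ℂ) (c : S.A → S.I → ℂ) :
    S.form v G W c = ∑ z, W z * kk S v G c z := by
  simp only [St.form, kk, mul_sum]
  rw [sum_comm, sum_comm (γ := S.A)]
  refine sum_congr rfl fun i _ => ?_
  rw [← (Equiv.subRight (S.ι i)).sum_comp]
  refine sum_congr rfl fun z _ => ?_
  simp only [Equiv.subRight_apply, sub_add_cancel]
  ring

theorem kk_sub (S : St) (v v' : S.I → ℝ) (G : S.A → ℂ) (c : S.A → S.I → ℂ) (z : S.A) :
    kk S (v - v') G c z = kk S v G c z - kk S v' G c z := by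
  simp only [kk, Pi.sub_apply, Complex.ofReal_sub, sub_mul, sum_sub_distrib]

theorem kk_tw (S : St) (v : S.I → ℝ) (G : S.A → ℂ) (c : S.A → S.I → ℂ) {φ ψ : S.A → S.Θ}
    {z : S.A} (h : φ z = ψ z) : kk S v G (S.tw φ c) z = kk S v G (S.tw ψ c) z := by
  simp only [kk, St.tw, sub_add_cancel, h]

theorem two {A : Type} (E : Finset A) (f : A → ℝ) {t : ℝ}
    (h : ∀ E' ⊆ E, |∑ z ∈ E', f z| ≤ t) : ∑ z ∈ E, |f z| ≤ 2 * t := by
  classical
  rw [← sum_filter_add_sum_filter_not E fun z => 0 ≤ f z]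
  have h1 := (abs_le.1 (h _ (filter_subset (fun z => 0 ≤ f z) E))).2
  have h2 := (abs_le.1 (h _ (filter_subset (fun z => ¬ 0 ≤ f z) E))).1
  rw [sum_congr rfl fun z hz => abs_of_nonneg (mem_filter.1 hz).2,
    sum_congr rfl fun z hz => abs_of_neg (not_le.1 (mem_filter.1 hz).2), sum_neg_distrib]
  linarith

theorem four {A : Type} (E : Finset A) (k : A → ℂ) {t : ℝ}
    (h : ∀ E' ⊆ E, ‖∑ z ∈ E', k z‖ ≤ t) : ∑ z ∈ E, ‖k z‖ ≤ 4 * t := by
  have h1 := two E (fun z => (k z).re) (t := t) fun E' hE => by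
    rw [← Complex.re_sum]; exact (Complex.abs_re_le_norm _).trans (h E' hE)
  have h2 := two E (fun z => (k z).im) (t := t) fun E' hE => by
    rw [← Complex.im_sum]; exact (Complex.abs_im_le_norm _).trans (h E' hE)
  have h3 : ∑ z ∈ E, ‖k z‖ ≤ ∑ z ∈ E, (|(k z).re| + |(k z).im|) :=
    sum_le_sum fun z _ => Complex.norm_le_abs_re_add_abs_im _
  rw [sum_add_distrib] at h3
  linarith

theorem cut (S : St) (v : S.I → ℝ) (G W : S.A → ℂ) (c : S.A → S.I → ℂ) (V : Finset S.A) :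
    S.form v G (fun z => W z * one (V : Set S.A) z) c = ∑ z ∈ V, W z * kk S v G c z := by
  classical
  rw [lin, ← sum_subset (subset_univ V) fun z _ hz => by simp [one, oi, hz]]
  exact sum_congr rfl fun z hz => by simp [one, oi, hz]

end StL

open StL in
theorem stp : StS := by
  classical
  intro S π π' c 𝓗 δ δ' τ hδ hδ' hτ hP hP' hO φ G W hG hW
  have hn : 0 < S.n := Nat.cast_pos.2 Fintype.card_pos
  have pred : ∀ v : S.I → ℝ, S.Pred v c 𝓗 δ δ' → ∀ E : Finset S.A,
      ¬ (∀ E' ⊆ E, ‖∑ z ∈ E', kk S v G (S.tw φ c) z‖ ≤ δ * S.n) →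
      ∃ V ⊆ E, δ' * S.n ≤ V.card ∧ ∃ ψ ∈ 𝓗, ∀ z ∈ V, φ z = ψ z := by
    intro v hv E h
    push Not at h
    obtain ⟨E', h1, h2⟩ := h
    have e := cut S v G (fun _ => 1) (S.tw φ c) E'
    simp only [one_mul] at e
    obtain ⟨ψ, h3, h4⟩ := hv G (E' : Set S.A) φ hG (by rw [e]; exact h2.le)
    refine ⟨E'.filter fun z => φ z = ψ z, (filter_subset _ _).trans h1, h4.trans_eq ?_, ψ, h3,
      fun z hz => (mem_filter.1 hz).2⟩
    simp only [cnt, oi, sum_boole, mem_coe]
    congr 2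
    ext z
    simp
  have main : ∀ (m : ℕ) (E : Finset S.A), E.card = m →
      ‖∑ z ∈ E, W z * kk S (π - π') G (S.tw φ c) z‖ ≤ 8 * δ * S.n + τ / δ' * E.card := by
    intro m
    induction m using Nat.strong_induction_on with
    | _ m ih =>
    intro E hE
    by_cases h : (∀ E' ⊆ E, ‖∑ z ∈ E', kk S π G (S.tw φ c) z‖ ≤ δ * S.n) ∧
        ∀ E' ⊆ E, ‖∑ z ∈ E', kk S π' G (S.tw φ c) z‖ ≤ δ * S.n
    · have h1 := four E _ h.1
      have h2 := four E _ h.2
      have h3 : ‖∑ z ∈ E, W z * kk S (π - π') G (S.tw φ c) z‖ ≤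
          ∑ z ∈ E, (‖kk S π G (S.tw φ c) z‖ + ‖kk S π' G (S.tw φ c) z‖) := by
        refine (norm_sum_le _ _).trans (sum_le_sum fun z _ => ?_)
        rw [norm_mul, kk_sub]
        exact (mul_le_of_le_one_left (norm_nonneg _) (hW z)).trans (norm_sub_le _ _)
      rw [sum_add_distrib] at h3
      have : 0 ≤ τ / δ' * E.card := by positivity
      linarith
    · obtain ⟨V, h1, h2, ψ, h3, h4⟩ : ∃ V ⊆ E, δ' * S.n ≤ V.card ∧ ∃ ψ ∈ 𝓗, ∀ z ∈ V, φ z = ψ z :=
        (not_and_or.1 h).elim (pred π hP E) (pred π' hP' E)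
      have hV : 0 < V.card := Nat.cast_pos.1 ((mul_pos hδ' hn).trans_le h2)
      have hc := card_sdiff_add_card_eq_card h1
      have h5 := ih _ (by omega) (E \ V) rfl
      have h6 : ‖∑ z ∈ V, W z * kk S (π - π') G (S.tw φ c) z‖ ≤ τ / δ' * V.card := by
        rw [sum_congr rfl fun z hz => by rw [kk_tw S _ G c (h4 z hz)], ← cut]
        refine (hO ψ h3 G _ hG fun z => ?_).trans ?_
        · rw [norm_mul]
          refine mul_le_one₀ (hW z) (norm_nonneg _) ?_
          by_cases hz : z ∈ V <;> simp [one, oi, hz]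
        · calc τ * S.n = τ / δ' * (δ' * S.n) := by field_simp
            _ ≤ _ := mul_le_mul_of_nonneg_left h2 (by positivity)
      rw [← sum_sdiff h1, ← hc, Nat.cast_add, mul_add]
      refine (norm_add_le _ _).trans ?_
      linarith
  rw [lin, add_mul]
  exact main _ univ rfl

end Pool.Agent.MP_154433_an.T7

end

end PkSt

section PkCsg

/-! Cauchy-Schwarz step: the increments of the second frequency are predicted. -/

set_option autoImplicit false
set_option linter.unusedVariables false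

open Function Finset
open scoped BigOperators ComplexConjugate

noncomputable section

namespace Pool.Agent.MP_154433_an.T7

open T3S (B1)

namespace CsgL

theorem oi_nonneg (p : Prop) : 0 ≤ oi p := by
  unfold oi
  split_ifs <;> norm_num

theorem oi_mono {p q : Prop} (h : p → q) : oi p ≤ oi q := by
  by_cases hp : p
  · simp [oi, hp, h hp]
  · simpa [oi, hp] using oi_nonneg q

theorem one_le {α : Type} (E : Set α) (a : α) : ‖one E a‖ ≤ 1 := by
  by_cases h : a ∈ E <;> simp [one, oi, h]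

variable (S : St)

theorem n_pos : 0 < S.n := Nat.cast_pos.2 Fintype.card_pos

theorem form_le {π : S.I → ℝ} (hπ : PV π) {G : S.A → ℂ} (hG : B1 G) (E : Set S.A)
    (φ : S.A → S.Θ) : ‖S.form π G (one E) (S.tw φ fun _ _ => 1)‖ ≤ S.n := by
  refine (norm_sum_le_of_le (n := fun _ => (1 : ℝ)) _ fun y _ => ?_).trans (by simp [St.n])
  refine (norm_sum_le_of_le (n := π) _ fun i _ => ?_).trans hπ.2.le
  rw [norm_mul, Complex.norm_real, Real.norm_of_nonneg (hπ.1 i)]
  refine mul_le_of_le_one_right (hπ.1 i) ?_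
  simp only [St.tw, norm_mul, AddChar.norm_apply, mul_one]
  exact mul_le_one₀ (hG y) (norm_nonneg _) (one_le _ _)

/-- the form of a pair of rows -/
def fm (π : S.I → ℝ) (G : S.A → S.A → ℂ) (E : Set (S.A × S.A)) (γ : S.A → S.Θ) (h a : S.A) : ℂ :=
  S.form π (fun m => G (a + h) m * conj (G a m)) (one {z | (a + h, z) ∈ E ∧ (a, z) ∈ E})
    (S.tw (fun z => γ (a + h + z) - γ (a + z)) fun _ _ => 1)

theorem cs {π : S.I → ℝ} (hπ : PV π) (G : S.A → S.A → ℂ) (E : Set (S.A × S.A))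
    (ξ γ : S.A → S.Θ) :
    ‖S.form2 π G (fun a z => one E (a, z)) ξ γ‖ ^ 2 ≤ S.n * ∑ h, ∑ a, ‖fm S π G E γ h a‖ := by
  let Y : S.A → S.I → S.A → ℂ := fun m i a =>
    G a m * one E (a, m + S.ι i) * S.χ i (γ (a + (m + S.ι i)))
  have h1 : ‖S.form2 π G (fun a z => one E (a, z)) ξ γ‖ ≤
      ∑ p : S.A × S.I, π p.2 * ‖∑ a, Y p.1 p.2 a‖ := by
    have e : S.form2 π G (fun a z => one E (a, z)) ξ γ =
        ∑ p : S.A × S.I, (π p.2 : ℂ) * (S.χ p.2 (ξ p.1) * ∑ a, Y p.1 p.2 a) := by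
      simp only [Finset.mul_sum]
      rw [Finset.sum_comm]
      refine Finset.sum_congr rfl fun a _ => ?_
      rw [Fintype.sum_prod_type]
      refine Finset.sum_congr rfl fun m _ => Finset.sum_congr rfl fun i _ => ?_
      simp only [Y, add_assoc]
      ring
    rw [e]
    refine norm_sum_le_of_le _ fun p _ => ?_
    rw [norm_mul, norm_mul, AddChar.norm_apply, one_mul, Complex.norm_real,
      Real.norm_of_nonneg (hπ.1 _)]
  have h2 : (∑ p : S.A × S.I, π p.2 * ‖∑ a, Y p.1 p.2 a‖) ^ 2 ≤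
      (∑ p : S.A × S.I, π p.2) * ∑ p : S.A × S.I, π p.2 * ‖∑ a, Y p.1 p.2 a‖ ^ 2 :=
    Finset.sum_sq_le_sum_mul_sum_of_sq_le_mul _ (fun p _ => hπ.1 _)
      (fun p _ => mul_nonneg (hπ.1 _) (sq_nonneg _)) fun p _ => le_of_eq (by ring)
  have h3 : ∑ p : S.A × S.I, π p.2 = S.n := by
    rw [Fintype.sum_prod_type]
    simp [hπ.2, St.n]
  have h4 : ((∑ p : S.A × S.I, π p.2 * ‖∑ a, Y p.1 p.2 a‖ ^ 2 : ℝ) : ℂ) =
      ∑ h, ∑ a, fm S π G E γ h a := by
    have e : ∀ m i, ((‖∑ a, Y m i a‖ ^ 2 : ℝ) : ℂ) = ∑ h, ∑ a, Y m i (a + h) * conj (Y m i a) := by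
      intro m i
      rw [Complex.ofReal_pow, ← Complex.mul_conj', map_sum, Finset.sum_mul_sum, Finset.sum_comm,
        Finset.sum_comm (f := fun h a => Y m i (a + h) * conj (Y m i a))]
      exact Finset.sum_congr rfl fun a _ =>
        (Equiv.sum_comp (Equiv.addLeft a) fun b => Y m i b * conj (Y m i a)).symm
    simp only [Complex.ofReal_sum, Complex.ofReal_mul, e, Finset.mul_sum]
    rw [Finset.sum_comm]
    refine Finset.sum_congr rfl fun h _ => ?_
    rw [Finset.sum_comm]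
    refine Finset.sum_congr rfl fun a _ => ?_
    rw [Fintype.sum_prod_type]
    refine Finset.sum_congr rfl fun m _ => Finset.sum_congr rfl fun i _ => congrArg _ ?_
    simp only [Y, St.tw, map_mul, sub_eq_add_neg, AddChar.map_add_eq_mul, AddChar.map_neg_eq_conj]
    by_cases p1 : (a + h, m + S.ι i) ∈ E <;> by_cases p2 : (a, m + S.ι i) ∈ E <;>
      simp [one, oi, p1, p2]
    ring
  have h5 : ∑ p : S.A × S.I, π p.2 * ‖∑ a, Y p.1 p.2 a‖ ^ 2 ≤ ∑ h, ∑ a, ‖fm S π G E γ h a‖ := by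
    refine (le_abs_self _).trans ?_
    rw [← Real.norm_eq_abs, ← Complex.norm_real, h4]
    exact norm_sum_le_of_le _ fun h _ => norm_sum_le _ _
  refine (pow_le_pow_left₀ (norm_nonneg _) h1 2).trans (h2.trans ?_)
  rw [h3]
  exact mul_le_mul_of_nonneg_left h5 (n_pos S).le

end CsgL

open CsgL in
theorem csg : CsgS := by
  intro S π 𝓗 δ δ1 hπ hδ hδ1 hP G E ξ γ U hG hE hb
  have hn := n_pos S
  have hG' : ∀ h a, B1 fun m => G (a + h) m * conj (G a m) := fun h a m => by
    rw [norm_mul, RCLike.norm_conj]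
    exact mul_le_one₀ (hG _ _) (norm_nonneg _) (hG _ _)
  let gd : S.A → Prop := fun h => ∃ a, δ ^ 2 / 2 * S.n ≤ ‖fm S π G E γ h a‖
  have h1 : ∀ h a, ‖fm S π G E γ h a‖ ≤ oi (gd h) * S.n + δ ^ 2 / 2 * S.n := by
    intro h a
    by_cases c : gd h
    · have := form_le S hπ (hG' h a) {z | (a + h, z) ∈ E ∧ (a, z) ∈ E}
        fun z => γ (a + h + z) - γ (a + z)
      simp only [oi, c, if_true, one_mul]
      exact this.trans (le_add_of_nonneg_right (by positivity))
    · simp only [oi, c, if_false, zero_mul, zero_add]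
      exact (not_le.1 fun c' => c ⟨a, c'⟩).le
  have h2 : ∑ h, ∑ a, ‖fm S π G E γ h a‖ ≤ S.n ^ 2 * (cnt gd + δ ^ 2 / 2 * S.n) := by
    refine (Finset.sum_le_sum fun h _ => Finset.sum_le_sum fun a _ => h1 h a).trans (le_of_eq ?_)
    simp only [Finset.sum_const, Finset.card_univ, nsmul_eq_mul, Finset.sum_add_distrib,
      ← Finset.mul_sum, ← Finset.sum_mul, cnt, St.n]
    ring
  have h3 : δ ^ 2 / 2 * S.n ≤ cnt gd := by
    have := ((pow_le_pow_left₀ (by positivity) hb 2).trans (cs S hπ G E ξ γ)).trans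
      (mul_le_mul_of_nonneg_left h2 hn.le)
    have e : (δ ^ 2 / 2 * S.n) * S.n ^ 3 ≤ cnt gd * S.n ^ 3 := by nlinarith
    exact le_of_mul_le_mul_right e (by positivity)
  have h4 : ∀ h, gd h → ∃ a : S.A, ∃ φ ∈ 𝓗,
      δ1 * S.n ≤ ∑ x, oi (x + h ∈ U ∧ γ (x + h) - γ x = φ (x - a)) := by
    rintro h ⟨a, ha⟩
    obtain ⟨φ, hφ, hc⟩ := hP _ _ _ (hG' h a) ha
    refine ⟨a, φ, hφ, hc.trans ?_⟩
    rw [← Equiv.sum_comp (Equiv.addLeft a)]
    refine Finset.sum_le_sum fun z _ => oi_mono fun hz => ?_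
    simp only [Equiv.coe_addLeft, add_sub_cancel_left, add_right_comm a z h]
    exact ⟨hE _ hz.1.1, hz.2⟩
  obtain ⟨h0, hh0⟩ : ∃ h, gd h := by
    by_contra c
    have : cnt gd = 0 := Finset.sum_eq_zero fun h _ => if_neg fun c' => c ⟨h, c'⟩
    have p : 0 < δ ^ 2 / 2 * S.n := by positivity
    linarith
  have h5 : ∀ h, ∃ ψ : S.A → S.Θ, (∃ a : S.A, ∃ φ ∈ 𝓗, ψ = fun x => φ (x - a)) ∧
      oi (gd h) * (δ1 * S.n) ≤ ∑ x, oi (x + h ∈ U ∧ γ (x + h) - γ x = ψ x) := by
    intro h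
    by_cases c : gd h
    · obtain ⟨a, φ, hφ, hc⟩ := h4 h c
      exact ⟨_, ⟨a, φ, hφ, rfl⟩, by simpa only [oi, c, if_true, one_mul] using hc⟩
    · obtain ⟨a, φ, hφ, -⟩ := h4 h0 hh0
      refine ⟨_, ⟨a, φ, hφ, rfl⟩, ?_⟩
      rw [show oi (gd h) = 0 from if_neg c, zero_mul]
      exact Finset.sum_nonneg fun x _ => oi_nonneg _
  choose ψ hψ hψ' using h5
  refine ⟨ψ, hψ, ?_⟩
  have h6 : cnt gd * (δ1 * S.n) ≤ edg ψ U γ := by
    rw [edg, cnt, cnt, Fintype.sum_prod_type, Finset.sum_mul]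
    exact Finset.sum_le_sum fun h _ => hψ' h
  refine le_trans (le_of_eq (by ring)) ((mul_le_mul_of_nonneg_right h3 (by positivity)).trans h6)

end Pool.Agent.MP_154433_an.T7

end

end PkCsg

section PkWalk

/-! Row Walk: walks double by the Cauchy-Schwarz inequality. -/

open Finset

noncomputable section

namespace Pool.Agent.MP_154433_an.T7

namespace WalkL

theorem oi_nonneg (p : Prop) : 0 ≤ oi p := by
  unfold oi
  split_ifs <;> norm_num

theorem oi_mul_le {p q r : Prop} (h : p → q → r) : oi p * oi q ≤ oi r := by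
  by_cases hp : p
  · by_cases hq : q
    · simp [oi, hp, hq, h hp hq]
    · simpa [oi, hq] using oi_nonneg r
  · simpa [oi, hp] using oi_nonneg r

/-- restart two walks from the end of the first -/
def eqv {A T : Type} [AddCommGroup A] (s : (T → A) → A) :
    A × (T → A) × (T → A) ≃ A × (T ⊕ T → A) where
  toFun p := (p.1 + s p.2.1, Sum.elim p.2.1 p.2.2)
  invFun q := (q.1 - s (q.2 ∘ Sum.inl), q.2 ∘ Sum.inl, q.2 ∘ Sum.inr)
  left_inv p := by simp
  right_inv q := by simp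

theorem dbl {A X : Type} [Fintype A] [Nonempty A] [Fintype X] (P : A × X → Prop) {d : ℝ}
    (hd : 0 ≤ d) (h : d * Fintype.card A * Fintype.card X ≤ cnt P) :
    d ^ 2 * Fintype.card A * (Fintype.card X : ℝ) ^ 2 ≤
      ∑ p : A × X × X, oi (P (p.1, p.2.1)) * oi (P (p.1, p.2.2)) := by
  have hn : (0 : ℝ) < Fintype.card A := by exact_mod_cast Fintype.card_pos
  have e : ∑ p : A × X × X, oi (P (p.1, p.2.1)) * oi (P (p.1, p.2.2)) =
      ∑ x, (∑ J, oi (P (x, J))) ^ 2 := by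
    simp only [Fintype.sum_prod_type, sq, sum_mul_sum]
  have cs := sq_sum_le_card_mul_sum_sq (s := (univ : Finset A)) (f := fun x => ∑ J, oi (P (x, J)))
  rw [cnt, Fintype.sum_prod_type] at h
  rw [e]
  rw [card_univ] at cs
  refine le_of_mul_le_mul_left (le_trans ?_ cs) hn
  refine le_trans (le_of_eq ?_) (pow_le_pow_left₀ (by positivity) h 2)
  ring

end WalkL

open WalkL in
theorem walk : WalkS := by
  intro r A Θ _ _ _
  induction r with
  | zero =>
    refine ⟨Unit, inferInstance, inferInstance, fun _ a => a, fun _ ps x => ps () x, by simp,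
      fun _ => Or.inl rfl, fun ψ U γ δ _ h => ?_⟩
    have e : edg ψ U γ = cnt fun p : A × (Unit → A) => p.1 + ∑ t, p.2 t ∈ U ∧
        γ (p.1 + ∑ t, p.2 t) - γ p.1 = ψ (p.2 ()) p.1 := by
      refine Fintype.sum_equiv ((Equiv.prodComm A A).trans
        ((Equiv.refl A).prodCongr (Equiv.funUnique Unit A).symm)) _ _ fun p => ?_
      simp
    rw [← e]
    refine le_trans (le_of_eq ?_) h
    simp [sq, mul_assoc]
  | succ r ih =>
    obtain ⟨T, _, _, e, Δ, hT, he, H⟩ := ih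
    refine ⟨T ⊕ T, inferInstance, inferInstance, Sum.elim (fun t a => -e t a) e,
      fun J ps z => Δ (J ∘ Sum.inr) (ps ∘ Sum.inr) (z - ∑ t, e t (J (Sum.inl t))) -
        Δ (J ∘ Sum.inl) (ps ∘ Sum.inl) (z - ∑ t, e t (J (Sum.inl t))), ?_, ?_,
      fun ψ U γ δ hδ h => ?_⟩
    · rw [Fintype.card_sum, hT, pow_succ, mul_two]
    · rintro (t | t)
      · rcases he t with h | h
        · exact Or.inr (by simp [h])
        · exact Or.inl (by simp [h])
      · exact he t
    · have k := dbl _ (pow_nonneg hδ _) (H ψ U γ δ hδ h)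
      have c : (Fintype.card (T ⊕ T → A) : ℝ) = (Fintype.card (T → A) : ℝ) ^ 2 := by
        rw [Fintype.card_congr (Equiv.sumArrowEquivProdArrow T T A), Fintype.card_prod]
        push_cast
        ring
      rw [c, pow_succ 2 r, pow_mul, cnt, ← (eqv fun J : T → A => ∑ t, e t (J t)).sum_comp]
      refine k.trans (sum_le_sum fun p _ => oi_mul_le ?_)
      rintro ⟨-, h1⟩ ⟨h2, h3⟩
      have s : ((eqv fun J : T → A => ∑ t, e t (J t)) p).1 + ∑ t : T ⊕ T,
          Sum.elim (fun t a => -e t a) e t (((eqv fun J : T → A => ∑ t, e t (J t)) p).2 t) =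
          p.1 + ∑ t, e t (p.2.2 t) := by
        simp [eqv, Fintype.sum_sum_type]
      rw [s]
      refine ⟨h2, ?_⟩
      change _ - γ (p.1 + ∑ t, e t (p.2.1 t)) =
        Δ p.2.2 (fun t => ψ (p.2.2 t)) (p.1 + ∑ t, e t (p.2.1 t) - ∑ t, e t (p.2.1 t)) -
          Δ p.2.1 (fun t => ψ (p.2.1 t)) (p.1 + ∑ t, e t (p.2.1 t) - ∑ t, e t (p.2.1 t))
      rw [add_sub_cancel_right, ← h1, ← h3]
      abel

end Pool.Agent.MP_154433_an.T7

end

end PkWalk

section PkGam

/-! Row Gam: the increments predict the function on many points. -/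

set_option autoImplicit false
set_option linter.unusedVariables false

open Finset
open scoped BigOperators

noncomputable section

namespace Pool.Agent.MP_154433_an.T7

namespace GamL

theorem fib {A G : Type} [AddCommGroup A] [Fintype A] [AddCommGroup G] [Fintype G] (f : G → A)
    (hf : ∀ J K, f (J + K) = f J + f K) (hs : ∀ b, ∃ K, f K = b) (c : A) :
    (Fintype.card A : ℝ) * ∑ J, oi (c = f J) = Fintype.card G := by
  classical
  have h1 : ∀ b : A, ∑ J, oi (b = f J) = ∑ J, oi (c = f J) := fun b => by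
    obtain ⟨K, hK⟩ := hs (b - c)
    refine (Fintype.sum_equiv (Equiv.addRight K) _ _ fun J => ?_).symm
    congr 1
    rw [Equiv.coe_addRight, hf, hK]
    exact propext ⟨fun h => by rw [← h]; abel, fun h => by
      have : c + b = c + (f J + (b - c)) := by rw [← h]
      have h2 : c + (f J + (b - c)) = f J + b := by abel
      exact add_right_cancel (this.trans h2)⟩
  have h2 : ∑ b : A, ∑ J, oi (b = f J) = Fintype.card G := by
    rw [sum_comm]
    simp [oi]
  rw [← h2, sum_congr rfl fun b _ => h1 b]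
  simp

theorem wt_unif {A T : Type} [Fintype A] [Fintype T] [DecidableEq T] (J : T → A) :
    wt (fun _ : A => ((Fintype.card A : ℝ))⁻¹) J = ((Fintype.card (T → A) : ℝ))⁻¹ := by
  simp [wt]

theorem col {A T : Type} [AddCommGroup A] [Fintype A] [Fintype T] [DecidableEq T]
    (e : T → A → A) (he : ∀ t, e t = (fun a => a) ∨ e t = fun a => -a) :
    Col (fun _ : A => ((Fintype.card A : ℝ))⁻¹) e 1 0 := by
  intro F ⟨t0, ht0⟩
  have hA : (0 : ℝ) < Fintype.card A := by exact_mod_cast Fintype.card_pos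
  have hG : (0 : ℝ) < Fintype.card (T → A) := by exact_mod_cast Fintype.card_pos
  have hadd : ∀ t a b, e t (a + b) = e t a + e t b := fun t a b => by
    rcases he t with h | h <;> rw [h]
    exact neg_add a b
  have h0 : ∀ t, e t 0 = 0 := fun t => by rcases he t with h | h <;> simp [h]
  have hee : ∀ t a, e t (e t a) = a := fun t a => by rcases he t with h | h <;> simp [h]
  have key : ∀ c : A, ∑ J : T → A, oi (c = ∑ t ∈ F, e t (J t)) =
      Fintype.card (T → A) / Fintype.card A := fun c => by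
    rw [eq_div_iff hA.ne', mul_comm]
    refine fib (fun J : T → A => ∑ t ∈ F, e t (J t)) (fun J K => ?_) (fun b => ?_) c
    · simp only [Pi.add_apply, hadd, sum_add_distrib]
    · refine ⟨Pi.single t0 (e t0 b), ?_⟩
      rw [sum_eq_single_of_mem t0 ht0 fun t _ ht => by rw [Pi.single_eq_of_ne ht, h0]]
      rw [Pi.single_eq_same, hee]
  simp only [wt_unif, ← mul_sum, key]
  rw [sum_const, card_univ, nsmul_eq_mul, zero_pow (card_pos.2 ⟨t0, ht0⟩).ne', add_zero]
  apply le_of_eq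
  field_simp

end GamL

theorem gam (hWalk : WalkS) (hWrap : WrapS) : GamS := by
  classical
  intro δ hδ r
  obtain ⟨δ', m, hδ', hm, hW⟩ := hWrap (δ ^ 2 ^ r) 1 (by positivity) zero_le_one
  refine ⟨δ', 2 + m + 2 * 2 ^ r, hδ', by positivity, ?_⟩
  intro S x y 𝓗 k0 hx hy hH hk hk2
  obtain ⟨T, _, _, e, Δ, hT, he, hΔ⟩ := hWalk r S.A S.Θ
  obtain ⟨pop, hpop⟩ := hW S.A S.Θ T k0 hk (by rw [hT]; exact hk2)
  let F : S.A × S.Θ × Fin m × (T → Fin k0 → S.A × S.A × 𝓗) → S.A → S.Θ := fun p =>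
    pop p.2.2.1 fun a => (p.1 + ∑ t, e t (p.2.2.2 t (a t)).1,
      p.2.1 + Δ (fun t => (p.2.2.2 t (a t)).1)
        (fun t z => (p.2.2.2 t (a t)).2.2.1 (z - (p.2.2.2 t (a t)).2.1)) p.1)
  have hA : (0 : ℝ) < Fintype.card S.A := by exact_mod_cast Fintype.card_pos
  refine ⟨univ.image F, ?_, fun ψ U γ hψ hE => ?_⟩
  · obtain ⟨h1, h2, -, h3⟩ := hx
    have hk' : (1 : ℝ) ≤ k0 := by exact_mod_cast hk
    have hc : ((univ.image F).card : ℝ) ≤ (Fintype.card S.A : ℝ) * (Fintype.card S.Θ * (m *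
        ((Fintype.card S.A * (Fintype.card S.A * 𝓗.card)) ^ k0) ^ 2 ^ r)) := by
      have := card_image_le (s := univ) (f := F)
      rw [card_univ] at this
      simp only [Fintype.card_prod, Fintype.card_pi, prod_const, card_univ, Fintype.card_fin,
        Fintype.card_coe, hT] at this
      exact_mod_cast this
    have hm' : (m : ℝ) ≤ Real.exp m := by linarith [Real.add_one_le_exp (m : ℝ)]
    refine hc.trans ?_
    calc _ ≤ Real.exp x * (Real.exp x * (Real.exp m *
          ((Real.exp x * (Real.exp x * Real.exp y)) ^ k0) ^ 2 ^ r)) := by gcongr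
      _ = Real.exp (x + (x + (m + (2 ^ r : ℕ) * (k0 * (x + (x + y)))))) := by
          rw [← Real.exp_add, ← Real.exp_add, ← Real.exp_nat_mul, ← Real.exp_nat_mul,
            ← Real.exp_add, ← Real.exp_add, ← Real.exp_add]
      _ ≤ _ := by
          refine Real.exp_le_exp.2 ?_
          push_cast
          have a1 : x ≤ k0 * (x + y) := by nlinarith
          have a2 : (m : ℝ) ≤ m * (k0 * (x + y)) :=
            le_mul_of_one_le_right (Nat.cast_nonneg m) (h1.trans a1)
          have a3 : (2 : ℝ) ^ r * (k0 * (x + (x + y))) ≤ 2 ^ r * (2 * (k0 * (x + y))) :=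
            mul_le_mul_of_nonneg_left (by nlinarith) (by positivity)
          nlinarith
  · choose a φ hφ hψ using hψ
    have h1 := hΔ ψ U γ δ hδ.le hE
    have hG : (0 : ℝ) < Fintype.card (T → S.A) := by exact_mod_cast Fintype.card_pos
    rw [cnt, Fintype.sum_prod_type] at h1
    obtain ⟨w, -, hw⟩ := exists_le_of_sum_le (s := univ) univ_nonempty
      (f := fun _ : S.A => δ ^ 2 ^ r * (Fintype.card (T → S.A) : ℝ)) (le_of_eq_of_le (by
        rw [sum_const, card_univ, nsmul_eq_mul]; ring) h1)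
    obtain ⟨s, u, hs⟩ := hpop S.A (fun _ => ((Fintype.card S.A : ℝ))⁻¹) e 0 w
      (fun J => γ w + Δ J (fun t => ψ (J t)) w) U γ
      ⟨fun _ => by positivity, by simp⟩ le_rfl (by simp) (GamL.col e he) (by
        simp only [GamL.wt_unif, ← mul_sum]
        rw [← div_eq_inv_mul, le_div_iff₀ hG]
        simpa only [sub_eq_iff_eq_add'] using hw)
    refine ⟨F (w, γ w, u, fun t j => (s t j, a (s t j), ⟨φ (s t j), hφ _⟩)),
      mem_image_of_mem _ (mem_univ _), ?_⟩
    obtain rfl : ψ = fun h z => φ h (z - a h) := funext hψ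
    exact hs

end Pool.Agent.MP_154433_an.T7

end

end PkGam

section PkLoop

/-! Removal of the predicted pieces for the second frequency. -/

set_option autoImplicit false

open Finset

noncomputable section

namespace Pool.Agent.MP_154433_an.T7

namespace LoopL

theorem four {P : Type} [Fintype P] (c u : P → ℂ) (W : Set P) (hu : ∀ p, ‖u p‖ ≤ 1)
    (hW : ∀ p, p ∉ W → u p = 0) {t : ℝ} (h : ∀ E ⊆ W, ‖∑ p, one E p * c p‖ ≤ t) :
    ‖∑ p, u p * c p‖ ≤ 4 * t := by
  have key : ∀ ω : ℂ, ‖ω‖ = 1 → ∑ p, oi (p ∈ W) * max (ω * c p).re 0 ≤ t := by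
    intro ω hω
    have h1 := h {p | p ∈ W ∧ 0 ≤ (ω * c p).re} fun p hp => hp.1
    rw [← one_mul ‖_‖, ← hω, ← norm_mul] at h1
    refine le_trans (le_of_eq ?_) ((Complex.re_le_norm _).trans h1)
    rw [mul_sum, Complex.re_sum]
    refine sum_congr rfl fun p _ => ?_
    rw [mul_left_comm, one, Complex.re_ofReal_mul]
    simp only [oi, Set.mem_ofPred_eq]
    by_cases h2 : p ∈ W <;> by_cases h3 : 0 ≤ (ω * c p).re
    · rw [if_pos h2, if_pos ⟨h2, h3⟩, max_eq_left h3]
    · rw [if_pos h2, if_neg fun a => h3 a.2, max_eq_right (not_le.1 h3).le, mul_zero, zero_mul]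
    · rw [if_neg h2, if_neg fun a => h2 a.1, zero_mul, zero_mul]
    · rw [if_neg h2, if_neg fun a => h2 a.1, zero_mul, zero_mul]
  have h1 := key 1 (by simp)
  have h2 := key (-1) (by simp)
  have h3 := key Complex.I (by simp)
  have h4 := key (-Complex.I) (by simp)
  have h5 := add_le_add (add_le_add h1 h2) (add_le_add h3 h4)
  simp only [← sum_add_distrib] at h5
  refine (norm_sum_le _ _).trans (le_trans (sum_le_sum fun p _ => ?_) (h5.trans (by linarith)))
  by_cases hp : p ∈ W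
  · have a1 : ‖u p * c p‖ ≤ ‖c p‖ := by
      rw [norm_mul]
      exact mul_le_of_le_one_left (norm_nonneg _) (hu p)
    have a2 := Complex.norm_le_abs_re_add_abs_im (c p)
    simp only [oi, if_pos hp, one_mul, neg_mul, Complex.neg_re, Complex.I_mul_re, neg_neg]
    rw [max_zero_add_max_neg_zero_eq_abs_self, add_comm (max _ _),
      max_zero_add_max_neg_zero_eq_abs_self]
    linarith
  · simp [oi, hp, hW p hp]

variable (S : St)

def cf (v : S.I → ℝ) (G : S.A → S.A → ℂ) (ξ : S.A → S.Θ) (θ : S.Θ) (p : S.A × S.A) : ℂ :=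
  ∑ i, (v i : ℂ) * (G p.1 (p.2 - S.ι i) * S.χ i (ξ (p.2 - S.ι i)) * S.χ i θ)

theorem rep (v : S.I → ℝ) (G u : S.A → S.A → ℂ) (ξ γ : S.A → S.Θ) :
    S.form2 v G u ξ γ = ∑ p : S.A × S.A, u p.1 p.2 * cf S v G ξ (γ (p.1 + p.2)) p := by
  rw [St.form2, Fintype.sum_prod_type]
  refine sum_congr rfl fun a _ => ?_
  simp only [cf, mul_sum]
  refine sum_comm.trans (Eq.trans ?_ sum_comm)
  refine sum_congr rfl fun i _ => ?_
  refine Fintype.sum_equiv (Equiv.addRight (S.ι i)) _ _ fun m => ?_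
  simp only [Equiv.coe_addRight, add_sub_cancel_right, add_assoc]
  ring

theorem cf_sub (v w : S.I → ℝ) (G : S.A → S.A → ℂ) (ξ : S.A → S.Θ) (θ : S.Θ) (p : S.A × S.A) :
    cf S (v - w) G ξ θ p = cf S v G ξ θ p - cf S w G ξ θ p := by
  simp only [cf, ← sum_sub_distrib, Pi.sub_apply, Complex.ofReal_sub, sub_mul]

end LoopL

open LoopL Classical in
theorem loop : LoopS := by
  intro S π π' 𝓠 δ δ' τ hδ hδ' hτ h1 h2 hQ G u ξ γ hG hu
  have hn : 0 < S.n := Nat.cast_pos.2 Fintype.card_pos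
  have main : ∀ (U : Finset S.A) (u : S.A → S.A → ℂ), B2 u → (∀ a z, a + z ∉ U → u a z = 0) →
      ‖S.form2 (π - π') G u ξ γ‖ ≤ 8 * δ * S.n ^ 2 + τ / δ' * S.n * U.card := by
    intro U
    induction U using Finset.strongInduction with
    | H U ih =>
    intro u hu hU
    by_cases hc : ∃ ψ ∈ 𝓠, δ' * S.n ≤ cnt fun z => z ∈ (U : Set S.A) ∧ γ z = ψ z
    · obtain ⟨ψ, hψ, hV⟩ := hc
      set V := U.filter fun z => γ z = ψ z with hVd
      have e1 : cnt (fun z => z ∈ (U : Set S.A) ∧ γ z = ψ z) = V.card := by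
        have : ∀ z, oi (z ∈ (U : Set S.A) ∧ γ z = ψ z) = if z ∈ V then 1 else 0 := fun z => by
          simp only [oi, hVd, mem_filter, mem_coe]
        simp only [cnt, this]
        simp
      rw [e1] at hV
      have hVU : V ⊆ U := filter_subset _ _
      have hne : V.Nonempty := card_pos.1 (Nat.cast_pos.1 ((mul_pos hδ' hn).trans_le hV))
      have b1 : B2 fun a z => if a + z ∈ V then u a z else 0 := fun a z => by
        dsimp only
        split_ifs
        exacts [hu a z, by simp]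
      have b2 : B2 fun a z => if a + z ∈ V then 0 else u a z := fun a z => by
        dsimp only
        split_ifs
        exacts [by simp, hu a z]
      have i1 := hQ ψ hψ G _ ξ hG b1
      have i2 := ih (U \ V) (sdiff_ssubset hVU hne) _ b2 fun a z h => by
        split_ifs with h'
        exacts [rfl, hU a z fun h'' => h (mem_sdiff.2 ⟨h'', h'⟩)]
      have e2 : S.form2 (π - π') G u ξ γ =
          S.form2 (π - π') G (fun a z => if a + z ∈ V then u a z else 0) ξ ψ +
          S.form2 (π - π') G (fun a z => if a + z ∈ V then 0 else u a z) ξ γ := by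
        simp only [rep, ← sum_add_distrib]
        refine sum_congr rfl fun p _ => ?_
        split_ifs with h
        · rw [(mem_filter.1 h).2, zero_mul, add_zero]
        · rw [zero_mul, zero_add]
      have e3 : ((U \ V).card : ℝ) + V.card = U.card := by
        exact_mod_cast card_sdiff_add_card_eq_card hVU
      have e4 : τ * S.n ^ 2 ≤ τ / δ' * S.n * V.card := by
        calc τ * S.n ^ 2 = τ / δ' * S.n * (δ' * S.n) := by field_simp
          _ ≤ _ := mul_le_mul_of_nonneg_left hV (by positivity)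
      rw [e2, ← e3]
      refine (norm_add_le _ _).trans ?_
      linarith
    · have small : ∀ v, S.PredG v 𝓠 δ δ' → ‖S.form2 v G u ξ γ‖ ≤ 4 * (δ * S.n ^ 2) := by
        intro v hv
        rw [rep]
        refine four _ (fun p : S.A × S.A => u p.1 p.2) {p | p.1 + p.2 ∈ U} (fun p => hu _ _)
          (fun p hp => hU _ _ hp) fun E hE => ?_
        by_contra h
        refine hc (hv G E ξ γ U hG (fun p hp => hE hp) ?_)
        rw [rep]
        exact (not_le.1 h).le
      have e2 : S.form2 (π - π') G u ξ γ = S.form2 π G u ξ γ - S.form2 π' G u ξ γ := by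
        simp only [rep, cf_sub, mul_sub, sum_sub_distrib]
      have e3 : 0 ≤ τ / δ' * S.n * U.card := by positivity
      rw [e2]
      refine (norm_sub_le _ _).trans ?_
      linarith [small π h1, small π' h2]
  refine (main univ u hu fun a z h => absurd (mem_univ _) h).trans (le_of_eq ?_)
  rw [card_univ, St.n]
  ring

end Pool.Agent.MP_154433_an.T7

end

end PkLoop

section PkRefl

/-! Row Refl: the two-parameter form is a sum of reflected forms. -/

set_option autoImplicit false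

open Finset
open scoped BigOperators

namespace Pool.Agent.MP_154433_an.T7

theorem refl : ReflS := by
  intro S v γ τ h G u ξ hG hu
  have e : S.form2 v G u ξ γ = ∑ a, S.form v (fun y => u a (-y)) (fun z => G a (-z))
      (S.tw (fun z => ξ (-z)) fun y i => S.χ i (γ (a - y))) := by
    refine sum_congr rfl fun a _ => ?_
    rw [St.form, sum_comm, sum_comm (γ := S.A)]
    refine sum_congr rfl fun i _ =>
      Fintype.sum_equiv ((Equiv.addRight (S.ι i)).trans (Equiv.neg _)) _ _ fun m => ?_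
    simp only [St.tw, Equiv.trans_apply, Equiv.coe_addRight, Equiv.neg_apply, neg_neg, neg_add_rev,
      add_assoc, add_comm (-m) (S.ι i), neg_add_cancel_left, sub_eq_add_neg]
    ring
  rw [e]
  refine (norm_sum_le _ _).trans ((sum_le_sum fun a _ =>
    h a _ _ _ (fun y => hu a _) fun z => hG a _).trans_eq ?_)
  rw [sum_const, card_univ, nsmul_eq_mul, St.n]
  ring

end Pool.Agent.MP_154433_an.T7

end PkRefl

section PkFin

/-! The finite part for pairs: the outer and the inner removal loops are glued. -/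

set_option autoImplicit false

open Finset
open scoped BigOperators

noncomputable section

namespace Pool.Agent.MP_154433_an.T7

namespace FinL

theorem ok_mono {S : St} {π : S.I → ℝ} {B η η' C : ℝ} {t k : ℕ} (h : S.Ok π B η C t k)
    (hη : η ≤ η') : S.Ok π B η' C t k :=
  ⟨h.1, fun z hz => h.2.1 z (hη.trans hz), h.2.2⟩

theorem b2_tw {S : St} {c : S.A → S.I → ℂ} (h : B2 c) (φ : S.A → S.Θ) : B2 (S.tw φ c) :=
  fun y i => by
    rw [St.tw, norm_mul, AddChar.norm_apply, one_mul]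
    exact h y i

theorem size {k x Ca Cb Cg : ℝ} (e1 e2 : ℕ) (hk : 1 ≤ k) (hx : 1 ≤ x) (ha : 0 ≤ Ca)
    (hb : 0 ≤ Cb) (hg : 0 ≤ Cg) :
    Cg * (k * (x + Ca * (k * x ^ e1))) + x + Cb * (k * x ^ e2) ≤
      (Cg * (1 + Ca) + 1 + Cb) * (k ^ 2 * x ^ (e1 + e2 + 1)) := by
  have h0 : x ≤ x ^ (e1 + e2 + 1) := le_self_pow₀ hx (by omega)
  have h1 : x ^ e1 ≤ x ^ (e1 + e2 + 1) := pow_le_pow_right₀ hx (by omega)
  have h2 : x ^ e2 ≤ x ^ (e1 + e2 + 1) := pow_le_pow_right₀ hx (by omega)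
  have hk2 : k ≤ k ^ 2 := le_self_pow₀ hk (by omega)
  generalize x ^ (e1 + e2 + 1) = y at *
  have p1 : 0 ≤ x ^ e1 := by positivity
  have p2 : 0 ≤ x ^ e2 := by positivity
  have a0 : k * x ≤ k ^ 2 * y := by gcongr
  have a1 : k ^ 2 * x ^ e1 ≤ k ^ 2 * y := by gcongr
  have a2 : k * x ^ e2 ≤ k ^ 2 * y := by gcongr
  have a3 : x ≤ k * x := le_mul_of_one_le_left (by linarith) hk
  have b1 := mul_le_mul_of_nonneg_left a0 hg
  have b2 := mul_le_mul_of_nonneg_left a1 (mul_nonneg hg ha)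
  have b3 := mul_le_mul_of_nonneg_left a2 hb
  nlinarith

end FinL

open FinL in
theorem fin (hPred : PredS) (hSt : StS) (hCsg : CsgS) (hGam : GamS) (hLoop : LoopS)
    (hRefl : ReflS) : FinS := by
  classical
  intro δ B C1 r hδ hC1
  obtain ⟨η1, hη1, h1⟩ := hPred ((δ / 16) ^ 2 / 2) (by positivity) B
  obtain ⟨δ1, Ca, e1, hδ1, hCa, h1⟩ := h1 C1 r hC1
  obtain ⟨δ', Cg, hδ', hCg, hG⟩ := hGam ((δ / 16) ^ 2 / 2 * δ1) (by positivity) r
  obtain ⟨η2, hη2, h2⟩ := hPred (δ * δ' / 2 / 16) (by positivity) B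
  obtain ⟨δ2, Cb, e2, hδ2, hCb, h2⟩ := h2 C1 r hC1
  refine ⟨min η1 η2, δ * δ' / 2 * δ2 / 2, Cg * (1 + Ca) + 1 + Cb, e1 + e2 + 1, lt_min hη1 hη2,
    by positivity, by positivity, fun S x k0 hx hk hn => ?_⟩
  have hx0 : 0 ≤ x := zero_le_one.trans hx.1
  obtain ⟨H1, c1, p1⟩ := h1 S x (fun _ _ => 1) k0 hx (fun _ _ => by simp) hk hn
  obtain ⟨Q, cQ, pQ⟩ := hG S x _ H1 k0 hx (by positivity) c1 hk hn
  have hb : ∀ p : (S.A → S.Θ) × S.A, B2 fun y i => S.χ i (p.1 (p.2 - y)) :=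
    fun p y i => (AddChar.norm_apply _ _).le
  choose H cH pH using fun p : (S.A → S.Θ) × S.A => h2 S x _ k0 hx (hb p) hk hn
  refine ⟨(Q ×ˢ univ).biUnion fun p => (H p).image fun φ => S.tw φ fun y i => S.χ i (p.1 (p.2 - y)),
    fun c hc => ?_, ?_, fun π π' o o' hop => ?_⟩
  · obtain ⟨p, -, hc⟩ := mem_biUnion.1 hc
    obtain ⟨φ, -, rfl⟩ := mem_image.1 hc
    exact b2_tw (hb p) φ
  · refine le_trans ?_ (Real.exp_le_exp.2 (size e1 e2 (by exact_mod_cast hk) hx.1 hCa hCb hCg))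
    refine (Nat.cast_le.2 card_biUnion_le).trans ?_
    rw [Nat.cast_sum, Real.exp_add, Real.exp_add]
    refine (sum_le_card_nsmul _ _ _ fun p _ => (Nat.cast_le.2 card_image_le).trans (cH p)).trans ?_
    rw [nsmul_eq_mul, card_product, Nat.cast_mul, card_univ]
    gcongr
    exact hx.2.1
  · have pg : ∀ π, S.Ok π B (min η1 η2) C1 (2 ^ r) k0 → S.PredG π Q (δ / 16) δ' := by
      intro π o G E ξ γ U hG hE hl
      obtain ⟨ψ, hψ, he⟩ := hCsg S π H1 (δ / 16) δ1 o.1 (by positivity) hδ1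
        (p1 π (ok_mono o (min_le_left _ _))) G E ξ γ U hG hE hl
      exact pQ ψ U γ hψ he
    have e : δ = 8 * (δ / 16) + δ * δ' / 2 / δ' := by field_simp; ring
    intro G u ξ γ hG hu
    conv_rhs => rw [e]
    refine hLoop S π π' Q _ δ' _ (by positivity) hδ' (by positivity) (pg π o) (pg π' o')
      (fun ψ hψ => hRefl S _ ψ _ fun a φ => ?_) G u ξ γ hG hu
    have e2 : δ * δ' / 2 = 8 * (δ * δ' / 2 / 16) + δ * δ' / 2 * δ2 / 2 / δ2 := by
      field_simp; ring
    rw [e2]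
    exact hSt S π π' _ (H (ψ, a)) _ δ2 _ (by positivity) hδ2 (by positivity)
      (pH _ π (ok_mono o (min_le_right _ _))) (pH _ π' (ok_mono o' (min_le_right _ _)))
      (fun φ' hφ' => hop _ (mem_biUnion.2 ⟨(ψ, a), mem_product.2 ⟨hψ, mem_univ _⟩,
        mem_image_of_mem _ hφ'⟩)) φ

end Pool.Agent.MP_154433_an.T7

end

end PkFin

section PkEmb

set_option autoImplicit false
set_option linter.unusedVariables false

open MeasureTheory ProbabilityTheory Filter Topology Function Finset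
open scoped BigOperators ComplexConjugate

noncomputable section

namespace Pool.Agent.MP_154433_an.T7

namespace EmbL

lemma norm_ee (a : ℝ) : ‖ee a‖ = 1 := Complex.norm_exp_ofReal_mul_I _

lemma ee_add (a b : ℝ) : ee (a + b) = ee a * ee b := by
  simp only [ee, ← Complex.exp_add]
  congr 1
  push_cast
  ring

lemma ee_sub (a b : ℝ) : ‖ee a - ee b‖ ≤ 2 * Real.pi * |a - b| := by
  have e : ee a - ee b = ee b * (ee (a - b) - 1) := by
    rw [mul_sub, ← ee_add, mul_one, add_sub_cancel]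
  rw [e, norm_mul, norm_ee, one_mul, ee, mul_comm _ Complex.I]
  refine Real.norm_exp_I_mul_ofReal_sub_one_le.trans (le_of_eq ?_)
  rw [Real.norm_eq_abs, abs_mul, abs_of_nonneg (by positivity)]

lemma sum_val (N : ℕ) [NeZero N] (g : ℕ → ℂ) :
    ∑ a : ZMod N, g a.val = ∑ n ∈ range N, g n := by
  obtain ⟨k, rfl⟩ := Nat.exists_eq_succ_of_ne_zero (NeZero.ne N)
  exact Fin.sum_univ_eq_sum_range g (k + 1)

lemma sum_cut (L : ℕ) [NeZero L] (g : ℕ → ℂ) :
    ∑ a : ZMod (3 * L), (if a.val < L then g a.val else 0) = ∑ n ∈ range L, g n := by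
  rw [sum_val (3 * L) fun n => if n < L then g n else 0, ← sum_filter]
  congr 1
  ext n
  simp only [mem_filter, mem_range]
  omega

lemma chi (L Q : ℕ) [NeZero L] [NeZero Q] (i : Fin L) (z : ℤ) :
    (st L Q).χ i (z : ZMod (L * Q)) = ee ((i : ℕ) * ((z : ℝ) / (L * Q))) := by
  change ZMod.stdAddChar (((i : ℕ) : ZMod (L * Q)) * (z : ZMod (L * Q))) = _
  rw [← Int.cast_natCast (R := ZMod (L * Q)), ← Int.cast_mul, ZMod.stdAddChar_coe, ee]
  congr 1
  push_cast
  ring

lemma rnd {L Q : ℕ} (hL : 0 < L) (hQ : 0 < Q) {d : ℕ} (hd : d < L) (x : ℝ) :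
    |d * x - d * ((⌊x * (L * Q)⌋ : ℝ) / (L * Q))| ≤ 1 / Q := by
  have l0 : (0 : ℝ) < L := by exact_mod_cast hL
  have q0 : (0 : ℝ) < Q := by exact_mod_cast hQ
  have d1 : (d : ℝ) ≤ L := by exact_mod_cast hd.le
  have e : d * x - d * ((⌊x * (L * Q)⌋ : ℝ) / (L * Q)) = d / L * Int.fract (x * (L * Q)) / Q := by
    rw [Int.fract]
    field_simp
  rw [e, abs_of_nonneg (div_nonneg (mul_nonneg (by positivity) (Int.fract_nonneg _)) q0.le)]
  exact div_le_div_of_nonneg_right (mul_le_one₀ ((div_le_one l0).2 d1) (Int.fract_nonneg _)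
    (Int.fract_lt_one _).le) q0.le

end EmbL

open EmbL in
theorem emb : EmbS := by
  rintro L Q _ _ v τ h α ⟨G, u, ξ, γ, hG, hu, hα⟩
  have hL := NeZero.pos L
  have hQ := NeZero.pos Q
  have l0 : (0 : ℝ) < L := by exact_mod_cast hL
  have q0 : (0 : ℝ) < Q := by exact_mod_cast hQ
  let r : ℝ → ℝ := fun x => (⌊x * (L * Q)⌋ : ℝ) / (L * Q)
  let β : ℕ → ℕ → ℕ → ℂ := fun n m d =>
    G n m * u n (m + d) * ee (d * r (ξ m) + d * r (γ (n + m + d)))
  have h1 := h (fun a m : ZMod (3 * L) => if a.val < L then (if m.val < L then G a.val m.val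
      else 0) else 0) (fun a z : ZMod (3 * L) => u a.val z.val)
    (fun m : ZMod (3 * L) => ((⌊ξ m.val * (L * Q)⌋ : ℤ) : ZMod (L * Q)))
    (fun m : ZMod (3 * L) => ((⌊γ m.val * (L * Q)⌋ : ℤ) : ZMod (L * Q)))
    (fun a m => by
      dsimp only
      split_ifs
      · exact hG _ _
      · simp
      · simp) (fun a z => hu _ _)
  have e1 : (st L Q).form2 v (fun a m : ZMod (3 * L) => if a.val < L then (if m.val < L then
      G a.val m.val else 0) else 0) (fun a z : ZMod (3 * L) => u a.val z.val)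
      (fun m : ZMod (3 * L) => ((⌊ξ m.val * (L * Q)⌋ : ℤ) : ZMod (L * Q)))
      (fun m : ZMod (3 * L) => ((⌊γ m.val * (L * Q)⌋ : ℤ) : ZMod (L * Q))) =
      ∑ n ∈ range L, ∑ m ∈ range L, ∑ d : Fin L, (v d : ℂ) * β n m d := by
    rw [← sum_cut]
    refine sum_congr rfl fun (a : ZMod (3 * L)) _ => ?_
    by_cases ha : a.val < L
    swap
    · simp [ha]
    rw [if_pos ha, ← sum_cut]
    refine sum_congr rfl fun (m : ZMod (3 * L)) _ => ?_
    by_cases hm : m.val < L
    swap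
    · simp [hm]
    rw [if_pos hm]
    refine sum_congr rfl fun (d : Fin L) _ => ?_
    have hd := d.2
    have v0 : (((d : ℕ) : ZMod (3 * L))).val = d := ZMod.val_cast_of_lt (by omega)
    have v1 : (m + ((d : ℕ) : ZMod (3 * L))).val = m.val + d := by
      rw [ZMod.val_add_of_lt (by omega), v0]
    have v2 : (a + m).val = a.val + m.val := ZMod.val_add_of_lt (by omega)
    have v3 : (a + m + ((d : ℕ) : ZMod (3 * L))).val = a.val + m.val + d := by
      rw [ZMod.val_add_of_lt (by omega), v0, v2]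
    rw [chi, chi]
    change (v d : ℂ) * ((if a.val < L then (if m.val < L then G a.val m.val else 0) else 0) *
      u a.val (m + ((d : ℕ) : ZMod (3 * L))).val * _ *
      ee (_ * ((⌊γ (a + m + ((d : ℕ) : ZMod (3 * L))).val * (L * Q)⌋ : ℝ) / _))) = _
    rw [if_pos ha, if_pos hm, v1, v3, mul_assoc (_ * _), ← ee_add]
  have e2 : (st L Q).n = 3 * L := by
    change ((Fintype.card (ZMod (3 * L)) : ℕ) : ℝ) = _
    rw [ZMod.card]
    push_cast
    rfl
  rw [e1, e2] at h1
  have e3 : ∑ d : Fin L, (v d : ℂ) * win L β d =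
      (∑ n ∈ range L, ∑ m ∈ range L, ∑ d : Fin L, (v d : ℂ) * β n m d) / L / L := by
    simp only [win, expect_eq_sum_div_card, card_range, sum_div, mul_sum]
    rw [sum_comm]
    refine sum_congr rfl fun n _ => ?_
    rw [sum_comm]
    exact sum_congr rfl fun m _ => sum_congr rfl fun d _ => by ring
  have h2 : ‖∑ d : Fin L, (v d : ℂ) * win L β d‖ ≤ 9 * τ := by
    rw [e3, norm_div, norm_div, Complex.norm_natCast, div_div, div_le_iff₀ (by positivity)]
    linarith
  have h3 : ∀ d : Fin L, ‖win L α d - win L β d‖ ≤ 13 / Q := fun d => by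
    simp only [win, ← expect_sub_distrib]
    refine T3S.norm_exp_le_of (by positivity) fun n _ =>
      T3S.norm_exp_le_of (by positivity) fun m _ => ?_
    rw [hα, ← mul_sub, norm_mul, norm_mul]
    refine (mul_le_of_le_one_left (norm_nonneg _)
      (mul_le_one₀ (hG _ _) (norm_nonneg _) (hu _ _))).trans ((ee_sub _ _).trans ?_)
    rw [add_sub_add_comm]
    have a1 := (abs_add_le _ _).trans
      (add_le_add (rnd hL hQ d.2 (ξ m)) (rnd hL hQ d.2 (γ (n + m + d))))
    refine (mul_le_mul_of_nonneg_left a1 (by positivity)).trans ?_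
    rw [← add_div, ← mul_div_assoc]
    exact div_le_div_of_nonneg_right (by linarith [Real.pi_lt_d2]) q0.le
  have e4 : ∑ d : Fin L, (v d : ℂ) * win L α d = ∑ d : Fin L, (v d : ℂ) * win L β d +
      ∑ d : Fin L, (v d : ℂ) * (win L α d - win L β d) := by
    rw [← sum_add_distrib]
    exact sum_congr rfl fun d _ => by ring
  rw [e4, mul_sum]
  refine (norm_add_le _ _).trans (add_le_add h2 ((norm_sum_le _ _).trans (sum_le_sum fun d _ => ?_)))
  rw [norm_mul, Complex.norm_real, Real.norm_eq_abs, mul_comm]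
  exact mul_le_mul_of_nonneg_right (h3 d) (abs_nonneg _)

end Pool.Agent.MP_154433_an.T7

end

end PkEmb

section PkOk

/-! Row Ok: a weight with Fourier coefficients close to those of a flat weight is admissible. -/

set_option autoImplicit false

open Finset
open scoped BigOperators ComplexConjugate

noncomputable section

namespace Pool.Agent.MP_154433_an.T7

namespace OkL

open Classical in
theorem pars {X Θ K : Type} [Fintype X] [Fintype Θ] (w : X → ℝ) (s : X → K) (c : K → Θ → ℂ)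
    (N : ℝ) (h : ∀ a b, ∑ θ, c a θ * conj (c b θ) = if a = b then (N : ℂ) else 0) :
    ∑ θ, ‖∑ x, (w x : ℂ) * c (s x) θ‖ ^ 2 = N * ∑ x, ∑ x', w x * w x' * oi (s x = s x') := by
  have e : ∀ θ, ((‖∑ x, (w x : ℂ) * c (s x) θ‖ ^ 2 : ℝ) : ℂ) =
      ∑ x, ∑ x', (w x * w x' : ℂ) * (c (s x) θ * conj (c (s x') θ)) := by
    intro θ
    rw [Complex.ofReal_pow, ← Complex.mul_conj', map_sum, sum_mul_sum]
    refine sum_congr rfl fun x _ => sum_congr rfl fun x' _ => ?_
    rw [map_mul, Complex.conj_ofReal]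
    ring
  apply Complex.ofReal_injective
  rw [Complex.ofReal_sum, sum_congr rfl fun θ _ => e θ, sum_comm]
  push_cast
  rw [mul_sum]
  refine sum_congr rfl fun x _ => ?_
  rw [sum_comm, mul_sum]
  refine sum_congr rfl fun x' _ => ?_
  rw [← mul_sum, h]
  unfold oi
  split_ifs <;> simp [mul_comm]

open Classical in
theorem orthA {A : Type} [AddCommGroup A] [Fintype A] (a b : A) :
    ∑ ψ : AddChar A ℂ, ψ a * conj (ψ b) =
      if a = b then ((Fintype.card A : ℝ) : ℂ) else 0 := by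
  simp only [← AddChar.map_neg_eq_conj, ← AddChar.map_add_eq_mul, ← sub_eq_add_neg,
    AddChar.sum_apply_eq_ite, sub_eq_zero, Complex.ofReal_natCast]

open Classical in
theorem orthZ {N : ℕ} [NeZero N] (a b : ZMod N) :
    ∑ θ : ZMod N, ZMod.stdAddChar (a * θ) * conj (ZMod.stdAddChar (b * θ)) =
      if a = b then ((N : ℝ) : ℂ) else 0 := by
  have h := AddChar.sum_mulShift (a - b) (ZMod.isPrimitive_stdAddChar N)
  have e : ∀ θ : ZMod N, ZMod.stdAddChar (a * θ) * conj (ZMod.stdAddChar (b * θ)) =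
      ZMod.stdAddChar (θ * (a - b)) := fun θ => by
    rw [← AddChar.map_neg_eq_conj, ← AddChar.map_add_eq_mul]
    congr 1
    ring
  rw [sum_congr rfl fun θ _ => e θ, h]
  by_cases hab : a = b
  · simp [hab]
  · simp [hab, sub_eq_zero]

theorem diag {L N : ℕ} (hN : L ≤ N) (w : Fin L → ℝ) (hw : PV w) (h2 : ∀ i, w i * L ≤ 2) :
    (L : ℝ) * ∑ i, ∑ j, w i * w j * oi (((i : ℕ) : ZMod N) = ((j : ℕ) : ZMod N)) ≤ 2 := by
  have e : ∀ i : Fin L, ∑ j : Fin L, w i * w j * oi (((i : ℕ) : ZMod N) = ((j : ℕ) : ZMod N)) =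
      w i * w i := by
    intro i
    rw [sum_eq_single i]
    · simp [oi]
    · intro j _ hj
      have : ¬ (((i : ℕ) : ZMod N) = ((j : ℕ) : ZMod N)) := fun h => hj (Fin.ext
        (Nat.ModEq.eq_of_lt_of_lt ((ZMod.natCast_eq_natCast_iff _ _ _).1 h)
          (i.2.trans_le hN) (j.2.trans_le hN)).symm)
      simp [oi, this]
    · simp
  rw [sum_congr rfl fun i _ => e i, mul_sum]
  calc ∑ i, (L : ℝ) * (w i * w i) ≤ ∑ i, 2 * w i :=
        sum_le_sum fun i _ => by nlinarith [h2 i, hw.1 i]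
    _ = 2 := by rw [← mul_sum, hw.2, mul_one]

theorem near {I : Type} [Fintype I] (π π' : I → ℝ) (c : I → ℂ) {ρ : ℝ}
    (h : ‖∑ i, ((π i - π' i : ℝ) : ℂ) * c i‖ ≤ ρ) :
    ‖∑ i, (π i : ℂ) * c i‖ ≤ ‖∑ i, (π' i : ℂ) * c i‖ + ρ := by
  have e : ∑ i, (π i : ℂ) * c i = ∑ i, (π' i : ℂ) * c i + ∑ i, ((π i - π' i : ℝ) : ℂ) * c i := by
    rw [← sum_add_distrib]
    exact sum_congr rfl fun i _ => by push_cast; ring
  rw [e]
  exact (norm_add_le _ _).trans (by linarith)

theorem pw {a b ρ : ℝ} (ha : 0 ≤ a) (hb : 0 ≤ b) (hb1 : b ≤ 1) (hρ : 0 ≤ ρ) (h : a ≤ b + ρ)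
    {j t : ℕ} (hj : 1 ≤ j) (ht : j ≤ t) : (a ^ j) ^ 2 ≤ 4 ^ t * b ^ 2 + (4 * ρ ^ 2) ^ j := by
  rw [← pow_mul, mul_comm j 2, pow_mul]
  rcases le_total b ρ with h1 | h1
  · have : (a ^ 2) ^ j ≤ (4 * ρ ^ 2) ^ j := pow_le_pow_left₀ (by positivity) (by nlinarith) j
    have : (0 : ℝ) ≤ 4 ^ t * b ^ 2 := by positivity
    linarith
  · have h2 : (a ^ 2) ^ j ≤ (4 * b ^ 2) ^ j := pow_le_pow_left₀ (by positivity) (by nlinarith) j
    have h3 : (b ^ 2) ^ j ≤ b ^ 2 :=
      pow_le_of_le_one (by positivity) (by nlinarith) (by omega)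
    have h4 : (4 : ℝ) ^ j ≤ 4 ^ t := pow_le_pow_right₀ (by norm_num) ht
    have h5 : (0 : ℝ) ≤ (4 * ρ ^ 2) ^ j := by positivity
    rw [mul_pow] at h2
    have := mul_le_mul h4 h3 (by positivity) (by positivity)
    linarith

theorem map_sum' {A T : Type} [AddCommGroup A] [DecidableEq T] (ψ : AddChar A ℂ) (F : Finset T)
    (f : T → A) : ψ (∑ t ∈ F, f t) = ∏ t ∈ F, ψ (f t) := by
  induction F using Finset.induction_on with
  | empty => simp
  | insert a s ha ih => rw [sum_insert ha, prod_insert ha, AddChar.map_add_eq_mul, ih]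

theorem fac {A I T : Type} [AddCommGroup A] [Fintype I] [Fintype T] [DecidableEq T]
    (ψ : AddChar A ℂ) (F : Finset T) (π : I → ℝ) (hπ : PV π) (ι : I → A) :
    ∑ J : T → I, (wt π J : ℂ) * ψ (∑ t ∈ F, ι (J t)) = (∑ i, (π i : ℂ) * ψ (ι i)) ^ F.card := by
  have e := Fintype.prod_sum fun (t : T) (i : I) => (π i : ℂ) * if t ∈ F then ψ (ι i) else 1
  have e1 : ∀ t : T, ∑ i, (π i : ℂ) * (if t ∈ F then ψ (ι i) else 1) =
      if t ∈ F then ∑ i, (π i : ℂ) * ψ (ι i) else 1 := by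
    intro t
    split_ifs
    · rfl
    · simp only [mul_one]
      exact_mod_cast hπ.2
  rw [prod_congr rfl fun t _ => e1 t, Fintype.prod_ite_mem, prod_const] at e
  rw [e]
  refine sum_congr rfl fun J _ => ?_
  rw [prod_mul_distrib, Fintype.prod_ite_mem, map_sum', wt, Complex.ofReal_prod]

end OkL

open OkL in
theorem ok : OkS := by
  intro L Q _ _ t k0 π π' ρ η0 hπ hπ' h2 hρ hη h3 h4 h5 h6
  have hL : (0 : ℝ) < L := Nat.cast_pos.2 (NeZero.pos L)
  refine ⟨hπ, fun η hη' => ?_, 4 * ρ ^ 2, by positivity, h4, fun T _ _ hT F hF => ?_⟩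
  · have hη0 : 0 < η := hη.trans_le hη'
    have p := pars π' (fun i : Fin L => ((i : ℕ) : ZMod (L * Q)))
      (fun a θ => ZMod.stdAddChar (a * θ)) ((L * Q : ℕ) : ℝ) (fun a b => by convert orthZ a b)
    have d := diag (Nat.le_mul_of_pos_right L (NeZero.pos Q)) π' hπ' h2
    have hQ : (0 : ℝ) ≤ Q := Nat.cast_nonneg Q
    calc cnt (fun θ : ZMod (L * Q) => η < ‖∑ i, (π i : ℂ) * (st L Q).χ i θ‖)
        ≤ ∑ θ : ZMod (L * Q), 4 / η ^ 2 * ‖∑ i, (π' i : ℂ) * (st L Q).χ i θ‖ ^ 2 := by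
          refine sum_le_sum fun θ _ => ?_
          unfold oi
          split_ifs with h
          · have := near π π' _ (h5 θ)
            have h7 : η / 2 ≤ ‖∑ i, (π' i : ℂ) * (st L Q).χ i θ‖ := by linarith
            have := pow_le_pow_left₀ (by positivity) h7 2
            rw [div_mul_eq_mul_div, le_div_iff₀ (by positivity)]
            linarith
          · positivity
      _ = 4 / η ^ 2 * (Q * (L * ∑ i, ∑ j, π' i * π' j *
            oi (((i : ℕ) : ZMod (L * Q)) = ((j : ℕ) : ZMod (L * Q))))) := by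
          rw [← mul_sum]
          congr 1
          refine p.trans ?_
          push_cast
          ring
      _ ≤ 4 / η ^ 2 * (Q * 2) := by gcongr
      _ = 8 * Q / η ^ 2 := by ring
  · have hA : (Fintype.card (ZMod (3 * L)) : ℝ) = 3 * L := by simp
    have p := pars (wt π) (fun J : T → Fin L => ∑ t ∈ F, ((J t : ℕ) : ZMod (3 * L)))
      (fun a (ψ : AddChar (ZMod (3 * L)) ℂ) => ψ a) _ (fun a b => by convert orthA a b)
    have p' := pars π' (fun i : Fin L => ((i : ℕ) : ZMod (3 * L)))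
      (fun a (ψ : AddChar (ZMod (3 * L)) ℂ) => ψ a) _ (fun a b => by convert orthA a b)
    have d := diag (by omega : L ≤ 3 * L) π' hπ' h2
    have b : ∑ ψ : AddChar (ZMod (3 * L)) ℂ,
        ‖∑ J : T → Fin L, (wt π J : ℂ) * ψ (∑ t ∈ F, ((J t : ℕ) : ZMod (3 * L)))‖ ^ 2 ≤
        ∑ ψ : AddChar (ZMod (3 * L)) ℂ, (4 ^ t * ‖∑ i : Fin L, (π' i : ℂ) *
          ψ ((i : ℕ) : ZMod (3 * L))‖ ^ 2 + (4 * ρ ^ 2) ^ F.card) := by
      refine sum_le_sum fun ψ _ => ?_
      rw [fac ψ F π hπ fun i : Fin L => ((i : ℕ) : ZMod (3 * L)), norm_pow]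
      refine pw (norm_nonneg _) (norm_nonneg _) ?_ hρ (near π π' _ (h6 ψ)) hF.card_pos
        (hT ▸ card_le_univ F)
      refine (norm_sum_le _ _).trans (le_of_eq (Eq.trans ?_ hπ'.2))
      exact sum_congr rfl fun i _ => by simp [abs_of_nonneg (hπ'.1 i)]
    rw [p, sum_add_distrib, ← mul_sum, p', sum_const, card_univ, AddChar.card_eq, nsmul_eq_mul,
      hA] at b
    have e : ∑ J : T → Fin L, ∑ J' : T → Fin L, wt π J * wt π J' *
        oi (∑ t ∈ F, -((J t : ℕ) : ZMod (3 * L)) = ∑ t ∈ F, -((J' t : ℕ) : ZMod (3 * L))) ≤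
        6 * 4 ^ t / (Fintype.card (ZMod (3 * L)) : ℝ) + (4 * ρ ^ 2) ^ F.card := by
      simp only [sum_neg_distrib, neg_inj]
      rw [hA, div_add' _ _ _ (by positivity), le_div_iff₀ (by positivity)]
      have h8 : (0 : ℝ) ≤ 4 ^ t := by positivity
      nlinarith [mul_le_mul_of_nonneg_left d h8]
    exact e

end Pool.Agent.MP_154433_an.T7

end

end PkOk

section PkDetB

set_option autoImplicit false
set_option linter.unusedVariables false

open MeasureTheory ProbabilityTheory Filter Topology Function Finset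
open scoped BigOperators ComplexConjugate

noncomputable section

namespace Pool.Agent.MP_154433_an.T7

namespace DetBL

variable {I : Type} [Fintype I]

lemma pv_le {π : I → ℝ} (h : PV π) {f : I → ℂ} {b : ℝ} (hf : ∀ i, ‖f i‖ ≤ b) :
    ‖∑ i, (π i : ℂ) * f i‖ ≤ b := by
  refine (norm_sum_le _ _).trans ((sum_le_sum (g := fun i => π i * b) fun i _ => ?_).trans ?_)
  · rw [norm_mul, Complex.norm_real, Real.norm_eq_abs, abs_of_nonneg (h.1 i)]
    exact mul_le_mul_of_nonneg_left (hf i) (h.1 i)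
  · rw [← sum_mul, h.2, one_mul]

lemma split (x s : I → ℝ) {k D : ℝ} (hk : k ≠ 0) (hD : D ≠ 0) (f : I → ℂ) :
    ∑ i, ((x i - s i : ℝ) : ℂ) * f i = (k : ℂ) * ∑ i, ((x i / D - s i / k : ℝ) : ℂ) * f i +
      ((D - k : ℝ) : ℂ) * ∑ i, ((x i / D : ℝ) : ℂ) * f i := by
  have a : (k : ℂ) ≠ 0 := Complex.ofReal_ne_zero.2 hk
  have b : (D : ℂ) ≠ 0 := Complex.ofReal_ne_zero.2 hD
  rw [mul_sum, mul_sum, ← sum_add_distrib]
  refine sum_congr rfl fun i _ => ?_
  push_cast
  field_simp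
  ring

lemma form_eq (S : St) (v : S.I → ℝ) (G W : S.A → ℂ) (c : S.A → S.I → ℂ) :
    S.form v G W c = ∑ i, (v i : ℂ) * ∑ y, G y * W (y + S.ι i) * c y i := by
  rw [St.form, sum_comm]
  exact sum_congr rfl fun i _ => (mul_sum _ _ _).symm

lemma win_le (L : ℕ) {α : ℕ → ℕ → ℕ → ℂ} (h : Atom α) (d : ℕ) : ‖win L α d‖ ≤ 1 := by
  obtain ⟨G, u, ξ, γ, hG, hu, hα⟩ := h
  refine T3S.norm_exp_le_of zero_le_one fun n _ => T3S.norm_exp_le_of zero_le_one fun m _ => ?_
  rw [hα, norm_mul, norm_mul, ee, Complex.norm_exp_ofReal_mul_I, mul_one]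
  exact mul_le_one₀ (hG _ _) (norm_nonneg _) (hu _ _)

end DetBL

open DetBL in
theorem detB (hFin : FinS) (hEmb : EmbS) (hOk : OkS) : DetBS := by
  intro δ r hδ
  obtain ⟨Q, hQ⟩ := exists_nat_gt (104 / δ)
  have q0 : (0 : ℝ) < Q := lt_trans (by positivity) hQ
  have : NeZero Q := ⟨by rintro rfl; simp at q0⟩
  obtain ⟨η0, τ, C, e, h0, hτ, hC, hF⟩ := hFin (δ / 36) (8 * Q) (6 * 4 ^ 2 ^ r) r
    (by positivity) (by positivity)
  refine ⟨Q, this, min (min (η0 / 8) (τ / 4)) (min (δ / 4) (1 / 8)), τ / 2, C, e, by positivity,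
    by positivity, hC, fun L _ x k0 hx hk hb => ?_⟩
  have en : (st L Q).n = 3 * L := by
    change ((Fintype.card (ZMod (3 * L)) : ℕ) : ℝ) = _
    rw [ZMod.card]
    push_cast
    rfl
  obtain ⟨𝓒, c1, c2, c3⟩ := hF (st L Q) x k0 hx hk (by rwa [en])
  refine ⟨𝓒, c1, c2, fun s ω ρ s0 hk0 hfl r0 r1 r2 f1 f2 f3 α hα => ?_⟩
  simp only [le_min_iff] at r1
  obtain ⟨⟨r3, r4⟩, r5, r6⟩ := r1
  set k := ∑ i, s i with hkk
  set D := ∑ i, xb ω i with hDD
  have hDk : |D - k| ≤ ρ * k := by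
    have := f2 0
    simp only [AddChar.zero_apply, mul_one, ← Complex.ofReal_sum, Complex.norm_real,
      Real.norm_eq_abs, sum_sub_distrib] at this
    exact this
  have hD : 0 < D := by nlinarith [(abs_le.1 hDk).1]
  have p1 : PV fun i => xb ω i / D :=
    ⟨fun i => div_nonneg (by unfold xb; split_ifs <;> norm_num) hD.le,
      by rw [← sum_div, div_self hD.ne']⟩
  have p2 : PV fun i => s i / k :=
    ⟨fun i => div_nonneg (s0 i) hk0.le, by rw [← sum_div, div_self hk0.ne']⟩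
  have two : ∀ (f : Fin L → ℂ) (b : ℝ), (∀ i, ‖f i‖ ≤ b) →
      ‖((D - k : ℝ) : ℂ) * ∑ i, ((xb ω i / D : ℝ) : ℂ) * f i‖ ≤ ρ * k * b := fun f b hf => by
    rw [norm_mul, Complex.norm_real, Real.norm_eq_abs]
    exact mul_le_mul hDk (pv_le p1 hf) (norm_nonneg _) (by positivity)
  have fw : ∀ (f : Fin L → ℂ) (b t : ℝ), (∀ i, ‖f i‖ ≤ b) →
      ‖∑ i, ((xb ω i - s i : ℝ) : ℂ) * f i‖ ≤ t * k →
      ‖∑ i, ((xb ω i / D - s i / k : ℝ) : ℂ) * f i‖ ≤ t + ρ * b := fun f b t hf h => by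
    have e1 := eq_sub_of_add_eq (split (xb ω) s hk0.ne' hD.ne' f).symm
    have e2 := (norm_sub_le _ _).trans (add_le_add h (two f b hf))
    rw [← e1, norm_mul, Complex.norm_real, Real.norm_eq_abs, abs_of_pos hk0] at e2
    exact le_of_mul_le_mul_left (e2.trans (le_of_eq (by ring))) hk0
  have fl : ∀ i, s i / k * L ≤ 2 := fun i => by
    rw [div_mul_eq_mul_div, div_le_iff₀ hk0]
    exact hfl i
  have k1 : (k0 : ℝ) * (4 * (2 * ρ) ^ 2) ≤ 1 := by
    have : (0 : ℝ) ≤ k0 * ρ ^ 2 := by positivity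
    linarith
  have o1 := hOk L Q (2 ^ r) k0 _ _ (2 * ρ) η0 p1 p2 fl (by linarith) h0 (by linarith) k1
    (fun θ => (fw _ 1 ρ (fun i => (AddChar.norm_apply _ _).le) (f1 θ)).trans (by linarith))
    (fun ψ => (fw _ 1 ρ (fun i => (AddChar.norm_apply _ _).le) (f2 ψ)).trans (by linarith))
  have o2 := hOk L Q (2 ^ r) k0 _ _ (2 * ρ) η0 p2 p2 fl (by linarith) h0 (by linarith) k1
    (fun θ => by simpa using r0) (fun ψ => by simpa using r0)
  have n0 : 0 ≤ (st L Q).n := Nat.cast_nonneg _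
  have h4 := hEmb L Q _ _ (c3 _ _ o1 o2 fun c hc G W hG hW => by
    have h5 := f3 c hc G W hG hW
    rw [form_eq] at h5 ⊢
    refine (fw _ (st L Q).n (τ / 2 * (st L Q).n) (fun i => ?_)
      (h5.trans (le_of_eq (by ring)))).trans (by nlinarith)
    refine (norm_sum_le _ _).trans ((sum_le_card_nsmul _ _ 1 fun y _ => ?_).trans (by simp [St.n]))
    rw [norm_mul, norm_mul]
    exact mul_le_one₀ (mul_le_one₀ (hG _) (norm_nonneg _) (hW _)) (norm_nonneg _) (c1 c hc _ _))
    α hα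
  change ‖∑ d : Fin L, ((xb ω d / D - s d / k : ℝ) : ℂ) * win L α d‖ ≤
    9 * (δ / 36) + 13 / (Q : ℝ) * ∑ d : Fin L, |xb ω d / D - s d / k| at h4
  have h6 : ∑ d : Fin L, |xb ω d / D - s d / k| ≤ 2 := by
    refine (sum_le_sum (g := fun d => xb ω d / D + s d / k) fun d _ =>
      abs_le.2 ⟨by linarith [p1.1 d], by linarith [p2.1 d]⟩).trans ?_
    rw [sum_add_distrib, p1.2, p2.2]
    norm_num
  have h7 : 13 / (Q : ℝ) * 2 ≤ δ / 4 := by
    rw [div_lt_iff₀ hδ] at hQ
    rw [div_mul_eq_mul_div, div_le_iff₀ q0]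
    linarith
  have h8 : ‖∑ d : Fin L, ((xb ω d / D - s d / k : ℝ) : ℂ) * win L α d‖ ≤ δ / 2 :=
    h4.trans (by linarith [mul_le_mul_of_nonneg_left h6 (show 0 ≤ 13 / (Q : ℝ) by positivity)])
  rw [split (xb ω) s hk0.ne' hD.ne']
  refine (norm_add_le _ _).trans ?_
  have h9 := two (fun d => win L α d) 1 fun d => win_le L hα d
  rw [norm_mul, Complex.norm_real, Real.norm_eq_abs, abs_of_pos hk0]
  nlinarith [mul_le_mul_of_nonneg_left h8 hk0.le]

end Pool.Agent.MP_154433_an.T7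

end

end PkDetB
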