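import Pool.Agent.MP_154433_an.t7.SpecF
import Pool.Agent.MP_154433_an.t7.Mat1

/-! Pairs of commuting maps: probability rows (packed). -/

section PkBlock

/-! One block: the union bound. -/

set_option autoImplicit false
set_option linter.unusedVariables false

open Finset Matrix
open scoped BigOperators ComplexConjugate

noncomputable section

namespace Pool.Agent.MP_154433_an.T7.BlockP

open T3S (B1)

lemma sum_eq_Pr {I : Type} [Fintype I] [DecidableEq I] (s : I → ℝ) (P : (I → Bool) → Prop) :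
    ∑ ω : I → Bool, bw s ω * oi (P ω) = T7M.Pr s P := by
  refine sum_congr rfl fun ω _ => ?_
  unfold oi
  split_ifs
  · rw [mul_one]; rfl
  · rw [mul_zero]

lemma mat (S : St) [DecidableEq S.I] (s : S.I → ℝ) (c : S.A → S.I → ℂ) {W τ : ℝ} (hc : B2 c)
    (hs : ∀ i, 0 ≤ s i ∧ s i ≤ 1) (hW : ∑ i, s i ≤ W) (hτ : 0 < τ) (hτW : τ ≤ W) :
    T7M.Pr s (fun ω => ¬ S.Opb (fun i => xb ω i - s i) c τ) ≤
      110 * S.n * Real.exp (-(τ ^ 2 / (55 * W))) := by
  classical
  have h := T7M.bil_exp hs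
    (fun i => Matrix.of fun (y y' : S.A) => if y' = y + S.ι i then c y i else 0)
    (fun i y => by
      have : ∀ y' : S.A, ‖(if y' = y + S.ι i then c y i else 0)‖ =
          if y' = y + S.ι i then ‖c y i‖ else 0 := fun y' => by split_ifs <;> simp
      simp only [Matrix.of_apply, this, sum_ite_eq', mem_univ, if_true]
      exact hc _ _)
    (fun i y' => by
      have : ∀ y : S.A, ‖star (if y' = y + S.ι i then c y i else 0)‖ =
          if y = y' - S.ι i then ‖c y i‖ else 0 := fun y => by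
        by_cases e : y' = y + S.ι i
        · rw [if_pos e, if_pos (by rw [e]; simp), norm_star]
        · rw [if_neg e, if_neg (fun e' => e (by rw [e']; simp))]; simp
      simp only [conjTranspose_apply, Matrix.of_apply, this, sum_ite_eq', mem_univ, if_true]
      exact hc _ _) hW hτ hτW
  refine le_trans (T7M.Pr_mono hs fun ω hω => ?_) h
  simp only [St.Opb, not_forall, not_le] at hω
  obtain ⟨G, H, hG, hH, hlt⟩ := hω
  refine ⟨G, H, hG, hH, ?_⟩
  have e : S.form (fun i => xb ω i - s i) G H c = ∑ d, ((T7M.rr s ω d : ℝ) : ℂ) * ∑ y, ∑ y',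
      G y * (Matrix.of fun (y y' : S.A) => if y' = y + S.ι d then c y d else 0) y y' * H y' := by
    rw [St.form, sum_comm]
    refine sum_congr rfl fun d _ => ?_
    rw [mul_sum]
    refine sum_congr rfl fun y _ => ?_
    have e2 : ∀ y' : S.A, G y * (if y' = y + S.ι d then c y d else 0) * H y' =
        if y' = y + S.ι d then G y * c y d * H y' else 0 := fun y' => by split_ifs <;> simp
    simp only [Matrix.of_apply, e2, sum_ite_eq', mem_univ, if_true]
    have e3 : T7M.rr s ω d = xb ω d - s d := rfl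
    rw [e3]; ring
  rw [← e]
  exact hlt

lemma sca {I : Type} [Fintype I] [DecidableEq I] (s : I → ℝ) (c : I → ℂ) {W τ : ℝ}
    (hc : ∀ i, ‖c i‖ ≤ 1) (hs : ∀ i, 0 ≤ s i ∧ s i ≤ 1) (hW : ∑ i, s i ≤ W) (hτ : 0 < τ)
    (hτW : τ ≤ W) :
    T7M.Pr s (fun ω => τ < ‖∑ i, ((xb ω i - s i : ℝ) : ℂ) * c i‖) ≤
      110 * Real.exp (-(τ ^ 2 / (55 * W))) := T7M.sca_exp hs c hc hW hτ hτW

lemma exp_seven : 440 * Real.exp (-7) ≤ 1 := by
  have h := Real.exp_one_gt_d9
  have e : Real.exp 7 = Real.exp 1 ^ 7 := by rw [← Real.exp_nat_mul]; norm_num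
  have h2 := pow_le_pow_left₀ (by norm_num) h.le 7
  have h3 : (440 : ℝ) ≤ Real.exp 7 := by rw [e]; exact le_trans (by norm_num) h2
  rw [Real.exp_neg, ← div_eq_mul_inv, div_le_one (Real.exp_pos _)]
  exact h3

/-- the final estimate -/
lemma fin_est {L z a b C t : ℝ} (hL : 0 < L) (hLz : L ≤ Real.exp z) (ha : a ≤ Real.exp z)
    (hb : b ≤ Real.exp z) (hb0 : 0 ≤ b) (hz : 35200 ≤ z) (hC : 0 ≤ C) (ht : 0 < t)
    (hz2 : 55 * (10 + C) / t ^ 2 ≤ z) :
    a * (110 * Real.exp (-(z ^ 6 / 3520))) + b * (110 * Real.exp (-(z ^ 6 / 3520))) +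
      Real.exp (C * z ^ 5) * (110 * b * Real.exp (-(t ^ 2 * z ^ 8 / 55))) ≤ 1 / L ^ 2 := by
  have hz1 : 1 ≤ z := by linarith
  have p5 : z ≤ z ^ 5 := le_self_pow₀ hz1 (by norm_num)
  have p3 : z ≤ z ^ 3 := le_self_pow₀ hz1 (by norm_num)
  have h1 : 3 * z - z ^ 6 / 3520 ≤ -7 := by
    have : z ^ 6 = z * z ^ 5 := by ring
    nlinarith
  have h2 : 3 * z + C * z ^ 5 - t ^ 2 * z ^ 8 / 55 ≤ -7 := by
    rw [div_le_iff₀ (by positivity)] at hz2
    have e : t ^ 2 * z ^ 8 / 55 = (z ^ 3 * t ^ 2 / 55) * z ^ 5 := by ring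
    have h3 : 10 + C ≤ z ^ 3 * t ^ 2 / 55 := by
      have := mul_le_mul_of_nonneg_right p3 (sq_nonneg t)
      linarith
    have h4 := mul_le_mul_of_nonneg_right h3 (by positivity : (0 : ℝ) ≤ z ^ 5)
    rw [e]
    nlinarith
  have hL2 : L ^ 2 ≤ Real.exp (2 * z) := by
    have e : Real.exp (2 * z) = Real.exp z ^ 2 := by rw [← Real.exp_nat_mul]; norm_num
    rw [e]; exact pow_le_pow_left₀ hL.le hLz 2
  have k1 : Real.exp z * Real.exp (-(z ^ 6 / 3520)) * Real.exp (2 * z) ≤ Real.exp (-7) := by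
    rw [← Real.exp_add, ← Real.exp_add]
    exact Real.exp_le_exp.mpr (by linarith)
  have k2 : Real.exp (C * z ^ 5) * (Real.exp z * Real.exp (-(t ^ 2 * z ^ 8 / 55))) *
      Real.exp (2 * z) ≤ Real.exp (-7) := by
    rw [← Real.exp_add, ← Real.exp_add, ← Real.exp_add]
    exact Real.exp_le_exp.mpr (by linarith)
  rw [le_div_iff₀ (by positivity)]
  have k3 := exp_seven
  calc (a * (110 * Real.exp (-(z ^ 6 / 3520))) + b * (110 * Real.exp (-(z ^ 6 / 3520))) +
      Real.exp (C * z ^ 5) * (110 * b * Real.exp (-(t ^ 2 * z ^ 8 / 55)))) * L ^ 2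
      ≤ (Real.exp z * (110 * Real.exp (-(z ^ 6 / 3520))) +
          Real.exp z * (110 * Real.exp (-(z ^ 6 / 3520))) +
          Real.exp (C * z ^ 5) * (110 * Real.exp z * Real.exp (-(t ^ 2 * z ^ 8 / 55)))) *
            Real.exp (2 * z) := by gcongr
    _ = 220 * (Real.exp z * Real.exp (-(z ^ 6 / 3520)) * Real.exp (2 * z)) +
          110 * (Real.exp (C * z ^ 5) * (Real.exp z * Real.exp (-(t ^ 2 * z ^ 8 / 55))) *
            Real.exp (2 * z)) := by ring
    _ ≤ 1 := by linarith [Real.exp_pos (-7)]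

/-- the parameters -/
lemma param (h Q e : ℕ) (Y : ℝ) : ∃ L0 : ℕ, 1 ≤ L0 ∧ ∀ (L : ℕ) (k : ℝ), L0 ≤ L → 0 ≤ k →
    (L : ℝ) ≤ k ^ h → ∃ x z : ℝ, 1 ≤ x ∧ x ≤ z ∧ Y ≤ z ∧ x ^ e ≤ z ∧ z ^ 8 = k ∧
      (3 * L * Q : ℝ) ≤ Real.exp x := by
  set N : ℕ := (e + 1) * 8 with hN
  set m : ℕ := N * h with hm
  set Y0 : ℝ := 1 + |Y| + 3 * Q * ((m + 1).factorial : ℝ) with hY0
  have hf : (0 : ℝ) < (m + 1).factorial := by exact_mod_cast (m + 1).factorial_pos
  have hQ : (0 : ℝ) ≤ 3 * Q * ((m + 1).factorial : ℝ) := by positivity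
  have hY1 : 1 ≤ Y0 := by linarith [abs_nonneg Y]
  refine ⟨⌈Y0 ^ m⌉₊ + 1, by omega, fun L k hL hk hLk => ?_⟩
  have hN0 : N ≠ 0 := by omega
  set x : ℝ := k ^ ((N : ℝ)⁻¹) with hx
  have hx0 : 0 ≤ x := Real.rpow_nonneg hk _
  have hxN : x ^ N = k := Real.rpow_inv_natCast_pow hk hN0
  have hLx : (L : ℝ) ≤ x ^ m := by rw [hm, pow_mul, hxN]; exact hLk
  have hY : Y0 ≤ x := by
    by_contra hc
    have h1 : x ^ m ≤ Y0 ^ m := pow_le_pow_left₀ hx0 (not_le.mp hc).le m
    have h2 : Y0 ^ m ≤ ⌈Y0 ^ m⌉₊ := Nat.le_ceil _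
    have h3 : ((⌈Y0 ^ m⌉₊ + 1 : ℕ) : ℝ) ≤ L := by exact_mod_cast hL
    push_cast at h3
    linarith
  have hx1 : 1 ≤ x := hY1.trans hY
  have hxz : x ≤ x ^ (e + 1) := le_self_pow₀ hx1 (by omega)
  refine ⟨x, x ^ (e + 1), hx1, hxz, ?_, pow_le_pow_right₀ hx1 (by omega), ?_, ?_⟩
  · linarith [le_abs_self Y]
  · rw [← pow_mul, hxN]
  · have h1 := Real.pow_div_factorial_le_exp x hx0 (m + 1)
    refine le_trans ?_ h1
    rw [le_div_iff₀ hf, pow_succ]
    have h2 : 3 * Q * ((m + 1).factorial : ℝ) ≤ x := by linarith [abs_nonneg Y]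
    calc (3 * L * Q : ℝ) * ((m + 1).factorial : ℝ) = L * (3 * Q * ((m + 1).factorial : ℝ)) := by
          ring
      _ ≤ x ^ m * x := mul_le_mul hLx h2 hQ (by positivity)

theorem block (hD : DetBS) : BlockS := by
  intro h δ hδ
  obtain ⟨Q, hQ, η0, τ, C, e, hη, hτ, hC, H⟩ := hD δ (8 * h + 1) hδ
  set t : ℝ := min τ 1 with htd
  have ht : 0 < t := lt_min hτ one_pos
  have ht1 : t ≤ 1 := min_le_right _ _
  have htτ : t ≤ τ := min_le_left _ _
  obtain ⟨L0, hL0, HP⟩ := param h Q e (35200 + 55 * (10 + C) / t ^ 2 + 1 / η0)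
  refine ⟨L0, fun L s hL hs hflat hLk => ?_⟩
  have : NeZero L := ⟨by omega⟩
  set k : ℝ := ∑ i, s i with hkd
  have hk0 : 0 ≤ k := sum_nonneg fun i _ => (hs i).1
  obtain ⟨x, z, hx1, hxz, hY, hxe, hzk, hex⟩ := HP L k hL hk0 hLk
  have a1 : 0 ≤ 55 * (10 + C) / t ^ 2 := by positivity
  have a2 : 0 < 1 / η0 := by positivity
  have hz : 35200 ≤ z := by linarith
  have hz0 : 0 < z := by linarith
  have hz1 : 1 ≤ z := by linarith
  have hk : 0 < k := by rw [← hzk]; positivity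
  have hLpos : (1 : ℝ) ≤ L := by exact_mod_cast (by omega : 1 ≤ L)
  have hQpos : (1 : ℝ) ≤ Q := by exact_mod_cast Nat.pos_of_ne_zero hQ.out
  have hexz : Real.exp x ≤ Real.exp z := Real.exp_le_exp.mpr hxz
  have s1 : (3 * L : ℝ) ≤ Real.exp x := by nlinarith
  have s2 : (L : ℝ) ≤ Real.exp x := by nlinarith
  have s3 : (L * Q : ℝ) ≤ Real.exp x := by nlinarith
  have cA : (Fintype.card (ZMod (3 * L)) : ℝ) = 3 * L := by rw [ZMod.card]; push_cast; ring
  have cT : (Fintype.card (ZMod (L * Q)) : ℝ) = L * Q := by rw [ZMod.card]; push_cast; ring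
  have hSz : (st L Q).Sz x := by
    refine ⟨hx1, ?_, ?_, ?_⟩
    · exact cA.le.trans s1
    · have cI : (Fintype.card (Fin L) : ℝ) = L := by rw [Fintype.card_fin]
      exact cI.le.trans s2
    · exact cT.le.trans s3
  set k0 : ℕ := ⌊z ^ 2⌋₊ with hk0d
  have b1 : (k0 : ℝ) ≤ z ^ 2 := Nat.floor_le (by positivity)
  have b2 : z ^ 2 < k0 + 1 := Nat.lt_floor_add_one _
  have b3 : 2 * z ≤ k0 := by nlinarith
  have b4 : 1 ≤ k0 := by
    have : (1 : ℝ) ≤ k0 := by linarith
    exact_mod_cast this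
  have b5 : (2 : ℝ) ^ 2 ^ (8 * h + 1) * (3 * L) ≤ (k0 : ℝ) ^ 2 ^ (8 * h + 1) := by
    have c1 : (3 * L : ℝ) ≤ z ^ 2 ^ (8 * h + 1) := by
      have c2 : (L : ℝ) ≤ z ^ (8 * h) := by rw [pow_mul, hzk]; exact hLk
      have c3 : z ^ (8 * h + 1) ≤ z ^ 2 ^ (8 * h + 1) :=
        pow_le_pow_right₀ hz1 (Nat.lt_two_pow_self).le
      have c4 : (0 : ℝ) ≤ z ^ (8 * h) := by positivity
      rw [pow_succ] at c3
      nlinarith
    calc (2 : ℝ) ^ 2 ^ (8 * h + 1) * (3 * L)
        ≤ (2 : ℝ) ^ 2 ^ (8 * h + 1) * z ^ 2 ^ (8 * h + 1) := by gcongr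
      _ = (2 * z) ^ 2 ^ (8 * h + 1) := (mul_pow _ _ _).symm
      _ ≤ (k0 : ℝ) ^ 2 ^ (8 * h + 1) := pow_le_pow_left₀ (by positivity) b3 _
  obtain ⟨𝓒, hB, hcard, HD⟩ := H L x k0 hSz b4 b5
  set ρ : ℝ := 1 / (8 * z) with hρd
  have hρ : 0 < ρ := by positivity
  have hρη : ρ ≤ η0 := by
    rw [hρd, div_le_iff₀ (by positivity)]
    have : 1 / η0 ≤ z := by linarith
    rw [div_le_iff₀ hη] at this
    nlinarith
  have hρ1 : ρ ≤ 1 := by
    rw [hρd, div_le_one (by positivity)]; linarith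
  have hρk : (k0 : ℝ) * (64 * ρ ^ 2) ≤ 1 := by
    have e1 : 64 * ρ ^ 2 = 1 / z ^ 2 := by rw [hρd]; field_simp; norm_num
    rw [e1, mul_one_div, div_le_one (by positivity)]
    exact b1
  have e1 : (ρ * k) ^ 2 / (55 * k) = z ^ 6 / 3520 := by
    rw [hρd, ← hzk]; field_simp; norm_num
  have e2 : (t * k) ^ 2 / (55 * k) = t ^ 2 * z ^ 8 / 55 := by
    rw [← hzk]; field_simp
  have r1 : ρ * k ≤ k := mul_le_of_le_one_left hk0 hρ1
  have r2 : t * k ≤ k := mul_le_of_le_one_left hk0 ht1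
  have P1 := T7M.Pr_union_le hs (univ : Finset (ZMod (L * Q)))
    (fun θ ω => ρ * k < ‖∑ i, ((xb ω i - s i : ℝ) : ℂ) * (st L Q).χ i θ‖)
    (fun θ _ => sca s (fun i => (st L Q).χ i θ) (fun i => (AddChar.norm_apply _ _).le) hs le_rfl
      (mul_pos hρ hk) r1)
  have P2 := T7M.Pr_union_le hs (univ : Finset (AddChar (ZMod (3 * L)) ℂ))
    (fun ψ ω => ρ * k < ‖∑ i : Fin L, ((xb ω i - s i : ℝ) : ℂ) * ψ ((i : ℕ) : ZMod (3 * L))‖)
    (fun ψ _ => sca s (fun i => ψ ((i : ℕ) : ZMod (3 * L))) (fun i => (AddChar.norm_apply _ _).le)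
      hs le_rfl (mul_pos hρ hk) r1)
  have P3 := T7M.Pr_union_le hs 𝓒
    (fun c ω => ¬ (st L Q).Opb (fun i => xb ω i - s i) c (t * k))
    (fun c hc => @mat (st L Q) (instDecidableEqFin L) s c k (t * k) (hB c hc) hs le_rfl
      (mul_pos ht hk) r2)
  rw [card_univ, cT, e1] at P1
  rw [card_univ, AddChar.card_eq, cA, e1] at P2
  have en : (st L Q).n = 3 * L := cA
  rw [en, e2] at P3
  have hc2 : (𝓒.card : ℝ) ≤ Real.exp (C * z ^ 5) := by
    refine hcard.trans (Real.exp_le_exp.mpr (mul_le_mul_of_nonneg_left ?_ hC))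
    calc (k0 : ℝ) ^ 2 * x ^ e ≤ (z ^ 2) ^ 2 * z := by gcongr
      _ = z ^ 5 := by ring
  have P4 := P3.trans (mul_le_mul_of_nonneg_right hc2 (by positivity))
  have F := fin_est (L := L) (z := z) (a := L * Q) (b := 3 * L) (C := C) (t := t) (by linarith)
    (s2.trans hexz) (s3.trans hexz) (s1.trans hexz) (by positivity) hz hC ht (by linarith)
  rw [sum_eq_Pr]
  refine le_trans (T7M.Pr_mono hs ?_) (((T7M.Pr_or hs _ _).trans
    (add_le_add ((T7M.Pr_or hs _ _).trans (add_le_add P1 P2)) P4)).trans F)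
  rintro ω ⟨α, hα, hlt⟩
  by_contra hc
  simp only [not_or, not_exists, not_and, not_lt, mem_univ, true_implies, not_not] at hc
  obtain ⟨⟨h1, h2⟩, h3⟩ := hc
  refine absurd (HD s ω ρ (fun i => (hs i).1) hk hflat hρ.le hρη hρk h1 h2 (fun c hc G W hG hW =>
    (h3 c hc G W hG hW).trans ?_) α hα) (not_le.mpr hlt)
  rw [en]
  gcongr

end Pool.Agent.MP_154433_an.T7.BlockP

theorem Pool.Agent.MP_154433_an.T7.block (hD : Pool.Agent.MP_154433_an.T7.DetBS) :
    Pool.Agent.MP_154433_an.T7.BlockS := Pool.Agent.MP_154433_an.T7.BlockP.block hD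

end

end PkBlock

section PkAe

/-! Almost surely the weights do not see the atoms. -/

set_option autoImplicit false
set_option linter.unusedVariables false

open MeasureTheory ProbabilityTheory Filter Topology Finset
open scoped BigOperators

noncomputable section

namespace Pool.Agent.MP_154433_an.T7

open T3S (Wt yw ind)

namespace AeL

lemma bc {Ω : Type} [MeasurableSpace Ω] (P : Measure Ω) [IsProbabilityMeasure P] (A : ℕ → Set Ω)
    {K : ℝ} (hK : 0 ≤ K) (h : ∀ᶠ j : ℕ in atTop, P.real (A j) ≤ K / (j : ℝ) ^ 2) :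
    ∀ᵐ ω ∂P, ∀ᶠ j in atTop, ω ∉ A j := by
  obtain ⟨j0, hj0⟩ := eventually_atTop.mp h
  have hs : Summable fun j : ℕ => K / (j : ℝ) ^ 2 := by
    simpa [div_eq_mul_inv] using (Real.summable_nat_pow_inv.mpr one_lt_two).mul_left K
  have h1 : ∀ j : ℕ, P (if j0 ≤ j then A j else ∅) ≤ ENNReal.ofReal (K / (j : ℝ) ^ 2) := by
    intro j
    split_ifs with hj
    · rw [← ofReal_measureReal (μ := P) (s := A j)]
      exact ENNReal.ofReal_le_ofReal (hj0 j hj)
    · simp
  have h2 : (∑' j : ℕ, P (if j0 ≤ j then A j else ∅)) ≠ ⊤ := by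
    refine ne_top_of_le_ne_top ?_ (ENNReal.tsum_le_tsum h1)
    rw [← ENNReal.ofReal_tsum_of_nonneg (fun j => by positivity) hs]
    exact ENNReal.ofReal_ne_top
  filter_upwards [ae_eventually_notMem h2] with ω hω
  filter_upwards [hω, eventually_ge_atTop j0] with j h3 h4
  rwa [if_pos h4] at h3

lemma wt_top {σ : ℕ → ℝ} (ha : Antitone σ)
    (h : Tendsto (fun n : ℕ => (n : ℝ) * σ n) atTop atTop) : Tendsto (Wt σ) atTop atTop := by
  refine tendsto_atTop_mono (fun n => ?_) h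
  have := card_nsmul_le_sum (range n) σ (σ n) fun k hk => ha (mem_range.mp hk).le
  simpa [Wt] using this

open Classical in
lemma ind_eq (p : ℕ → Prop) (a L : ℕ) (d : Fin L) :
    ind p (a + d) = xb (fun i : Fin L => decide (p (a + i))) d := by
  unfold ind xb
  by_cases h : p (a + d) <;> simp [h]

lemma count {L j : ℕ} (s : Fin L → ℝ) (hs : ∀ i, 0 ≤ s i ∧ s i ≤ 1) (hj : 1 ≤ j)
    (hk : (j : ℝ) ^ 2 ≤ ∑ i, s i) :
    ∑ β : Fin L → Bool, bw s β * oi (2 * ∑ i, s i < ∑ i, xb β i) ≤ 6050 / (j : ℝ) ^ 2 := by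
  have hj0 : (0 : ℝ) < (j : ℝ) ^ 2 := by positivity
  set k := ∑ i, s i with hkd
  have hk0 : 0 < k := hj0.trans_le hk
  have h := BlockP.sca s (fun _ => 1) (fun _ => by simp) hs le_rfl hk0 le_rfl
  rw [BlockP.sum_eq_Pr]
  refine le_trans (T7M.Pr_mono hs fun β hβ => ?_) (h.trans ?_)
  · simp only [mul_one]
    rw [← Complex.ofReal_sum, Complex.norm_real, sum_sub_distrib, ← hkd]
    exact lt_of_lt_of_le (by linarith) (le_abs_self _)
  · have e : k ^ 2 / (55 * k) = k / 55 := by field_simp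
    rw [e, Real.exp_neg, ← div_eq_mul_inv, div_le_div_iff₀ (Real.exp_pos _) hj0]
    linarith [Real.add_one_le_exp (k / 55)]

end AeL

open AeL in
theorem ae (hGeo : GeoS) (hBlock : BlockS) (hTr : TrS) (hSum : SumS) (hGr : GrS) : AeS := by
  classical
  intro σ hσ ha hP Ω _ P _ E hE hi hPE
  have h0 : ∀ n, 0 ≤ σ n := fun n => (hσ n).1
  obtain ⟨a, h, hB, hev⟩ := hGeo σ h0 ha hP
  have T := hTr σ hσ Ω P E hE hi hPE
  have A1 := bc P (fun j => {ω | 2 * mass σ a j <
      ∑ d : Fin (len a j), ind (fun m => ω ∈ E m) (a j + d)}) (K := 6050) (by norm_num) (by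
    filter_upwards [hev, eventually_ge_atTop 1] with j hj hj1
    have := T (a j) (len a j) (fun β => 2 * mass σ a j < ∑ i, xb β i)
    simp only [ind_eq]
    exact this.le.trans (count _ (fun i => hσ _) hj1 hj.2.1))
  have A2 : ∀ n : ℕ, ∀ᵐ ω ∂P, ∀ᶠ j in atTop, ω ∉ {ω | σ (a j) * len a j ≤ 2 * mass σ a j ∧
      ∃ α, Atom α ∧ 1 / ((n : ℝ) + 1) * mass σ a j < ‖∑ d : Fin (len a j),
        ((ind (fun m => ω ∈ E m) (a j + d) - σ (a j + d) : ℝ) : ℂ) * win (len a j) α d‖} := by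
    intro n
    obtain ⟨L0, hL0⟩ := hBlock h (1 / ((n : ℝ) + 1)) (by positivity)
    refine bc P _ (K := 1) zero_le_one ?_
    filter_upwards [hev, eventually_ge_atTop 1, eventually_ge_atTop L0] with j hj hj1 hj2
    by_cases hf : σ (a j) * len a j ≤ 2 * mass σ a j
    · have := T (a j) (len a j) (fun β => ∃ α, Atom α ∧ 1 / ((n : ℝ) + 1) * mass σ a j <
        ‖∑ d : Fin (len a j), ((xb β d - σ (a j + d) : ℝ) : ℂ) * win (len a j) α d‖)
      simp only [ind_eq, hf, true_and]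
      refine this.le.trans ((hL0 (len a j) (fun i => σ (a j + i)) (hj2.trans hj.1) (fun i => hσ _)
        (fun i => le_trans (mul_le_mul_of_nonneg_right (ha (Nat.le_add_right _ _))
          (Nat.cast_nonneg _)) hf) hj.2.2).trans ?_)
      have h1 : (j : ℝ) ≤ len a j := by exact_mod_cast hj.1
      have h2 : (0 : ℝ) < j := by exact_mod_cast hj1
      gcongr
    · simp [hf]
  filter_upwards [A1, ae_all_iff.mpr A2] with ω h1 h2
  refine hSum σ _ a h0 ha (wt_top ha (hGr σ h0 hP)) hB (h1.mono fun j hj => not_lt.mp hj) ?_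
  intro δ hδ
  obtain ⟨n, hn⟩ := exists_nat_one_div_lt hδ
  filter_upwards [h2 n] with j hj hf α hα
  have h3 : 0 ≤ mass σ a j := sum_nonneg fun _ _ => h0 _
  by_contra hc
  exact hj ⟨hf, α, hα, lt_of_le_of_lt (mul_le_mul_of_nonneg_right hn.le h3) (not_le.mp hc)⟩

end Pool.Agent.MP_154433_an.T7

end

end PkAe

section PkTr

/-! Row Tr: transfer from the probability space to the finite cube. -/

set_option autoImplicit false

open MeasureTheory ProbabilityTheory Finset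

namespace Pool.Agent.MP_154433_an.T7

open Classical in
theorem tr : TrS := by
  intro σ hσ Ω _ P _ E hE hI hP a L bad
  let C : (Fin L → Bool) → Set Ω := fun β => ⋂ i : Fin L, if β i then E (a + i) else (E (a + i))ᶜ
  have mem : ∀ β ω, ω ∈ C β ↔ (fun i : Fin L => decide (ω ∈ E (a + i))) = β := fun β ω => by
    simp only [C, Set.mem_iInter, funext_iff]
    refine forall_congr' fun i => ?_
    cases β i <;> simp
  have hm : ∀ β, MeasurableSet (C β) := fun β => MeasurableSet.iInter fun i => by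
    split_ifs
    exacts [hE _, (hE _).compl]
  have hr : ∀ n, P.real (E n) = σ n := fun n => by
    rw [Measure.real, hP, ENNReal.toReal_ofReal (hσ n).1]
  have hI' := ((iIndepSet_iff_iIndep _ _).1 hI).precomp (g := fun i : Fin L => a + (i : ℕ))
    fun i j h => Fin.ext (Nat.add_left_cancel h)
  have hp : ∀ β, P.real (C β) = bw (fun i : Fin L => σ (a + i)) β := fun β => by
    have h0 : ∀ n, MeasurableSet[MeasurableSpace.generateFrom {E n}] (E n) := fun n =>
      MeasurableSpace.measurableSet_generateFrom rfl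
    rw [Measure.real, hI'.meas_iInter fun i => by
      split_ifs
      exacts [h0 _, (h0 _).compl], ENNReal.toReal_prod]
    refine prod_congr rfl fun i _ => ?_
    split_ifs
    · exact hr _
    · exact (probReal_compl_eq_one_sub (hE _)).trans (congrArg _ (hr _))
  have e : {ω | bad fun i : Fin L => decide (ω ∈ E (a + i))} = ⋃ β ∈ univ.filter bad, C β := by
    ext ω
    simp [mem]
  rw [e, measureReal_biUnion_finset (fun β _ β' _ hn => Set.disjoint_left.2 fun ω h h' =>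
    hn (((mem _ _).1 h).symm.trans ((mem _ _).1 h'))) fun β _ => hm β, sum_filter]
  refine sum_congr rfl fun β _ => ?_
  rw [hp, oi]
  split_ifs <;> simp

end Pool.Agent.MP_154433_an.T7

end PkTr

section PkGeo

/-! Blocks of polynomial length. -/

open Filter Topology Finset

namespace Pool.Agent.MP_154433_an.T7

namespace GeoL

theorem dif (x : ℝ) (hx : 0 ≤ x) (g : ℕ) : (g + 1) * x ^ g ≤ (x + 1) ^ (g + 1) - x ^ (g + 1) ∧
    (x + 1) ^ (g + 1) - x ^ (g + 1) ≤ (g + 1) * (x + 1) ^ g := by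
  induction g with
  | zero => simp
  | succ g ih =>
    have e : (x + 1) ^ (g + 1 + 1) - x ^ (g + 1 + 1) =
        (x + 1) * ((x + 1) ^ (g + 1) - x ^ (g + 1)) + x ^ (g + 1) := by ring
    have h1 := mul_le_mul_of_nonneg_left ih.1 (show 0 ≤ x + 1 by linarith)
    have h2 := mul_le_mul_of_nonneg_left ih.2 (show 0 ≤ x + 1 by linarith)
    have h3 : x ^ (g + 1) ≤ (x + 1) ^ (g + 1) := by gcongr; linarith
    have h4 : 0 ≤ (g + 1 : ℝ) * x ^ g := by positivity
    have h5 : (x + 1) * ((g + 1) * x ^ g) = (g + 1) * x ^ (g + 1) + (g + 1) * x ^ g := by ring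
    have h6 : (x + 1) * ((g + 1) * (x + 1) ^ g) = (g + 1) * (x + 1) ^ (g + 1) := by ring
    push_cast
    constructor <;> linarith

theorem rat (g : ℕ) {η : ℝ} (hη : 0 < η) :
    ∀ᶠ j : ℕ in atTop, ((j : ℝ) + 2) ^ g ≤ (1 + η) * (j : ℝ) ^ g := by
  have h : Tendsto (fun j : ℕ => (1 + 2 / (j : ℝ)) ^ g) atTop (𝓝 ((1 + 0) ^ g)) :=
    (tendsto_const_nhds.add (tendsto_const_div_atTop_nhds_zero_nat 2)).pow g
  filter_upwards [h.eventually (ge_mem_nhds (show ((1 + 0) ^ g : ℝ) < 1 + η by simpa)),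
    eventually_gt_atTop 0] with j hj h0
  have h0' : (0 : ℝ) < j := by exact_mod_cast h0
  rw [show (j : ℝ) + 2 = (1 + 2 / j) * j by field_simp, mul_pow]
  gcongr

theorem len_eq (g j : ℕ) :
    (len (fun j => j ^ g) j : ℝ) = ((j : ℝ) + 1) ^ g - (j : ℝ) ^ g := by
  rw [len, Nat.cast_sub (Nat.pow_le_pow_left (Nat.le_succ j) g)]
  push_cast
  rfl

end GeoL

open GeoL in
theorem geo : GeoS := by
  rintro σ h0 hσ ⟨a, ha, ht⟩
  have b1 : max a 0 < 1 := max_lt ha one_pos
  obtain ⟨k, hk⟩ := exists_nat_ge (4 / (1 - max a 0))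
  rw [div_le_iff₀ (by linarith)] at hk
  have D := fun j : ℕ => dif j (Nat.cast_nonneg j) (k + 3)
  have L := len_eq (k + 3 + 1)
  have G0 : (2 : ℝ) ≤ ((k + 3 : ℕ) : ℝ) + 1 := by push_cast; linarith [Nat.cast_nonneg (α := ℝ) k]
  refine ⟨fun j => j ^ (k + 3 + 1), k + 3 + 1, ⟨by simp, Nat.pow_left_strictMono (by omega),
    fun η hη => ?_, fun η hη => ?_⟩, ?_⟩
  · filter_upwards [rat (k + 3) one_pos, tendsto_natCast_atTop_atTop.eventually_ge_atTop
      (2 * (((k + 3 : ℕ) : ℝ) + 1) / η)] with j h1 h2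
    rw [div_le_iff₀ hη] at h2
    have h3 : ((j : ℝ) + 1) ^ (k + 3) ≤ ((j : ℝ) + 2) ^ (k + 3) := by gcongr; norm_num
    have h4 : (0 : ℝ) ≤ (j : ℝ) ^ (k + 3) := by positivity
    rw [L, Nat.cast_pow]
    refine (D j).2.trans ((mul_le_mul_of_nonneg_left (h3.trans h1) (by linarith)).trans ?_)
    rw [pow_succ (j : ℝ) (k + 3)]
    nlinarith
  · filter_upwards [rat (k + 3) hη] with j h1
    rw [L, L]
    refine (D (j + 1)).2.trans (le_trans ?_ (mul_le_mul_of_nonneg_left (D j).1 (by linarith)))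
    rw [Nat.cast_succ j, add_assoc, one_add_one_eq_two, mul_left_comm]
    exact mul_le_mul_of_nonneg_left h1 (by linarith)
  · have tn : Tendsto (fun j : ℕ => (j + 1) ^ (k + 3 + 1)) atTop atTop :=
      (tendsto_pow_atTop (by omega)).comp (tendsto_add_atTop_nat 1)
    filter_upwards [rat k one_pos, tn.eventually (ht.eventually_ge_atTop 1),
      eventually_ge_atTop 2] with j h1 h2 h3
    have j2 : (2 : ℝ) ≤ j := by exact_mod_cast h3
    set s := σ ((j + 1) ^ (k + 3 + 1)) with hs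
    have s0 : 0 ≤ s := h0 _
    have p1 : (((j + 1) ^ (k + 3 + 1) : ℕ) : ℝ) ^ a ≤ ((j : ℝ) + 2) ^ k := by
      push_cast
      rw [← Real.rpow_natCast, ← Real.rpow_mul (by linarith), ← Real.rpow_natCast]
      refine (Real.rpow_le_rpow_of_exponent_le (by linarith) ?_).trans
        (Real.rpow_le_rpow (by linarith) (by linarith) (Nat.cast_nonneg k))
      push_cast
      nlinarith [le_max_left a 0, Nat.cast_nonneg (α := ℝ) k]
    have p2 : 1 ≤ 2 * (j : ℝ) ^ k * s :=
      h2.trans (mul_le_mul_of_nonneg_right (p1.trans (by linarith)) s0)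
    have l1 : 2 * (j : ℝ) ^ (k + 3) ≤ len (fun j => j ^ (k + 3 + 1)) j := by
      rw [L]
      exact (mul_le_mul_of_nonneg_right G0 (by positivity)).trans (D j).1
    have m1 : (len (fun j => j ^ (k + 3 + 1)) j : ℝ) * s ≤ mass σ (fun j => j ^ (k + 3 + 1)) j := by
      have := Finset.card_nsmul_le_sum univ (fun d : Fin (len (fun j => j ^ (k + 3 + 1)) j) =>
        σ (j ^ (k + 3 + 1) + d)) s fun d _ => hσ (by
          have h5 := d.2
          have h6 : j ^ (k + 3 + 1) ≤ (j + 1) ^ (k + 3 + 1) := Nat.pow_le_pow_left (by omega) _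
          simp only [len] at h5
          omega)
      simpa [mass] using this
    have m2 : (j : ℝ) ^ 2 ≤ mass σ (fun j => j ^ (k + 3 + 1)) j := by
      refine le_trans ?_ ((mul_le_mul_of_nonneg_right l1 s0).trans m1)
      have h5 : (j : ℝ) ^ 2 ≤ (j : ℝ) ^ 3 := pow_le_pow_right₀ (by linarith) (by norm_num)
      have h6 := mul_le_mul_of_nonneg_left p2 (show (0 : ℝ) ≤ (j : ℝ) ^ 3 by positivity)
      rw [pow_add]
      linarith
    refine ⟨?_, m2, ?_⟩
    · have h5 : (j : ℝ) ^ 1 ≤ (j : ℝ) ^ (k + 3) := pow_le_pow_right₀ (by linarith) (by omega)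
      exact_mod_cast (show (j : ℝ) ≤ _ by linarith : (j : ℝ) ≤ len (fun j => j ^ (k + 3 + 1)) j)
    · rw [L]
      refine (sub_le_self _ (by positivity)).trans ?_
      gcongr
      nlinarith

end Pool.Agent.MP_154433_an.T7

end PkGeo

section PkSum

/-! Row `SumS`: from the estimates on the flat blocks to the estimate on the whole sum. -/

set_option autoImplicit false
set_option linter.unusedVariables false

open Filter Topology Finset
open scoped BigOperators

noncomputable section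

namespace Pool.Agent.MP_154433_an.T7

open T3S (B1 Wt yw ind Near)

namespace SumL

lemma ee_add (s t : ℝ) : ee (s + t) = ee s * ee t := by
  unfold ee
  rw [← Complex.exp_add]
  congr 1
  push_cast
  ring

lemma norm_ee (t : ℝ) : ‖ee t‖ = 1 := Complex.norm_exp_ofReal_mul_I _

lemma shift {α : ℕ → ℕ → ℕ → ℂ} (h : Atom α) (a : ℕ) : Atom fun n m d => α n m (a + d) := by
  obtain ⟨G, u, ξ, γ, hG, hu, e⟩ := h
  refine ⟨fun n m => G n m * ee (a * ξ m), fun n k => u n (k + a) * ee (a * γ (n + k + a)), ξ,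
    fun k => γ (k + a), fun n m => ?_, fun n k => ?_, fun n m d => ?_⟩
  · rw [norm_mul, norm_ee, mul_one]
    exact hG n m
  · rw [norm_mul, norm_ee, mul_one]
    exact hu n _
  · have e1 : m + (a + d) = m + d + a := by omega
    have e2 : n + m + (a + d) = n + m + d + a := by omega
    have e3 : n + (m + d) + a = n + m + d + a := by omega
    have e4 : ((a + d : ℕ) : ℝ) * ξ m + ((a + d : ℕ) : ℝ) * γ (n + m + d + a) =
        a * ξ m + (a * γ (n + m + d + a) + (d * ξ m + d * γ (n + m + d + a))) := by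
      push_cast
      ring
    simp only
    rw [e n m (a + d), e1, e2, e3, e4, ee_add (a * ξ m), ee_add (a * γ (n + m + d + a))]
    ring

lemma win_le {α : ℕ → ℕ → ℕ → ℂ} (h : Atom α) (L d : ℕ) : ‖win L α d‖ ≤ 1 := by
  obtain ⟨G, u, ξ, γ, hG, hu, e⟩ := h
  refine T3S.norm_exp_le_of zero_le_one fun n _ => T3S.norm_exp_le_of zero_le_one fun m _ => ?_
  rw [e, norm_mul, norm_mul, norm_ee, mul_one]
  exact mul_le_one₀ (hG n m) (norm_nonneg _) (hu n _)

lemma ex_block {a : ℕ → ℕ} (h : Blocks a) (d : ℕ) : ∃ j, a j ≤ d ∧ d < a (j + 1) := by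
  induction d with
  | zero => exact ⟨0, h.zero.le, lt_of_eq_of_lt h.zero.symm (h.mono (Nat.lt_succ_self 0))⟩
  | succ d ih =>
    obtain ⟨j, h1, h2⟩ := ih
    by_cases h3 : d + 1 < a (j + 1)
    · exact ⟨j, by omega, h3⟩
    · have := h.mono (Nat.lt_succ_self (j + 1))
      exact ⟨j + 1, by omega, by simp only [Nat.succ_eq_add_one] at this; omega⟩

lemma succ_eq {a : ℕ → ℕ} (h : Blocks a) (j : ℕ) : a (j + 1) = a j + len a j := by
  have : a j < a (j + 1) := h.mono (Nat.lt_succ_self j)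
  unfold len
  omega

lemma mass_eq (σ : ℕ → ℝ) (a : ℕ → ℕ) (j : ℕ) :
    mass σ a j = ∑ d ∈ range (len a j), σ (a j + d) :=
  Fin.sum_univ_eq_sum_range (fun d => σ (a j + d)) (len a j)

lemma mass_bd {σ : ℕ → ℝ} {a : ℕ → ℕ} (hσ : Antitone σ) (h : Blocks a) (j : ℕ) :
    σ (a (j + 1)) * len a j ≤ mass σ a j ∧ mass σ a j ≤ σ (a j) * len a j := by
  rw [mass_eq]
  constructor
  · have := Finset.card_nsmul_le_sum (range (len a j)) (fun d => σ (a j + d)) (σ (a (j + 1)))
      fun d hd => hσ (by rw [succ_eq h]; have := mem_range.1 hd; omega)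
    rwa [card_range, nsmul_eq_mul, mul_comm] at this
  · have := Finset.sum_le_card_nsmul (range (len a j)) (fun d => σ (a j + d)) (σ (a j))
      fun d _ => hσ (Nat.le_add_right _ _)
    rwa [card_range, nsmul_eq_mul, mul_comm] at this

lemma ind_nonneg (p : ℕ → Prop) (d : ℕ) : 0 ≤ ind p d := by
  unfold ind
  split_ifs <;> norm_num

lemma triv {σ : ℕ → ℝ} (h0 : ∀ n, 0 ≤ σ n) (p : ℕ → Prop) (w : ℕ → ℂ) (hw : ∀ d, ‖w d‖ ≤ 1)
    (b r l : ℕ) (hr : r ≤ l) :
    ‖∑ d ∈ range r, ((ind p (b + d) - σ (b + d) : ℝ) : ℂ) * w (b + d)‖ ≤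
      ∑ d ∈ range l, ind p (b + d) + ∑ d ∈ range l, σ (b + d) := by
  rw [← sum_add_distrib]
  refine (norm_sum_le _ _).trans (le_trans (sum_le_sum fun d _ => ?_)
    (sum_le_sum_of_subset_of_nonneg (range_subset_range.2 hr)
      fun d _ _ => add_nonneg (ind_nonneg p _) (h0 _)))
  rw [norm_mul, Complex.norm_real, Real.norm_eq_abs]
  refine (mul_le_of_le_one_right (abs_nonneg _) (hw _)).trans (abs_le.2 ⟨?_, ?_⟩)
  · linarith [ind_nonneg p (b + d)]
  · linarith [h0 (b + d)]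

end SumL

open SumL in
theorem sum : SumS := by
  intro σ p a h0 hσ hW hB h1 h2 δ hδ
  choose bl hb1 hb2 using ex_block hB
  have hbl : ∀ j d, d < len a j → bl (a j + d) = j := by
    intro j d hd
    have e1 := hb1 (a j + d)
    have e2 := hb2 (a j + d)
    have e3 := succ_eq hB j
    have e4 : bl (a j + d) < j + 1 := hB.mono.lt_iff_lt.1 (by omega)
    have e5 : j < bl (a j + d) + 1 := hB.mono.lt_iff_lt.1 (by omega)
    omega
  have hη : 0 < δ / 8 := by positivity
  obtain ⟨J₀, hJ⟩ := eventually_atTop.1 ((h1.and (h2 _ hη)).and (hB.slow _ hη))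
  set C : ℝ := ∑ d ∈ range (a J₀), ind p (0 + d) + ∑ d ∈ range (a J₀), σ (0 + d) +
    3 * (σ (a J₀) * len a J₀) with hC
  filter_upwards [hW.eventually_ge_atTop (2 * C / δ), hW.eventually_gt_atTop 0,
    eventually_ge_atTop (a J₀)] with M hM1 hM2 hM3
  refine ⟨fun d => len a (bl d), fun d => ?_, fun α hα => ?_⟩
  · have e1 : a (bl d) < a (bl d + 1) := hB.mono (Nat.lt_succ_self _)
    exact Nat.sub_pos_of_lt e1
  set w : ℕ → ℂ := fun d => win (len a (bl d)) α d with hw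
  have hw1 : ∀ d, ‖w d‖ ≤ 1 := fun d => win_le hα _ _
  set F : ℕ → ℂ := fun d => ((ind p d - σ d : ℝ) : ℂ) * w d with hF
  have part : ∀ j, J₀ ≤ j → ∀ r, r ≤ len a j →
      ‖∑ d ∈ range r, F (a j + d)‖ ≤ 3 * mass σ a j := by
    intro j hj r hr
    have e1 := triv h0 p w hw1 (a j) r _ hr
    have e2 := (hJ j hj).1.1
    rw [Fin.sum_univ_eq_sum_range (fun d => ind p (a j + d)) (len a j)] at e2
    rw [← mass_eq σ] at e1
    exact e1.trans (by linarith)
  have full : ∀ j, J₀ ≤ j → ‖∑ d ∈ range (len a j), F (a j + d)‖ ≤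
      δ / 8 * mass σ a j + 3 * (σ (a j) * len a j - σ (a (j + 1)) * len a j) := by
    intro j hj
    obtain ⟨m1, m2⟩ := mass_bd hσ hB j
    have m0 : 0 ≤ mass σ a j := le_trans (mul_nonneg (h0 _) (Nat.cast_nonneg _)) m1
    by_cases hf : σ (a j) * len a j ≤ 2 * mass σ a j
    · have e1 := (hJ j hj).1.2 hf _ (shift hα (a j))
      have e2 : ∑ d ∈ range (len a j), F (a j + d) =
          ∑ d : Fin (len a j), ((ind p (a j + d) - σ (a j + d) : ℝ) : ℂ) *
            win (len a j) (fun n m d => α n m (a j + d)) d := by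
        rw [← Fin.sum_univ_eq_sum_range (fun d => F (a j + d)) (len a j)]
        refine sum_congr rfl fun d _ => ?_
        simp only [hF, hw]
        rw [hbl j d d.2]
        rfl
      rw [e2]
      linarith
    · have e1 := part j hj _ le_rfl
      have e2 := mul_nonneg hη.le m0
      linarith
  have main : ∀ j, J₀ ≤ j → ‖∑ d ∈ range (a j), F d‖ + 3 * (σ (a j) * len a j) ≤
      C + δ / 2 * Wt σ (a j) := by
    intro j hj
    induction j, hj using Nat.le_induction with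
    | base =>
      have e1 := triv h0 p w hw1 0 (a J₀) _ le_rfl
      have e2 : 0 ≤ δ / 2 * Wt σ (a J₀) :=
        mul_nonneg (by positivity) (sum_nonneg fun d _ => h0 d)
      simp only [zero_add] at e1 hC
      simp only [hF]
      linarith
    | succ j hj ih =>
      have e1 : ∑ d ∈ range (a (j + 1)), F d =
          ∑ d ∈ range (a j), F d + ∑ d ∈ range (len a j), F (a j + d) := by
        rw [succ_eq hB j, sum_range_add]
      have e2 : Wt σ (a (j + 1)) = Wt σ (a j) + mass σ a j := by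
        rw [mass_eq, succ_eq hB j]
        exact sum_range_add σ _ _
      have e3 := mul_le_mul_of_nonneg_left (hJ j hj).2 (h0 (a (j + 1)))
      have e4 := mul_le_mul_of_nonneg_left (mass_bd hσ hB j).1 hη.le
      have e5 := norm_add_le (∑ d ∈ range (a j), F d) (∑ d ∈ range (len a j), F (a j + d))
      have e6 := full j hj
      rw [e1, e2]
      nlinarith
  have hj : J₀ ≤ bl M := Nat.lt_succ_iff.1 (hB.mono.lt_iff_lt.1 (lt_of_le_of_lt hM3 (hb2 M)))
  obtain ⟨r, hr⟩ := Nat.exists_eq_add_of_le (hb1 M)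
  have hr2 : r ≤ len a (bl M) := by
    have e1 := hb2 M
    have e2 := succ_eq hB (bl M)
    omega
  have e1 : ∑ d ∈ range M, F d =
      ∑ d ∈ range (a (bl M)), F d + ∑ d ∈ range r, F (a (bl M) + d) := by
    rw [← sum_range_add, ← hr]
  have e2 : Wt σ (a (bl M)) ≤ Wt σ M :=
    sum_le_sum_of_subset_of_nonneg (range_subset_range.2 (hb1 M)) fun d _ _ => h0 d
  have e3 : ‖∑ d ∈ range M, F d‖ ≤ δ * Wt σ M := by
    have b1 := norm_add_le (∑ d ∈ range (a (bl M)), F d) (∑ d ∈ range r, F (a (bl M) + d))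
    have b2 := part _ hj r hr2
    have b3 := (mass_bd hσ hB (bl M)).2
    have b4 := main _ hj
    have b5 := mul_le_mul_of_nonneg_left e2 (half_pos hδ).le
    have b6 := (div_le_iff₀ hδ).1 hM1
    rw [e1]
    linarith
  have e4 : ∑ d ∈ range M, (yw σ p M d : ℂ) * win (len a (bl d)) α d =
      (∑ d ∈ range M, F d) / (Wt σ M : ℂ) := by
    rw [sum_div]
    refine sum_congr rfl fun d _ => ?_
    simp only [hF, hw, yw]
    push_cast
    ring
  rw [e4, norm_div, Complex.norm_real, Real.norm_eq_abs, abs_of_pos hM2]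
  exact (div_le_iff₀ hM2).2 e3

end Pool.Agent.MP_154433_an.T7

end

end PkSum

section PkNear

/-! Row NEAR: the property `RF` passes to nearby weights. -/

set_option autoImplicit false

open Filter Topology Finset
open scoped BigOperators

noncomputable section

namespace Pool.Agent.MP_154433_an.T7

namespace NearL

lemma norm_ee (t : ℝ) : ‖ee t‖ = 1 := Complex.norm_exp_ofReal_mul_I _

lemma win_le (L : ℕ) {α : ℕ → ℕ → ℕ → ℂ} (h : Atom α) (d : ℕ) : ‖win L α d‖ ≤ 1 := by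
  obtain ⟨G, u, ξ, γ, hG, hu, h⟩ := h
  refine T3S.norm_exp_le_of zero_le_one fun n _ => T3S.norm_exp_le_of zero_le_one fun m _ => ?_
  rw [h, norm_mul, norm_mul, norm_ee, mul_one]
  exact mul_le_one₀ (hG _ _) (norm_nonneg _) (hu _ _)

end NearL

theorem near : NearS := by
  intro w w' hN hR δ hδ
  filter_upwards [hR (δ / 2) (half_pos hδ), hN.eventually (gt_mem_nhds (half_pos hδ))]
    with M ⟨L, hL, h1⟩ h2
  refine ⟨L, hL, fun α hα => ?_⟩
  have h3 : ∑ d ∈ range M, (w M d : ℂ) * win (L d) α d =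
      ∑ d ∈ range M, (w' M d : ℂ) * win (L d) α d +
        ∑ d ∈ range M, ((w M d - w' M d : ℝ) : ℂ) * win (L d) α d := by
    rw [← sum_add_distrib]
    refine sum_congr rfl fun d _ => ?_
    push_cast
    ring
  have h4 : ‖∑ d ∈ range M, ((w M d - w' M d : ℝ) : ℂ) * win (L d) α d‖ ≤
      ∑ d ∈ range M, |w M d - w' M d| := by
    refine (norm_sum_le _ _).trans (sum_le_sum fun d _ => ?_)
    rw [norm_mul, Complex.norm_real, Real.norm_eq_abs]
    exact mul_le_of_le_one_right (abs_nonneg _) (NearL.win_le _ hα d)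
  rw [h3]
  refine (norm_add_le _ _).trans ?_
  linarith [h1 α hα]

end Pool.Agent.MP_154433_an.T7

end

end PkNear

section PkGr

/-! Row Gr: the growth hypothesis gives `n * σ n → ∞`. -/

open Filter

namespace Pool.Agent.MP_154433_an.T7

theorem gr : GrS := by
  rintro σ h0 ⟨a, ha, h⟩
  refine tendsto_atTop_mono' _ ?_ h
  filter_upwards [eventually_ge_atTop 1] with n hn
  refine mul_le_mul_of_nonneg_right ?_ (h0 n)
  simpa using Real.rpow_le_rpow_of_exponent_le (Nat.one_le_cast.2 hn : (1 : ℝ) ≤ n) ha.le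

end Pool.Agent.MP_154433_an.T7

end PkGr
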