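import Pool.Agent.MP_154433_an.p7.F1
import Pool.Agent.MP_154433_an.p7.F2
import Pool.Agent.MP_154433_an.p7.F3

/-! Pairs of commuting maps: assembly of the finite part and of the probability part. -/

set_option autoImplicit false

namespace Pool.Agent.MP_154433_an.T7

theorem predAll : PredS := pred (iter (r0 samp list) (dbl (sym samp))) (wrap en pop)

theorem finAll : FinS := fin predAll stp csg (gam walk (wrap en pop)) loop refl

theorem blockAll : BlockS := block (detB finAll emb ok)

theorem aeAll : AeS := ae geo blockAll tr sum gr

end Pool.Agent.MP_154433_an.T7
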