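import Pool.Agent.MP_154433_an.p4.Top
import Pool.Agent.MP_154433_an.p4.B1
import Pool.Agent.MP_154433_an.p4.B2
import Pool.Agent.MP_154433_an.p4.B3
import Pool.Agent.MP_154433_an.p4.B4
import Pool.Agent.MP_154433_an.p4.B5
import Pool.Agent.MP_154433_an.t3a.Lim
import Pool.Agent.MP_154433_an.t3a.Mk
import Pool.Agent.MP_154433_an.p4.S1
import Pool.Agent.MP_154433_an.p4.S2
import Pool.Agent.MP_154433_an.p4.S3
import Pool.Agent.MP_154433_an.t3s.All
import Pool.Agent.MP_154433_an.t3u.Gr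
import Pool.Agent.MP_154433_an.p7.FAll
import Pool.Agent.MP_154433_an.p7.E1
import Pool.Agent.MP_154433_an.p7.E2
import Pool.Agent.MP_154433_an.p7.E3

/-! Pairs of commuting maps: assembly. -/

section PkMain

/-! From a deterministic theorem for the lattice to the statement for commuting maps. -/

set_option autoImplicit false
set_option linter.unusedVariables false

open MeasureTheory ProbabilityTheory Filter Topology Function
open scoped BigOperators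

noncomputable section

namespace Pool.Agent.MP_154433_an.T7

open T3S (PW AsInv Erg Mix Near Gr MB1 nu nb yw)
open T4S (Gm Spr Act Van Concl)

/-- the deterministic theorem for `l` maps under a hypothesis `R` on the difference -/
def DetG (l : ℕ) (R : (ℕ → ℕ → ℝ) → Prop) : Prop := ∀ ν ν' : ℕ → ℕ → ℝ, PW ν → PW ν' →
  Erg ν → Erg ν' → Spr ν → Spr ν' → AsInv ν' → R (fun M d => ν M d - ν' M d) →
  ∀ (X : Type) [MeasurableSpace X] (μ : Measure X) [IsProbabilityMeasure μ] (A : Gm l → X → X),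
  Act μ A → ∀ f : Fin l → X → ℂ, (∀ i, MB1 (f i)) →
  Van μ A (fun M d => ν M d - ν' M d) (fun i => Pi.single i 1) f

theorem mainG {l : ℕ} {R : (ℕ → ℕ → ℝ) → Prop} (hN : ∀ w w', Near w w' → R w' → R w)
    (hD : DetG l R) (σ : ℕ → ℝ) (hσ : ∀ n, 0 ≤ σ n ∧ σ n ≤ 1) (ha : Antitone σ) (hg : Gr σ 1)
    (Ω : Type) [MeasurableSpace Ω] (P : Measure Ω) [IsProbabilityMeasure P] (E : ℕ → Set Ω)
    (hE : ∀ n, MeasurableSet (E n)) (hind : iIndepSet E P)
    (hP : ∀ n, P (E n) = ENNReal.ofReal (σ n)) (hR : ∀ᵐ ω ∂P, R (yw σ fun m => ω ∈ E m)) :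
    ∀ᵐ ω ∂P, ∀ (X : Type) [MeasurableSpace X] (μ : Measure X) [IsProbabilityMeasure μ]
      (T : Fin l → X ≃ᵐ X) (f : Fin l → X → ℝ),
      (∀ i, MeasurePreserving (⇑(T i)) μ μ) → (∀ i j, Function.Commute ⇑(T i) ⇑(T j)) →
      (∀ i, MemLp (f i) ⊤ μ) → Concl (fun m => ω ∈ E m) μ T f := by
  have h0 : ∀ n, 0 ≤ σ n := fun n => (hσ n).1
  have hW := T3S.Asm.wt_tendsto h0 hg
  filter_upwards [hR, T3S.aeAll σ hσ Ω P E hE hind hP hg,
    T4S.clsr T3S.ub T4S.cnt σ hσ Ω P E hE hind hP hg] with ω hω hω' hω'' X _ μ _ T f hT hC hf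
  obtain ⟨a1, a2, a3, a4, a5⟩ := T3S.nrm.1 σ _ h0 hW hω'.1
  have hi := T3S.nrm.2.2.2 σ h0 ha hW
  have e2 : Erg (nb σ) := (T3S.erg T3S.vn).1 _ a2 hi
  have e1 : Erg (nu fun m => ω ∈ E m) :=
    (T3S.erg T3S.vn).2 _ _ e2 (T3S.nrm.2.1 _ _ a4 hω'.1)
  obtain ⟨s1, s2⟩ := T4S.spr _ _ _ a2 hi a4 hω''
  refine T4S.endr σ _ h0 ha hW a5 l X μ T hT hC (fun g hg => ?_) f hf
  obtain ⟨A, hA, h1, -, -⟩ := T4S.act l X μ T hT hC
  refine (T4S.Red.near hA a4 hg (hD _ _ a1 a2 e1 e2 s1 s2 hi (hN _ _ a4 hω) X μ A hA g hg)).congr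
    fun M => ?_
  simp only [T4S.wavg, h1]

/-- the deterministic theorem for pairs -/
def DetP : Prop := DetG 2 RF

def MainP : Prop := ∀ (σ : ℕ → ℝ), (∀ n, 0 ≤ σ n ∧ σ n ≤ 1) → Antitone σ → Poly σ →
  ∀ (Ω : Type) [MeasurableSpace Ω] (P : Measure Ω) [IsProbabilityMeasure P]
    (E : ℕ → Set Ω), (∀ n, MeasurableSet (E n)) → iIndepSet E P →
    (∀ n, P (E n) = ENNReal.ofReal (σ n)) →
  ∀ᵐ ω ∂P, ∀ (X : Type) [MeasurableSpace X] (μ : Measure X) [IsProbabilityMeasure μ]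
    (T : Fin 2 → X ≃ᵐ X) (f : Fin 2 → X → ℝ),
    (∀ i, MeasurePreserving (⇑(T i)) μ μ) → (∀ i j, Function.Commute ⇑(T i) ⇑(T j)) →
    (∀ i, MemLp (f i) ⊤ μ) → Concl (fun m => ω ∈ E m) μ T f

theorem mainP (hD : DetP) (hA : AeS) (hN : NearS) (hG : GrS) : MainP :=
  fun σ hσ ha hp Ω _ P _ E hE hind hP =>
    mainG hN hD σ hσ ha (T3u.gr_one (fun n => (hσ n).1) (hG σ (fun n => (hσ n).1) hp)) Ω P E hE
      hind hP (hA σ hσ ha hp Ω P E hE hind hP)

end Pool.Agent.MP_154433_an.T7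

end

end PkMain

section PkBridge

/-! The deterministic theorem for pairs in the vocabulary of the probabilistic part. -/

set_option autoImplicit false
set_option linter.unusedVariables false
set_option warn.classDefReducibility false

open MeasureTheory ProbabilityTheory Filter Topology Function
open scoped BigOperators ComplexConjugate

noncomputable section

namespace Pool.Agent.MP_154433_an.T7

open T3S (PW MB1 Erg)
open T3S.Bridge (toWt av_eq erg_to exists_MB1)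
open T4S (Gm Act wavg Van)
open T4S.Bridge (grp spr_to wavg_sub wavg_congr)

theorem detOf (h : ∀ G : T4x.Grp, @T4x.DETP G) : DetS := by
  intro ν ν' h1 h2 e1 e2 s1 s2 l r hB X _ μ _ A hA f hf
  let _ := grp r
  have avg_eq : ∀ {w : ℕ → ℕ → ℝ} (hw : PW w) {M : ℕ}, ∑ d ∈ Finset.range M, w M d = 1 →
      ∀ (Z : T4x.Sys) (g : Fin 2 → Z.X → ℂ) (x : Z.X),
      T4x.avg (toWt w hw) M Z r g x = wavg Z.Tz w r g M x := fun hw M e Z g x => by
    rw [T4x.avg, av_eq hw e]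
    exact Finset.sum_congr rfl fun d _ => Complex.real_smul
  have van_iff : ∀ (Z : T4x.Sys) (g : Fin 2 → Z.X → ℂ),
      Van Z.μ Z.Tz (fun M d => ν M d - ν' M d) r g ↔ Tendsto (fun M => ∫ x,
        ‖T4x.avg (toWt ν h1) M Z r g x - T4x.avg (toWt ν' h2) M Z r g x‖ ^ 2 ∂Z.μ)
        atTop (𝓝 0) := fun Z g => by
    refine tendsto_congr' ?_
    filter_upwards [h1.2, h2.2] with M e e'
    simp only [avg_eq h1 e, avg_eq h2 e', wavg_sub]
  let Y : T4x.Sys := { X := X, μ := μ, Tz := A, mp := hA.mp, zero := hA.zero, add := hA.add }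
  refine (van_iff Y f).2 (h (grp r) _ _ (Fin 2) r (fun i => {u | u = r i ∨ u = r i - r i.rev})
    (erg_to h1 e1) (erg_to h2 e2) (spr_to h1 s1) (spr_to h2 s2)
    ⟨fun i => Or.inl ⟨i, rfl⟩, fun i j hij => Or.inr ⟨i, j, hij, rfl⟩⟩ ?_ ?_ Y f
    fun i => ⟨(hf i).1.aestronglyMeasurable, 1, Eventually.of_forall (hf i).2⟩)
  · rintro u (⟨i, rfl⟩ | ⟨i, j, hij, rfl⟩)
    · exact ⟨i, Or.inl rfl⟩
    · have : j = i.rev := by
        revert i j
        decide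
      exact ⟨i, Or.inr (this ▸ rfl)⟩
  intro Z i
  have hZA := T4S.Bridge.act r Z
  have hnull : ∀ (S : Set Z.X) (v : Gm l), MeasurableSet S → Z.μ S = 0 →
      Z.Tz v ⁻¹' S =ᵐ[Z.μ] S := fun S v k1 k2 => by
    have h3 : Z.μ (Z.Tz v ⁻¹' S) = 0 := by
      rw [(Z.mp _).measure_preimage k1.nullMeasurableSet]
      exact k2
    exact (ae_eq_empty.2 h3).trans (ae_eq_empty.2 k2).symm
  have hcong : ∀ (g g' : Z.X → ℂ) (v : Gm l), g =ᵐ[Z.μ] g' →
      ∀ᵐ y ∂Z.μ, g (Z.Tz v y) = g' (Z.Tz v y) := fun g g' v k =>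
    (Z.mp v).quasiMeasurePreserving.ae_eq_comp k
  obtain ⟨B, b⟩ := hB Z.X Z.μ Z.Tz hZA i
  refine ⟨B, ⟨b.sub.1, MeasurableSpace.generateFrom_le fun S hS =>
    b.own _ (Or.inl rfl) S hS.1 (hnull S _ hS.1 hS.2), ?_⟩,
    fun u hu S hS => b.own u hu S hS.1 (hS.2 u rfl), fun g hg => (van_iff Z g).1 ?_, ?_⟩
  · rintro v _ ⟨S, hS, rfl⟩
    exact b.sub.2 v S hS
  · have hi := hg i
    rw [update_self] at hi
    refine b.good g (fun j => ?_) hi
    rcases eq_or_ne j i with rfl | hj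
    · exact hi.mono b.sub.1
    · have := hg j
      rwa [update_of_ne hj] at this
  · intro u hu g hg hg1 hg0 ε hε
    obtain ⟨g', m1, a1⟩ := @exists_MB1 Z.X Z.ms Z.μ g hg.1 hg1
    obtain ⟨H, a, hH, ha, hb⟩ := b.unif u hu g' m1 ((condExp_congr_ae a1).symm.trans hg0) ε hε
    refine ⟨H, a, hH, ha, fun C hC m m' c η hc hc1 hc0 hη => ?_⟩
    choose c' m2 a2 using fun i => @exists_MB1 Z.X Z.ms Z.μ (c i) (hc i).1 (hc1 i)
    have k : c' i =ᵐ[Z.μ] Z.μ[fun y =>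
        g' (Z.Tz ((m : ℤ) • u) y) * conj (g' (Z.Tz ((m' : ℤ) • u) y)) | C] := by
      refine (a2 i).symm.trans (hc0.trans (condExp_congr_ae ?_))
      filter_upwards [hcong g g' ((m : ℤ) • u) a1, hcong g g' ((m' : ℤ) • u) a1] with y k1 k2
      exact congrArg₂ (fun a b => a * conj b) k1 k2
    filter_upwards [hb C ⟨hC.le, fun v S hS => hC.inv v _ ⟨S, hS, rfl⟩⟩ m m' c' m2 k η hη, h2.2]
      with M hM e
    refine le_of_eq_of_le (integral_congr_ae ?_) hM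
    filter_upwards [@wavg_congr l Z.X Z.ms Z.μ Z.Tz hZA ν' (Fin 2) _ r c c' a2 M] with x hx
    rw [avg_eq h2 e, hx]

theorem own (h1 : FacS) (h2 : GoodS) (h3 : UnifS) {ν ν' : ℕ → ℕ → ℝ} (a1 : PW ν) (a2 : PW ν')
    (hi : T3S.AsInv ν') (hR : RF fun M d => ν M d - ν' M d) {l : ℕ} (r : Fin 2 → Gm l) (X : Type)
    [MeasurableSpace X] (μ : Measure X) [IsProbabilityMeasure μ] (A : Gm l → X → X) (hA : Act μ A)
    (i : Fin 2) : Own (BB μ A (r i) (r i.rev)) μ A ν ν' r i :=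
  have f := h1 l X μ A hA (r i) (r i.rev)
  ⟨f.1, f.2.2, h2 _ hR (T3S.Asm.bd_sub a1 a2) l X μ A hA r i, h3 ν' a2 hi l X μ A hA r i⟩

theorem detP (hD : DetS) (h1 : FacS) (h2 : GoodS) (h3 : UnifS) : DetP :=
  fun ν ν' a1 a2 e1 e2 s1 s2 hi hR => hD ν ν' a1 a2 e1 e2 s1 s2 2 _ fun X _ μ _ A hA i =>
    ⟨_, own h1 h2 h3 a1 a2 hi hR _ X μ A hA i⟩

theorem mainOf (h : ∀ G : T4x.Grp, @T4x.DETP G) (h1 : FacS) (h2 : GoodS) (h3 : UnifS) (hA : AeS)
    (hN : NearS) (hG : GrS) : MainS := mainP (detP (detOf h) h1 h2 h3) hA hN hG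

end Pool.Agent.MP_154433_an.T7

end

end PkBridge
section PkAlgP

set_option autoImplicit false

namespace Pool.Agent.MP_154433_an.T4A

theorem rowsP : Rows :=
  ⟨xKex, xKa, xKb, xKc, xKd, T3A.xLim, xW1, xW2, xPhb, xKw, xWk, xWa, xCe, xCi, xTri, xCis, xCfl,
    xCit, xCpo, xCpr, xPk, xLam, xLae, xPha, xPhc, xF2, xF3, xF4b, xIid, xXi, xPull, xPush, xInt, xPrj,
    xG5, xG3, xG4, xRli, xT1, xT2, xSel, xSub, xTau, T3A.xMk, xTh, xPsi, xPsr, xSd, xCt,
    xFin (xCore (xSp (xZl xPig) xQh))⟩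

theorem xAlgP (G : T4x.Grp) : @T4x.AlgS G :=
  @bridge G (algS_of_rows rowsP) xExa (@T4x.basX G).t (@T4x.fdX G).mix

end Pool.Agent.MP_154433_an.T4A

namespace Pool.Agent.MP_154433_an.T7

theorem detPAll (G : T4x.Grp) : @T4x.DETP G :=
  have F := @T4x.fdX G
  have g := @T4x.gf G (@T4x.basX G)
  have V := T4x.vanP F (T4x.keyP F)
  T4x.detP F g (T4x.gfP F) (T4x.ownP F (T4x.gfP F) V) (T4x.forP F (T4x.gfP F) V)
    (T4x.top F g (T4x.indX T4A.xAlgP G))

theorem facAll : FacS := fac (alg kcal)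

theorem goodAll : GoodS := good (prod kcal) (alg kcal) facAll

theorem unifAll : UnifS :=
  unif facAll (zero kcal T3S.nest) link (blk (cub kcal line wie shift) link) (gcs yg)
    (T4S.gvn T3S.vdc) T4S.perm

/-- the theorem for two commuting maps in the polynomial range -/
theorem mainPair : MainS := mainOf detPAll facAll goodAll unifAll aeAll near gr

end Pool.Agent.MP_154433_an.T7

end PkAlgP
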