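import Pool.Agent.MP_154433_an.t7.SpecF
import Pool.Agent.MP_154433_an.h31.Samp
import Pool.Agent.MP_154433_an.t7w.AgA

/-! Pairs of commuting maps: prediction rows (packed). -/

section PkR0

/-! Row R0: the first prediction. -/

set_option autoImplicit false
set_option linter.unusedVariables false

open Finset
open scoped BigOperators ComplexConjugate

noncomputable section

namespace Pool.Agent.MP_154433_an.T7

open T3S (B1)
open T7W.Ag (PW sq_cast list pig)

namespace R0L

lemma oi_nn (p : Prop) : 0 ≤ oi p := by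
  unfold oi
  split_ifs <;> norm_num

lemma oi_le (p : Prop) : oi p ≤ 1 := by
  unfold oi
  split_ifs <;> norm_num

lemma norm_one {α : Type} (E : Set α) (a : α) : ‖one E a‖ = oi (a ∈ E) := by
  rw [one, Complex.norm_real, Real.norm_of_nonneg (oi_nn _)]

variable (S : St) (c : S.A → S.I → ℂ)

lemma nrm (i : S.I) (θ : S.Θ) : ‖S.χ i θ‖ = 1 := AddChar.norm_apply _ _

/-- the coefficient at the label `i`, from the two values at `w - i` -/
def co (w : S.A) (j i : S.I) (b : ℂ) (θ : S.Θ) : ℂ :=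
  c (w - S.ι i - S.ι j) i * conj (b * (S.χ j θ * c (w - S.ι i - S.ι j) j))

lemma co_le (hc : B2 c) (w : S.A) (j i : S.I) {b : ℂ} (hb : ‖b‖ ≤ 1) (θ : S.Θ) :
    ‖co S c w j i b θ‖ ≤ 1 := by
  rw [co, norm_mul, Complex.norm_conj, norm_mul, norm_mul, nrm, one_mul]
  exact mul_le_one₀ (hc _ _) (by positivity) (mul_le_one₀ hb (norm_nonneg _) (hc _ _))

def K (π : S.I → ℝ) (E : Set S.A) (φ : S.A → S.Θ) (w : S.A) (j : S.I) (θ : S.Θ) : ℂ :=
  ∑ i, (π i : ℂ) * (co S c w j i (one E (w - S.ι i)) (φ (w - S.ι i)) * S.χ i θ)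

lemma cs {π : S.I → ℝ} (hπ : PW π) {G : S.A → ℂ} (hG : B1 G) (E : Set S.A) (φ : S.A → S.Θ)
    {δ : ℝ} (hδ : 0 < δ) (h : δ * S.n ≤ ‖S.form π G (one E) (S.tw φ c)‖) :
    δ ^ 2 * S.n ≤ ∑ w, ∑ j, π j * (oi (w - S.ι j ∈ E) * ‖K S c π E φ w j (φ (w - S.ι j))‖) := by
  have n0 : 0 < S.n := Nat.cast_pos.2 Fintype.card_pos
  let F : S.A → ℂ := fun y => ∑ i, (π i : ℂ) * (one E (y + S.ι i) * S.tw φ c y i)
  have a1 : δ * S.n ≤ ∑ y, ‖F y‖ := by
    refine h.trans ((norm_sum_le _ _).trans (sum_le_sum fun y _ => ?_))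
    have : ∑ i, (π i : ℂ) * (G y * one E (y + S.ι i) * S.tw φ c y i) = G y * F y := by
      simp only [F, mul_sum]
      exact sum_congr rfl fun i _ => by ring
    rw [this, norm_mul]
    exact mul_le_of_le_one_left (norm_nonneg _) (hG y)
  have a2 := sq_sum_le_card_mul_sum_sq (s := univ) (f := fun y => ‖F y‖)
  rw [card_univ] at a2
  have a3 : δ ^ 2 * S.n ≤ ∑ y, ‖F y‖ ^ 2 := by
    refine le_of_mul_le_mul_left ?_ n0
    calc S.n * (δ ^ 2 * S.n) = (δ * S.n) ^ 2 := by ring
      _ ≤ _ := pow_le_pow_left₀ (by positivity) a1 2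
      _ ≤ _ := a2
  calc δ ^ 2 * S.n ≤ ∑ y, ‖F y‖ ^ 2 := a3
    _ ≤ ‖((∑ y, ‖F y‖ ^ 2 : ℝ) : ℂ)‖ := by
        rw [Complex.norm_real]
        exact le_abs_self _
    _ = ‖∑ w, ∑ j, (π j : ℂ) * (one E (w - S.ι j) * K S c π E φ w j (φ (w - S.ι j)))‖ := by
        congr 1
        rw [Complex.ofReal_sum]
        simp only [sq_cast, F, map_sum, sum_mul_sum]
        simp only [K, mul_sum]
        rw [sum_comm]
        conv_rhs => rw [sum_congr rfl fun w _ => sum_comm, sum_comm]
        refine sum_congr rfl fun i _ => ?_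
        rw [sum_comm]
        conv_rhs => rw [sum_comm]
        refine sum_congr rfl fun j _ => ?_
        refine Fintype.sum_equiv (Equiv.addRight (S.ι i + S.ι j)) _ _ fun y => ?_
        simp only [Equiv.coe_addRight, co, St.tw, map_mul, Complex.conj_ofReal,
          show y + (S.ι i + S.ι j) - S.ι j = y + S.ι i by abel,
          show y + (S.ι i + S.ι j) - S.ι i = y + S.ι j by abel, add_sub_cancel_right]
        ring
    _ ≤ _ := (norm_sum_le _ _).trans (sum_le_sum fun w _ => (hπ.norm_le _).trans (le_of_eq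
        (sum_congr rfl fun j _ => by rw [norm_mul, norm_one])))

end R0L

open R0L in
theorem r0 (hSamp : SampS) (hList : ListS) : R0S := by
  classical
  intro δ hδ B
  obtain ⟨τ, hτ⟩ : ∃ τ, τ = δ ^ 2 := ⟨_, rfl⟩
  have τ0 : 0 < τ := by rw [hτ]; positivity
  obtain ⟨η, η0, η1, η2⟩ : ∃ η : ℝ, 0 < η ∧ η ≤ 1 ∧ η ≤ τ / 8 :=
    ⟨min 1 (τ / 8), by positivity, min_le_left _ _, min_le_right _ _⟩
  obtain ⟨L, L0, hL⟩ : ∃ L : ℕ, 0 < L ∧ 8 * B / (τ / 4) ^ 6 ≤ L :=
    ⟨⌈8 * B / (τ / 4) ^ 6⌉₊ + 1, Nat.succ_pos _, (Nat.le_ceil _).trans (by push_cast; linarith)⟩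
  have L0' : (0 : ℝ) < L := by exact_mod_cast L0
  refine ⟨(τ / 4) ^ 2 / 2, τ / (2 * L), 1 + 3 * (256 / η ^ 2 + 1) + L, by positivity,
    by positivity, by positivity, fun S x c ⟨x1, xA, xI, xT⟩ hc => ?_⟩
  obtain ⟨m, m0, hm, hm'⟩ : ∃ m : ℕ, 0 < m ∧ 64 * (2 * x + 2) ≤ η ^ 2 * m ∧
      (m : ℝ) ≤ (256 / η ^ 2 + 1) * x := by
    have a1 := Nat.le_ceil (256 / η ^ 2 * x)
    have a0 : 0 < 256 / η ^ 2 * x := by positivity
    refine ⟨⌈256 / η ^ 2 * x⌉₊, Nat.ceil_pos.2 a0, ?_, ?_⟩
    · calc 64 * (2 * x + 2) ≤ 256 * x := by linarith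
        _ = η ^ 2 * (256 / η ^ 2 * x) := by field_simp
        _ ≤ _ := by gcongr
    · have := (Nat.ceil_lt_add_one a0.le).le
      linarith
  let P : (S.A × (Fin m → S.I × Bool × S.Θ)) × S.I → Finset S.Θ := fun z => univ.filter fun θ =>
    3 * τ / 8 ≤ ‖(m : ℂ)⁻¹ * ∑ r, co S c z.1.1 z.2 (z.1.2 r).1 (if (z.1.2 r).2.1 then 1 else 0)
      (z.1.2 r).2.2 * S.χ (z.1.2 r).1 θ‖
  obtain ⟨f, hf⟩ := list P L
  refine ⟨univ.image fun z : (S.A × (Fin m → S.I × Bool × S.Θ)) × Fin L =>
    fun J => f z.2 (z.1, J ()), ?_, fun π G E φ hπ hS hG h => ?_⟩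
  · have a1 : (Fintype.card (S.I × Bool × S.Θ) : ℝ) ≤ Real.exp (3 * x) := by
      have : (2 : ℝ) ≤ Real.exp x := by linarith [Real.add_one_le_exp x]
      rw [Fintype.card_prod, Fintype.card_prod, Fintype.card_bool, show 3 * x = x + (x + x) by ring,
        Real.exp_add, Real.exp_add]
      push_cast
      gcongr
    have x2 : x ≤ x ^ 2 := le_self_pow₀ x1 two_ne_zero
    calc _ ≤ (Fintype.card ((S.A × (Fin m → S.I × Bool × S.Θ)) × Fin L) : ℝ) := by
          exact_mod_cast card_image_le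
      _ = Fintype.card S.A * (Fintype.card (S.I × Bool × S.Θ) : ℝ) ^ m * L := by
          rw [Fintype.card_prod, Fintype.card_prod, Fintype.card_fun, Fintype.card_fin,
            Fintype.card_fin]
          push_cast
          rfl
      _ ≤ Real.exp x * Real.exp (3 * x) ^ m * Real.exp L := by
          gcongr
          linarith [Real.add_one_le_exp (L : ℝ)]
      _ = Real.exp (x + m * (3 * x) + L) := by rw [Real.exp_add, Real.exp_add, Real.exp_nat_mul]
      _ ≤ _ := by
          refine Real.exp_le_exp.2 ?_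
          have b1 := mul_le_mul_of_nonneg_right hm' (show 0 ≤ 3 * x by linarith)
          have b2 := mul_le_mul_of_nonneg_left (x1.trans x2) L0'.le
          calc x + m * (3 * x) + L ≤ x ^ 2 + (256 / η ^ 2 + 1) * x * (3 * x) + L * x ^ 2 := by
                linarith
            _ = _ := by ring
  have hw : PW π := ⟨hπ.1, hπ.2⟩
  have o1 : ∀ a, ‖one E a‖ ≤ 1 := fun a => (norm_one E a).trans_le (oi_le _)
  have k1 : ∀ w j i θ, ‖co S c w j i (one E (w - S.ι i)) (φ (w - S.ι i)) * S.χ i θ‖ ≤ 1 :=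
    fun w j i θ => by rw [norm_mul, nrm, mul_one]; exact co_le S c hc w j i (o1 _) _
  have a1 := cs S c hw hG E φ hδ h
  choose t _ ht using fun w => Mau.samp (P := S.I × S.Θ) π hπ.1 hπ.2
    (fun z i => co S c w z.1 i (one E (w - S.ι i)) (φ (w - S.ι i)) * S.χ i z.2)
    (fun z i => k1 w _ _ _) η0 η1 (L := 2 * x) (by
      rw [Fintype.card_prod, two_mul, Real.exp_add]
      push_cast
      gcongr) m m0 hm
  let t' : S.A → Fin m → S.I × Bool × S.Θ := fun w r =>
    (t w r, decide (w - S.ι (t w r) ∈ E), φ (w - S.ι (t w r)))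
  have a2 : ∀ w j θ, τ / 2 ≤ ‖K S c π E φ w j θ‖ → ∃ i, f i ((w, t' w), j) = θ := by
    intro w j θ ha
    have c1 : ∀ b, ‖(m : ℂ)⁻¹ * ∑ r, co S c w j (t' w r).1 (if (t' w r).2.1 then 1 else 0)
        (t' w r).2.2 * S.χ (t' w r).1 b - K S c π E φ w j b‖ ≤ τ / 8 := by
      intro b
      refine le_trans (le_of_eq ?_) ((ht w (j, b)).trans η2)
      congr 4
      funext r
      congr 2
      by_cases q : w - S.ι (t w r) ∈ E <;> simp [t', one, oi, q]
    refine hf _ ?_ θ (mem_filter.2 ⟨mem_univ _, ?_⟩)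
    · have c4 := hList S π B _ (τ / 4)
        (fun i => co S c w j i (one E (w - S.ι i)) (φ (w - S.ι i))) hπ hS (by positivity) le_rfl
        fun i => co_le S c hc w j i (o1 _) _
      have c5 : ((P ((w, t' w), j)).card : ℝ) ≤ L := by
        refine le_trans ?_ (c4.trans hL)
        rw [card_filter]
        push_cast
        refine sum_le_sum fun b _ => ?_
        split_ifs with c2
        · have c3 := (norm_sub_norm_le _ _).trans (c1 b)
          exact (if_pos (show τ / 4 ≤ ‖K S c π E φ w j b‖ by linarith)).ge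
        · exact oi_nn _
      exact_mod_cast c5
    · have c3 := (norm_sub_norm_le _ _).trans ((norm_sub_rev _ _).trans_le (c1 θ))
      linarith
  choose i hi using fun w => pig π hπ.1 L0
    (fun j => w - S.ι j ∈ E ∧ τ / 2 ≤ ‖K S c π E φ w j (φ (w - S.ι j))‖)
    (fun i j => w - S.ι j ∈ E ∧ φ (w - S.ι j) = f i ((w, t' w), j))
    fun j hj => (a2 w j _ hj.2).imp fun i hi => ⟨hj.1, hi.symm⟩
  refine ⟨fun w J => f (i w) ((w, t' w), J ()),
    fun w => mem_image.2 ⟨((w, t' w), i w), mem_univ _, rfl⟩, ?_⟩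
  have a3 : ∀ w, ∑ j, π j * (oi (w - S.ι j ∈ E) * ‖K S c π E φ w j (φ (w - S.ι j))‖) ≤
      τ / 2 + L * ∑ J : Unit → S.I, wt π J * oi (w - ∑ t, S.ι (J t) ∈ E ∧
        φ (w - ∑ t, S.ι (J t)) = f (i w) ((w, t' w), J ())) := by
    intro w
    have e : ∀ g : S.I → ℝ, τ / 2 + ∑ j, π j * g j = ∑ j, π j * (τ / 2 + g j) := fun g => by
      simp only [mul_add, sum_add_distrib, ← sum_mul, hπ.2, one_mul]
    refine le_trans ?_ (add_le_add le_rfl ((hi w).trans_eq (congrArg _ ?_)))
    · rw [e]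
      refine sum_le_sum fun j _ => mul_le_mul_of_nonneg_left ?_ (hπ.1 j)
      have c1 : ‖K S c π E φ w j (φ (w - S.ι j))‖ ≤ 1 := hw.norm_le_one fun i => k1 w j i _
      by_cases q1 : w - S.ι j ∈ E
      · rw [show oi (w - S.ι j ∈ E) = 1 from if_pos q1, one_mul]
        by_cases q2 : τ / 2 ≤ ‖K S c π E φ w j (φ (w - S.ι j))‖
        · rw [if_pos ⟨q1, q2⟩]
          linarith
        · rw [if_neg fun h => q2 h.2]
          linarith
      · rw [show oi (w - S.ι j ∈ E) = 0 from if_neg q1, if_neg fun h => q1 h.1]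
        linarith
    · refine (Fintype.sum_equiv (Equiv.funUnique Unit S.I) _ _ fun J => ?_).symm
      simp only [wt, oi, Fintype.prod_unique, Fintype.sum_unique, Equiv.funUnique_apply]
  have a4 := a1.trans (sum_le_sum fun w _ => a3 w)
  rw [sum_add_distrib, sum_const, card_univ, nsmul_eq_mul, ← mul_sum, ← hτ] at a4
  rw [div_mul_eq_mul_div, div_le_iff₀ (by positivity)]
  unfold St.n at a4 ⊢
  linarith

end Pool.Agent.MP_154433_an.T7

end

end PkR0

section PkSamp

/-! Samples with almost correct means. -/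

set_option autoImplicit false

open Finset

namespace Pool.Agent.MP_154433_an.T7

theorem samp : SampS := by
  intro η hη
  obtain ⟨e, e0, e1, e2⟩ : ∃ e : ℝ, 0 < e ∧ e ≤ 1 ∧ e ≤ η :=
    ⟨min η 1, by positivity, min_le_right _ _, min_le_left _ _⟩
  refine ⟨32 / e ^ 2 + 1, by have : 0 ≤ 32 / e ^ 2 := by positivity
                             linarith, ?_⟩
  intro X Φ _ _ π f y s hπ hf hy hΦ hs
  have h1 : 32 / e ^ 2 * y + 1 ≤ s := by rw [add_mul] at hs; linarith
  have h2 : 0 ≤ 32 / e ^ 2 * y := by positivity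
  have s0 : 0 < s := by exact_mod_cast (show (0 : ℝ) < s by linarith)
  obtain ⟨t, -, ht⟩ := Mau.sampR (P := Φ × Bool) π hπ.1 hπ.2
    (fun p x => (bif p.2 then 1 else -1) * f p.1 x)
    (fun p x => by rcases p with ⟨φ, _ | _⟩ <;> simpa using hf φ x) (L := y + 1) e0 e1 (by
      rw [Fintype.card_prod, Fintype.card_bool, Real.exp_add]
      push_cast
      exact mul_le_mul hΦ (by linarith [Real.add_one_le_exp 1]) (by norm_num)
        (Real.exp_pos _).le) s s0 (by
      have h3 : 32 * y ≤ e ^ 2 * s := by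
        rw [div_mul_eq_mul_div, ← le_sub_iff_add_le, div_le_iff₀ (by positivity)] at h1
        nlinarith [sq_nonneg e]
      linarith)
  refine ⟨t, fun φ => ?_⟩
  have k1 := ht (φ, true)
  have k2 := ht (φ, false)
  simp only [cond_true, cond_false, one_mul, neg_mul, mul_neg, sum_neg_distrib] at k1 k2
  exact abs_le.2 ⟨by linarith, by linarith⟩

end Pool.Agent.MP_154433_an.T7

end PkSamp

section PkList

/-! The list of large twisted frequencies is short. -/

set_option autoImplicit false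

open Finset
open scoped BigOperators ComplexConjugate

noncomputable section

namespace Pool.Agent.MP_154433_an.T7

open T3S (B1)

namespace ListL

theorem oi_nonneg (p : Prop) : 0 ≤ oi p := by unfold oi; split_ifs <;> norm_num

theorem jen {I : Type} [Fintype I] {π : I → ℝ} (h : PV π) (x : I → ℝ) :
    (∑ i, π i * x i) ^ 2 ≤ ∑ i, π i * x i ^ 2 := by
  have h0 : 0 ≤ ∑ i, π i * (x i - ∑ j, π j * x j) ^ 2 :=
    sum_nonneg fun i _ => mul_nonneg (h.1 i) (sq_nonneg _)
  have e : ∀ m : ℝ, ∑ i, π i * (x i - m) ^ 2 =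
      ∑ i, π i * x i ^ 2 - 2 * m * ∑ i, π i * x i + m ^ 2 * ∑ i, π i := fun m => by
    rw [mul_sum, mul_sum, ← sum_sub_distrib, ← sum_add_distrib]
    exact sum_congr rfl fun i _ => by ring
  rw [e, h.2] at h0
  nlinarith

end ListL

open ListL in
theorem list : ListS := by
  classical
  intro S π B η0 ρ a hπ hS hρ hη ha
  set F : S.Θ → ℂ := fun θ => ∑ i, (π i : ℂ) * (a i * S.χ i θ) with hF
  set K : S.Θ → ℂ := fun θ => ∑ i, (π i : ℂ) * S.χ i θ with hK
  set T := univ.filter fun θ => ρ ≤ ‖F θ‖ with hT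
  set η := ρ ^ 2 / 2 with hηd
  have η0' : 0 < η := by positivity
  have hc := hS η hη
  have hN : cnt (fun θ => ρ ≤ ‖F θ‖) = T.card := by
    rw [cnt, hT, card_filter]
    push_cast
    exact sum_congr rfl fun θ _ => by unfold oi; congr
  have nπ : ∀ i, ‖(π i : ℂ)‖ = π i := fun i => by rw [Complex.norm_real, Real.norm_of_nonneg (hπ.1 i)]
  have K1 : ∀ θ, ‖K θ‖ ≤ η + oi (η < ‖K θ‖) := fun θ => by
    unfold oi
    split_ifs with c
    · have : ‖K θ‖ ≤ ∑ i, π i := (norm_sum_le _ _).trans (le_of_eq (sum_congr rfl fun i _ => by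
        rw [norm_mul, nπ, AddChar.norm_apply, mul_one]))
      rw [hπ.2] at this
      linarith
    · linarith [not_lt.1 c]
  choose u hu1 hu using fun θ => Complex.exists_norm_eq_mul_self (F θ)
  set g : S.I → ℂ := fun i => ∑ θ ∈ T, u θ * S.χ i θ with hg
  have h1 : (T.card : ℝ) * ρ ≤ ∑ i, π i * ‖g i‖ := by
    have e : ((∑ θ ∈ T, ‖F θ‖ : ℝ) : ℂ) = ∑ i, (π i : ℂ) * (a i * g i) := by
      push_cast
      simp only [hu]
      simp only [hF, hg, mul_sum]
      rw [sum_comm]
      exact sum_congr rfl fun i _ => sum_congr rfl fun θ _ => by ring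
    calc (T.card : ℝ) * ρ ≤ ∑ θ ∈ T, ‖F θ‖ := by
          rw [← nsmul_eq_mul]
          exact card_nsmul_le_sum _ _ _ fun θ hθ => (mem_filter.1 hθ).2
      _ ≤ ‖((∑ θ ∈ T, ‖F θ‖ : ℝ) : ℂ)‖ := by rw [Complex.norm_real]; exact le_abs_self _
      _ ≤ _ := by
          rw [e]
          refine (norm_sum_le _ _).trans (sum_le_sum fun i _ => ?_)
          rw [norm_mul, nπ, norm_mul]
          exact mul_le_mul_of_nonneg_left (mul_le_of_le_one_left (norm_nonneg _) (ha i)) (hπ.1 i)
  have h2 : ∑ i, π i * ‖g i‖ ^ 2 ≤ T.card * (T.card * η + B / η ^ 2) := by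
    have e : ((∑ i, π i * ‖g i‖ ^ 2 : ℝ) : ℂ) =
        ∑ θ ∈ T, ∑ θ' ∈ T, u θ * conj (u θ') * K (θ - θ') := by
      push_cast
      simp only [← Complex.mul_conj', hg, hK, map_sum, sum_mul_sum]
      simp only [mul_sum]
      rw [sum_comm]
      refine sum_congr rfl fun θ _ => ?_
      rw [sum_comm]
      refine sum_congr rfl fun θ' _ => sum_congr rfl fun i _ => ?_
      rw [sub_eq_add_neg, AddChar.map_add_eq_mul, AddChar.map_neg_eq_conj, map_mul]
      ring
    calc _ ≤ ‖((∑ i, π i * ‖g i‖ ^ 2 : ℝ) : ℂ)‖ := by rw [Complex.norm_real]; exact le_abs_self _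
      _ ≤ ∑ θ ∈ T, (T.card * η + B / η ^ 2) := by
          rw [e]
          refine (norm_sum_le _ _).trans (sum_le_sum fun θ _ => (norm_sum_le _ _).trans ?_)
          have h3 : ∑ θ' ∈ T, oi (η < ‖K (θ - θ')‖) ≤ B / η ^ 2 := by
            refine le_trans (sum_le_univ_sum_of_nonneg fun _ => oi_nonneg _) (le_trans ?_ hc)
            exact le_of_eq ((Equiv.subLeft θ).sum_comp fun θ' => oi (η < ‖K θ'‖))
          refine (sum_le_sum (g := fun θ' => η + oi (η < ‖K (θ - θ')‖)) fun θ' _ => ?_).trans ?_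
          · rw [norm_mul, norm_mul, Complex.norm_conj, hu1, hu1, one_mul, one_mul]
            exact K1 _
          · rw [sum_add_distrib, sum_const, nsmul_eq_mul]
            linarith
      _ = _ := by rw [sum_const, nsmul_eq_mul]
  have h3 := (pow_le_pow_left₀ (by positivity) h1 2).trans ((jen hπ _).trans h2)
  have h0 : 0 ≤ B / η ^ 2 := le_trans (sum_nonneg fun _ _ => oi_nonneg _) hc
  have e : 8 * B / ρ ^ 6 = B / η ^ 2 / η := by rw [hηd]; field_simp; ring
  rw [hN, e, le_div_iff₀ η0']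
  rcases (Nat.cast_nonneg (α := ℝ) T.card).eq_or_lt with c | c
  · rw [← c, zero_mul]; exact h0
  · refine le_of_mul_le_mul_left ?_ c
    have : ρ ^ 2 = 2 * η := by rw [hηd]; ring
    rw [mul_pow, this] at h3
    nlinarith

end Pool.Agent.MP_154433_an.T7

end

end PkList

section PkSym

/-! Symmetrisation of two predictions. -/

set_option autoImplicit false

open scoped BigOperators
open Finset

noncomputable section

namespace Pool.Agent.MP_154433_an.T7

namespace SymL

/-- a tuple with maximal coverage: any further set adds at most the part `1 / m` -/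
lemma exch {F A : Type} [Fintype A] [DecidableEq A] {m : ℕ} (C : F → Finset A) (b : Fin m → F)
    (hb : ∀ b' : Fin m → F, (univ.biUnion fun u => C (b' u)).card ≤
      (univ.biUnion fun u => C (b u)).card) (l : F) :
    m * (C l \ univ.biUnion fun u => C (b u)).card ≤ Fintype.card A := by
  classical
  let R : Fin m → Finset A := fun u => (univ.erase u).biUnion fun v => C (b v)
  have h1 : ∀ u, (C l \ univ.biUnion fun u => C (b u)).card ≤ (C (b u) \ R u).card := fun u => by
    have e1 : (univ.biUnion fun v => C (b v)) = C (b u) \ R u ∪ R u := by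
      rw [sdiff_union_self_eq_union]
      ext a
      simp only [mem_biUnion, mem_univ, true_and, mem_union, R, mem_erase, and_true]
      constructor
      · rintro ⟨v, hv⟩
        by_cases h : v = u
        · exact Or.inl (h ▸ hv)
        · exact Or.inr ⟨v, h, hv⟩
      · rintro (h | ⟨v, -, hv⟩)
        · exact ⟨u, h⟩
        · exact ⟨v, hv⟩
    have e2 : (C l \ univ.biUnion fun u => C (b u)) ∪ R u ⊆
        univ.biUnion fun v => C (Function.update b u l v) := by
      intro a ha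
      simp only [mem_biUnion, mem_univ, true_and, mem_union, R, mem_erase, and_true,
        mem_sdiff] at ha ⊢
      rcases ha with ⟨h, -⟩ | ⟨v, hv, h⟩
      · exact ⟨u, by rwa [Function.update_self]⟩
      · exact ⟨v, by rwa [Function.update_of_ne hv]⟩
    have e3 : Disjoint (C l \ univ.biUnion fun u => C (b u)) (R u) := by
      refine disjoint_left.2 fun a ha hr => (mem_sdiff.1 ha).2 ?_
      obtain ⟨v, -, hv⟩ := mem_biUnion.1 hr
      exact mem_biUnion.2 ⟨v, mem_univ _, hv⟩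
    have e4 := (card_le_card e2).trans (hb (Function.update b u l))
    rw [card_union_of_disjoint e3] at e4
    have e5 := card_union_le (C (b u) \ R u) (R u)
    rw [← e1] at e5
    omega
  have h2 : ∑ u, (C (b u) \ R u).card ≤ Fintype.card A := by
    rw [← card_biUnion]
    · exact card_le_univ _
    · intro u _ v _ huv
      refine disjoint_left.2 fun a ha hv => (mem_sdiff.1 hv).2 ?_
      exact mem_biUnion.2 ⟨u, mem_erase.2 ⟨huv, mem_univ _⟩, (mem_sdiff.1 ha).1⟩
  refine le_trans ?_ h2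
  have := sum_le_sum (s := univ) fun u _ => h1 u
  rwa [sum_const, card_univ, Fintype.card_fin, smul_eq_mul] at this

open Classical in
/-- the symmetrisation step -/
theorem core {X Θ F : Type} [Fintype X] [Fintype F] [Nonempty F] (ev : F → X → Θ) (m n : ℕ)
    (hm : 0 < m) (hn : 0 < n) {η : ℝ}
    (hs : ∀ (π : X → ℝ) (f : Bool × X × (Fin m → F) → X → ℝ), PV π → (∀ φ x, |f φ x| ≤ 1) →
      ∃ a : Fin n → X, ∀ φ, |∑ x, π x * f φ x - (n : ℝ)⁻¹ * ∑ j, f φ (a j)| ≤ η) :
    ∃ ev' : (Fin n → X × F) × Fin m → X → X → Θ, ∀ (π : X → ℝ), (∀ x, 0 ≤ π x) → ∑ x, π x = 1 →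
      ∀ (Λ : X → F) (Gd : X → X → Prop), (∀ J J', Gd J J' → ev (Λ J') J = ev (Λ J) J') →
      ∃ q, (∑ J', ∑ J, π J' * (π J * if Gd J J' then 1 else 0) - 1 / m - 2 * η) / m ≤
        ∑ J', ∑ J, π J' * (π J * if Gd J J' ∧ ev' q J J' = ev (Λ J) J' then 1 else 0) := by
  let C : (Fin n → X × F) → X → F → Finset (Fin n) := fun t J' l =>
    univ.filter fun a => ev l (t a).1 = ev (t a).2 J'
  have hb : ∀ (t : Fin n → X × F) (J' : X), ∃ b : Fin m → F, ∀ b' : Fin m → F,
      (univ.biUnion fun u => C t J' (b' u)).card ≤ (univ.biUnion fun u => C t J' (b u)).card :=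
    fun t J' => Finite.exists_max fun b : Fin m → F => (univ.biUnion fun u => C t J' (b u)).card
  choose B hB using hb
  refine ⟨fun q J J' => ev (B q.1 J' q.2) J, fun π h0 h1 Λ Gd hG => ?_⟩
  obtain ⟨s, hs'⟩ := hs π
    (fun p J => if p.1 then (if Gd J p.2.1 ∧ ∃ u, ev (p.2.2 u) J = ev (Λ J) p.2.1 then 1 else 0)
      else if Gd J p.2.1 then 1 else 0) ⟨h0, h1⟩ fun p J => by split_ifs <;> simp
  let t : Fin n → X × F := fun a => (s a, Λ (s a))
  have m3 : (0 : ℝ) < m := by exact_mod_cast hm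
  have n3 : (0 : ℝ) < n := by exact_mod_cast hn
  have key : ∀ J', ∑ J, π J * (if Gd J J' then 1 else 0) - 1 / m - 2 * η ≤
      ∑ u, ∑ J, π J * if Gd J J' ∧ ev (B t J' u) J = ev (Λ J) J' then 1 else 0 := fun J' => by
    have a1 := (abs_le.1 (hs' (true, J', B t J'))).1
    have a2 := (abs_le.1 (hs' (false, J', B t J'))).2
    simp only [if_true, Bool.false_eq_true, if_false] at a1 a2
    have a3 := exch (C t J') (B t J') (hB t J') (Λ J')
    rw [Fintype.card_fin] at a3
    have a4 : ∑ a, (if Gd (s a) J' then (1 : ℝ) else 0) ≤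
        ∑ a, (if Gd (s a) J' ∧ ∃ u, ev (B t J' u) (s a) = ev (Λ (s a)) J' then (1 : ℝ) else 0) +
          ((C t J' (Λ J') \ univ.biUnion fun u => C t J' (B t J' u)).card : ℝ) := by
      set N := C t J' (Λ J') \ univ.biUnion fun u => C t J' (B t J' u) with hN
      have e : (N.card : ℝ) = ∑ a, if a ∈ N then (1 : ℝ) else 0 := by simp
      rw [e, ← sum_add_distrib]
      refine sum_le_sum fun a _ => ?_
      by_cases g1 : Gd (s a) J'
      · by_cases g2 : ∃ u, ev (B t J' u) (s a) = ev (Λ (s a)) J'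
        · rw [if_pos g1, if_pos ⟨g1, g2⟩]
          split_ifs <;> norm_num
        · have g3 : a ∈ N := by
            simp only [hN, C, t, mem_sdiff, mem_filter, mem_univ, true_and, mem_biUnion]
            exact ⟨hG _ _ g1, g2⟩
          rw [if_pos g1, if_neg fun h => g2 h.2, if_pos g3, zero_add]
      · rw [if_neg g1]
        split_ifs <;> norm_num
    have a5 : ∑ J, π J * (if Gd J J' ∧ ∃ u, ev (B t J' u) J = ev (Λ J) J' then (1 : ℝ) else 0) ≤
        ∑ u, ∑ J, π J * if Gd J J' ∧ ev (B t J' u) J = ev (Λ J) J' then 1 else 0 := by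
      rw [sum_comm]
      refine sum_le_sum fun J _ => ?_
      rw [← mul_sum]
      refine mul_le_mul_of_nonneg_left ?_ (h0 J)
      split_ifs with g
      · obtain ⟨g1, u, g2⟩ := g
        refine le_trans ?_ (single_le_sum (fun v _ => by split_ifs <;> norm_num) (mem_univ u))
        rw [if_pos ⟨g1, g2⟩]
      · exact sum_nonneg fun v _ => by split_ifs <;> norm_num
    have a6 : (n : ℝ)⁻¹ * ((C t J' (Λ J') \ univ.biUnion fun u => C t J' (B t J' u)).card : ℝ) ≤
        1 / m := by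
      rw [inv_mul_le_iff₀ n3, mul_one_div, le_div_iff₀ m3, mul_comm]
      exact_mod_cast a3
    have a7 := mul_le_mul_of_nonneg_left a4 (inv_pos.2 n3).le
    rw [mul_add] at a7
    linarith
  have tot : ∑ J', ∑ J, π J' * (π J * if Gd J J' then 1 else 0) - 1 / m - 2 * η ≤
      ∑ u, ∑ J', ∑ J, π J' *
        (π J * if Gd J J' ∧ ev (B t J' u) J = ev (Λ J) J' then 1 else 0) := by
    have := sum_le_sum (s := univ) fun J' _ => mul_le_mul_of_nonneg_left (key J') (h0 J')
    simp only [mul_sub, sum_sub_distrib, ← sum_mul, h1, one_mul, mul_sum] at this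
    rwa [sum_comm (s := (univ : Finset (Fin m)))]
  by_contra hc
  push Not at hc
  have : Nonempty (Fin m) := ⟨⟨0, hm⟩⟩
  have := sum_lt_sum_of_nonempty (s := (univ : Finset (Fin m))) univ_nonempty fun u _ => hc (t, u)
  rw [sum_const, card_univ, Fintype.card_fin, nsmul_eq_mul, mul_div_cancel₀ _ m3.ne'] at this
  exact absurd tot (not_le.2 this)

end SymL

theorem sym (hSamp : SampS) : SymS := by
  classical
  intro η η0
  obtain ⟨m, hm⟩ := exists_nat_ge (2 / η + 1)
  have q0 : 0 < 2 / η := by positivity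
  have m1 : (1 : ℝ) ≤ m := by linarith
  have m0 : 0 < m := by exact_mod_cast zero_lt_one.trans_le m1
  obtain ⟨K, K1, hK⟩ := hSamp (η / 4) (by positivity)
  refine ⟨2 * (K * (m + 2) + 2) + m, m, by positivity, m0, fun X Θ _ 𝓕 y y1 hX hF => ?_⟩
  rcases 𝓕.eq_empty_or_nonempty with rfl | hne
  · refine ⟨∅, by simpa using (Real.exp_pos _).le, fun π Λ Gd hπ hΛ _ => ?_⟩
    rcases isEmpty_or_nonempty X with hx | ⟨⟨x⟩⟩
    · exact absurd hπ.2 (by simp)
    · exact absurd (hΛ x) (notMem_empty _)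
  have : Nonempty 𝓕 := hne.to_subtype
  set n : ℕ := ⌈K * ((m + 2) * y)⌉₊ + 1 with hn
  have n1 : K * ((m + 2) * y) ≤ n := by
    have := Nat.le_ceil (K * ((m + 2) * y))
    rw [hn]
    push_cast
    linarith
  have n2 : (n : ℝ) ≤ (K * (m + 2) + 2) * y := by
    have := Nat.ceil_lt_add_one (a := K * ((m + 2) * y)) (by positivity)
    rw [hn]
    push_cast
    linarith
  have cF : (Fintype.card 𝓕 : ℝ) ≤ Real.exp y := by rwa [Fintype.card_coe]
  obtain ⟨ev, hev⟩ := SymL.core (X := X) (F := 𝓕) (fun l => l.1) m n m0 (Nat.succ_pos _)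
    fun π f hπ hf => hK X _ π f ((m + 2) * y) n hπ hf (by nlinarith) (by
      have a1 : (2 : ℝ) ≤ Real.exp y := by linarith [Real.add_one_le_exp y]
      have a3 : Real.exp ((m + 2) * y) = Real.exp y * (Real.exp y * Real.exp y ^ m) := by
        rw [← Real.exp_nat_mul, ← Real.exp_add, ← Real.exp_add]
        congr 1
        ring
      rw [a3, Fintype.card_prod, Fintype.card_prod, Fintype.card_bool, Fintype.card_fun,
        Fintype.card_fin]
      push_cast
      gcongr) n1
  refine ⟨univ.image ev, ?_, fun π Λ Gd hπ hΛ hG => ?_⟩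
  · have a1 : ((univ.image ev).card : ℝ) ≤ ((Fintype.card X : ℝ) * Fintype.card 𝓕) ^ n * m := by
      have := card_image_le (s := univ) (f := ev)
      rw [card_univ, Fintype.card_prod, Fintype.card_fun, Fintype.card_prod, Fintype.card_fin,
        Fintype.card_fin] at this
      exact_mod_cast this
    have a2 : (m : ℝ) ≤ Real.exp m := by linarith [Real.add_one_le_exp (m : ℝ)]
    have a3 : ((Fintype.card X : ℝ) * Fintype.card 𝓕) ^ n * m ≤
        (Real.exp y * Real.exp y) ^ n * Real.exp m := by gcongr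
    refine a1.trans (a3.trans ?_)
    rw [← Real.exp_add, ← Real.exp_nat_mul, ← Real.exp_add, Real.exp_le_exp]
    have a4 := mul_le_mul_of_nonneg_right n2 (by linarith : 0 ≤ y + y)
    have a5 : (m : ℝ) * 1 ≤ m * y ^ 2 := mul_le_mul_of_nonneg_left (one_le_pow₀ y1) (by linarith)
    linarith
  · obtain ⟨q, hq⟩ := hev π hπ.1 hπ.2 (fun J => ⟨Λ J, hΛ J⟩) Gd hG
    refine ⟨ev q, mem_image_of_mem _ (mem_univ _), le_trans ?_ (hq.trans (le_of_eq ?_))⟩
    · refine div_le_div_of_nonneg_right ?_ (by linarith)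
      have a1 : 1 / (m : ℝ) ≤ η / 2 := by
        rw [div_le_iff₀ (by linarith)]
        have := (div_le_iff₀ η0).1 (by linarith : 2 / η ≤ m)
        linarith
      have a2 : ∑ J, ∑ J', π J * π J' * oi (Gd J J') =
          ∑ J', ∑ J, π J' * (π J * if Gd J J' then 1 else 0) := by
        rw [sum_comm]
        refine sum_congr rfl fun J' _ => sum_congr rfl fun J _ => ?_
        unfold oi
        split_ifs <;> ring
      rw [a2]
      linarith
    · rw [sum_comm]
      refine sum_congr rfl fun J _ => sum_congr rfl fun J' _ => ?_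
      unfold oi
      by_cases g : Gd J J'
      · rw [hG J J' g]
        split_ifs <;> ring
      · simp [g]

end Pool.Agent.MP_154433_an.T7

end

end PkSym

section PkDbl

/-! Doubling of the depth of a prediction. -/

set_option autoImplicit false

open scoped BigOperators
open Finset

noncomputable section

namespace Pool.Agent.MP_154433_an.T7

namespace DblL

open Classical in
/-- two tuples with the same end point -/
theorem dbl0 {A X : Type} [AddCommGroup A] [Fintype A] [Fintype X] (σ : X → A) (π : X → ℝ)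
    (P : A → X → Prop) {δ : ℝ} (hδ : 0 ≤ δ)
    (h : δ * Fintype.card A ≤ ∑ w, ∑ J, π J * if P (w - σ J) J then 1 else 0) :
    δ ^ 2 * Fintype.card A ≤ ∑ w, ∑ J', ∑ J, π J' * (π J *
      if P (w - (σ J + σ J')) J ∧ P (w - (σ J + σ J')) J' then 1 else 0) := by
  have c0 : (0 : ℝ) < Fintype.card A := by exact_mod_cast Fintype.card_pos
  have e1 : ∑ w, ∑ J, π J * (if P (w - σ J) J then (1 : ℝ) else 0) =
      ∑ z, ∑ J, π J * if P z J then 1 else 0 := by
    rw [sum_comm, sum_comm (s := (univ : Finset A))]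
    exact sum_congr rfl fun J _ =>
      (Equiv.subRight (σ J)).sum_comp fun z => π J * if P z J then (1 : ℝ) else 0
  have e2 : ∑ w, ∑ J', ∑ J, π J' * (π J *
      if P (w - (σ J + σ J')) J ∧ P (w - (σ J + σ J')) J' then (1 : ℝ) else 0) =
      ∑ z, (∑ J, π J * if P z J then (1 : ℝ) else 0) ^ 2 := by
    have e3 : ∀ z, (∑ J, π J * if P z J then (1 : ℝ) else 0) ^ 2 =
        ∑ J', ∑ J, π J' * (π J * if P z J ∧ P z J' then (1 : ℝ) else 0) := fun z => by
      rw [sq, sum_mul_sum]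
      refine sum_congr rfl fun J' _ => sum_congr rfl fun J _ => ?_
      by_cases g : P z J <;> by_cases g' : P z J' <;> simp [g, g']
    simp only [e3]
    rw [sum_comm, sum_comm (s := (univ : Finset A))]
    refine sum_congr rfl fun J' _ => ?_
    rw [sum_comm, sum_comm (s := (univ : Finset A))]
    exact sum_congr rfl fun J _ => (Equiv.subRight (σ J + σ J')).sum_comp
      fun z => π J' * (π J * if P z J ∧ P z J' then (1 : ℝ) else 0)
  rw [e1] at h
  rw [e2]
  have h2 := sq_sum_le_card_mul_sum_sq (s := (univ : Finset A))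
    (f := fun z => ∑ J, π J * if P z J then (1 : ℝ) else 0)
  rw [card_univ] at h2
  have h3 := pow_le_pow_left₀ (by positivity) h 2
  refine le_of_mul_le_mul_left ?_ c0
  refine le_trans (le_of_eq (by ring)) (h3.trans h2)

end DblL

theorem dbl (hSym : SymS) : DblS := by
  classical
  intro δ δ0
  obtain ⟨C, m, C0, m1, H⟩ := hSym (δ ^ 2 / 2) (by positivity)
  have m3 : (0 : ℝ) < m := by exact_mod_cast m1
  refine ⟨δ ^ 2 / 2 / m, C, by positivity, C0, fun S T _ _ 𝓕 y y1 hX hF => ?_⟩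
  obtain ⟨𝓖, hc, hG⟩ := H (T → S.I) S.Θ 𝓕 y y1 hX hF
  let gl : ((T → S.I) → (T → S.I) → S.Θ) → (T ⊕ T → S.I) → S.Θ := fun μ K =>
    μ (fun t => K (Sum.inl t)) fun t => K (Sum.inr t)
  refine ⟨𝓖.image gl, le_trans (by exact_mod_cast card_image_le) hc, fun π E φ hπ hR => ?_⟩
  obtain ⟨Λ, hΛ, h⟩ := hR
  let σ : (T → S.I) → S.A := fun J => ∑ t, S.ι (J t)
  have w0 : ∀ J : T → S.I, 0 ≤ wt π J := fun J => prod_nonneg fun t _ => hπ.1 _
  have w1 : ∑ J : T → S.I, wt π J = 1 := by
    unfold wt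
    rw [← Fintype.piFinset_univ, ← prod_univ_sum (fun _ => univ) fun _ i => π i]
    simp [hπ.2]
  let P : S.A → (T → S.I) → Prop := fun z J => z ∈ E ∧ φ z = Λ (z + σ J) J
  have h2 := DblL.dbl0 σ (wt π) P δ0.le (by
    refine h.trans (le_of_eq (sum_congr rfl fun w _ => sum_congr rfl fun J _ => ?_))
    simp only [P, sub_add_cancel, oi, σ]
    congr)
  have q1 : ∀ (w : S.A) (J J' : T → S.I), w - (σ J + σ J') + σ J = w - σ J' := fun w J J' => by abel
  have q2 : ∀ (w : S.A) (J J' : T → S.I), w - (σ J + σ J') + σ J' = w - σ J := fun w J J' => by abel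
  choose μ hμ hle using fun w : S.A => hG (wt π) (fun J => Λ (w - σ J))
    (fun J J' => P (w - (σ J + σ J')) J ∧ P (w - (σ J + σ J')) J') ⟨w0, w1⟩ (fun J => hΛ _)
    fun J J' g => by
      have g1 := g.1.2
      have g2 := g.2.2
      rw [q1] at g1
      rw [q2] at g2
      exact g1.symm.trans g2
  refine ⟨fun w => gl (μ w), fun w => mem_image_of_mem _ (hμ w), ?_⟩
  have h3 := sum_le_sum (s := univ) fun w _ => hle w
  refine le_trans ?_ (h3.trans (sum_le_sum fun w _ => ?_))
  · have e : ∑ w, ∑ J', ∑ J, wt π J' * (wt π J *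
        if P (w - (σ J + σ J')) J ∧ P (w - (σ J + σ J')) J' then (1 : ℝ) else 0) =
        ∑ w, ∑ J, ∑ J', wt π J * wt π J' *
          oi (P (w - (σ J + σ J')) J ∧ P (w - (σ J + σ J')) J') := by
      refine sum_congr rfl fun w _ => ?_
      rw [sum_comm]
      refine sum_congr rfl fun J _ => sum_congr rfl fun J' _ => ?_
      unfold oi
      split_ifs <;> ring
    have h4 := h2.trans (le_of_eq (by convert e))
    rw [← sum_div, div_mul_eq_mul_div]
    refine div_le_div_of_nonneg_right ?_ m3.le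
    rw [sum_sub_distrib, sum_const, card_univ, nsmul_eq_mul]
    unfold St.n
    linarith
  · rw [← (Equiv.sumArrowEquivProdArrow T T S.I).symm.sum_comp, Fintype.sum_prod_type]
    refine sum_le_sum fun J _ => sum_le_sum fun J' _ => ?_
    have e1 : wt π ((Equiv.sumArrowEquivProdArrow T T S.I).symm (J, J')) = wt π J * wt π J' := by
      simp [wt, Fintype.prod_sum_type]
    have e2 : ∑ t, S.ι ((Equiv.sumArrowEquivProdArrow T T S.I).symm (J, J') t) = σ J + σ J' := by
      simp [σ, Fintype.sum_sum_type]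
    have e3 : gl (μ w) ((Equiv.sumArrowEquivProdArrow T T S.I).symm (J, J')) = μ w J J' := rfl
    beta_reduce
    rw [e1, e2, e3]
    refine mul_le_mul_of_nonneg_left ?_ (mul_nonneg (w0 J) (w0 J'))
    unfold oi
    split_ifs with g g'
    · exact le_rfl
    · refine absurd ⟨g.1.1.1, ?_⟩ g'
      have g1 := g.1.1.2
      rw [q1] at g1
      exact g1.trans g.2.symm
    · exact zero_le_one
    · exact le_rfl

end Pool.Agent.MP_154433_an.T7

end

end PkDbl

section PkIter

/-! Row Iter: repeated doubling of the ancestors. -/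

set_option autoImplicit false

noncomputable section

namespace Pool.Agent.MP_154433_an.T7

theorem iter (hR0 : R0S) (hDbl : DblS) : IterS := by
  intro δ hδ B
  obtain ⟨η0, δ1, C, h0, h1, hC, H⟩ := hR0 δ hδ B
  refine ⟨η0, h0, fun r => ?_⟩
  induction r with
  | zero =>
    refine ⟨δ1, C, 2, h1, hC, fun S x c hx hc => ?_⟩
    obtain ⟨𝓕, a, b⟩ := H S x c hx hc
    exact ⟨Unit, inferInstance, inferInstance, 𝓕, by simp, a, b⟩
  | succ r ih =>
    obtain ⟨δ', C', e, d0, c0, K⟩ := ih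
    obtain ⟨δ2, C2, d2, c2, D⟩ := hDbl δ' d0
    refine ⟨δ2, C2 * (C' + 2 ^ r) ^ 2, (e + 1) * 2, d2, by positivity, fun S x c hx hc => ?_⟩
    obtain ⟨T, i1, i2, 𝓕, a, b, k⟩ := K S x c hx hc
    have x1 := hx.1
    have p1 : (1 : ℝ) ≤ 2 ^ r := one_le_pow₀ one_le_two
    have p2 : x ≤ x ^ (e + 1) := le_self_pow₀ x1 (by omega)
    have p3 : x ^ e ≤ x ^ (e + 1) := pow_le_pow_right₀ x1 (by omega)
    have p4 := mul_le_mul_of_nonneg_left p2 (zero_le_one.trans p1)
    have p5 := mul_le_mul_of_nonneg_left p3 c0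
    have p6 : 0 ≤ C' * x ^ (e + 1) := by positivity
    obtain ⟨𝓖, g1, g2⟩ := D S T 𝓕 ((C' + 2 ^ r) * x ^ (e + 1)) (by nlinarith) (by
        rw [Fintype.card_fun, a, Nat.cast_pow]
        refine (pow_le_pow_left₀ (Nat.cast_nonneg _) hx.2.2.1 _).trans ?_
        rw [← Real.exp_nat_mul]
        push_cast
        exact Real.exp_le_exp.2 (by linarith))
      (b.trans (Real.exp_le_exp.2 (by nlinarith)))
    refine ⟨T ⊕ T, inferInstance, inferInstance, 𝓖, by rw [Fintype.card_sum, a]; ring,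
      g1.trans (le_of_eq ?_), fun π G E φ u1 u2 u3 u4 => g2 π E φ u1 (k π G E φ u1 u2 u3 u4)⟩
    congr 1
    ring

end Pool.Agent.MP_154433_an.T7

end

end PkIter

section PkEn

set_option autoImplicit false
set_option linter.unusedVariables false

open Function Finset
open scoped BigOperators

noncomputable section

namespace Pool.Agent.MP_154433_an.T7

namespace EnL

variable {I K L : Type} [Fintype I] [Fintype K] [DecidableEq K] [Fintype L] [DecidableEq L]
  {π : I → ℝ}

lemma oi0 (p : Prop) : 0 ≤ oi p := by unfold oi; split_ifs <;> norm_num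

lemma oi1 (p : Prop) : oi p ≤ 1 := by unfold oi; split_ifs <;> norm_num

omit [Fintype I] [DecidableEq K] in
lemma wt0 (h : ∀ i, 0 ≤ π i) (s : K → I) : 0 ≤ wt π s := prod_nonneg fun _ _ => h _

lemma wt1 (h : PV π) : ∑ s : K → I, wt π s = 1 := by
  unfold wt
  rw [← Fintype.piFinset_univ, ← prod_univ_sum]
  simp [h.2]

lemma marg (h : PV π) (ι : L → K) (hι : Injective ι) (g : (L → I) → ℝ) :
    ∑ s : K → I, wt π s * g (fun l => s (ι l)) = ∑ r : L → I, wt π r * g r := by
  classical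
  have key : ∀ r : L → I, ∑ s : K → I, wt π s * (if (fun l => s (ι l)) = r then 1 else 0) =
      wt π r := by
    intro r
    have e1 : ∀ s : K → I, wt π s * (if (fun l => s (ι l)) = r then 1 else 0) =
        ∏ k, (π (s k) * if ∀ l, ι l = k → s k = r l then 1 else 0) := by
      intro s
      rw [prod_mul_distrib, prod_boole]
      congr 2
      refine propext ⟨fun e k _ l hl => by rw [← hl, ← e], fun e => funext fun l => ?_⟩
      exact e _ (mem_univ _) l rfl
    simp_rw [e1]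
    rw [← Fintype.piFinset_univ,
      ← prod_univ_sum (fun _ => univ) fun k i => π i * if ∀ l, ι l = k → i = r l then 1 else 0]
    refine (Fintype.prod_of_injective ι hι _ _ (fun k hk => ?_) fun l => ?_).symm
    · have : ∀ i, ∀ l, ι l = k → i = r l := fun i l hl => absurd ⟨l, hl⟩ hk
      exact (sum_congr rfl fun i _ => by rw [if_pos (this i), mul_one]).trans h.2
    · have : ∀ i, (∀ l', ι l' = ι l → i = r l') ↔ i = r l :=
        fun i => ⟨fun e => e l rfl, fun e l' hl => by rw [e, hι hl]⟩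
      simp [this]
  calc ∑ s : K → I, wt π s * g (fun l => s (ι l))
      = ∑ s : K → I, ∑ r : L → I, wt π s * (if (fun l => s (ι l)) = r then 1 else 0) * g r := by
        refine sum_congr rfl fun s _ => ?_
        simp
    _ = ∑ r : L → I, wt π r * g r := by
        rw [sum_comm]
        exact sum_congr rfl fun r _ => by rw [← sum_mul, key]

lemma pair (g : (L → I) → (L → I) → ℝ) :
    ∑ r : L ⊕ L → I, wt π r * g (fun l => r (Sum.inl l)) (fun l => r (Sum.inr l)) =
      ∑ J : L → I, ∑ J' : L → I, wt π J * wt π J' * g J J' := by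
  rw [← sum_product', univ_product_univ]
  refine Fintype.sum_equiv (Equiv.sumArrowEquivProdArrow L L I) _ _ fun r => ?_
  unfold wt
  rw [Fintype.prod_sum_type]
  rfl

lemma col {A : Type} [AddCommGroup A] [Fintype A] {k : ℕ} (h : PV π) (e : L → I → A) {C ρ : ℝ}
    (hC : 0 ≤ C) (hc : Col π e C ρ) (a a' : L → Fin k) :
    ∑ s : L × Fin k → I, wt π s * oi (∑ t, e t (s (t, a t)) = ∑ t, e t (s (t, a' t))) ≤
      C / Fintype.card A + ∏ t, if a t ≠ a' t then ρ else 1 := by
  rw [prod_ite, prod_const, prod_const_one, mul_one]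
  rcases (univ.filter fun t => a t ≠ a' t).eq_empty_or_nonempty with h0 | h0
  · rw [h0, card_empty, pow_zero]
    have h1 : ∑ s : L × Fin k → I, wt π s *
        oi (∑ t, e t (s (t, a t)) = ∑ t, e t (s (t, a' t))) ≤ ∑ s : L × Fin k → I, wt π s :=
      sum_le_sum fun s _ => mul_le_of_le_one_right (wt0 h.1 s) (oi1 _)
    rw [wt1 h] at h1
    have : 0 ≤ C / Fintype.card A := by positivity
    linarith
  refine le_trans (le_of_eq ?_) (hc _ h0)
  obtain ⟨t0, ht0⟩ := h0
  have : Nontrivial (Fin k) := ⟨_, _, (mem_filter.1 ht0).2⟩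
  have ex : ∀ t, ∃ b, a t ≠ b ∧ (a t ≠ a' t → b = a' t) := by
    intro t
    by_cases ht : a t = a' t
    · obtain ⟨b, hb⟩ := exists_ne (a t)
      exact ⟨b, hb.symm, fun h => absurd ht h⟩
    · exact ⟨a' t, ht, fun _ => rfl⟩
  choose b hb hb' using ex
  have inj : Injective (Sum.elim (fun t => (t, a t)) fun t => (t, b t) : L ⊕ L → L × Fin k) := by
    rintro (t | t) (u | u) e <;> simp only [Sum.elim_inl, Sum.elim_inr, Prod.mk.injEq] at e
    · rw [e.1]
    · obtain ⟨rfl, e⟩ := e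
      exact absurd e (hb t)
    · obtain ⟨rfl, e⟩ := e
      exact absurd e.symm (hb t)
    · rw [e.1]
  rw [← pair fun J J' => oi (∑ t ∈ univ.filter fun t => a t ≠ a' t, e t (J t) =
    ∑ t ∈ univ.filter fun t => a t ≠ a' t, e t (J' t)), ← marg h _ inj]
  refine sum_congr rfl fun s _ => ?_
  congr 2
  simp only [Sum.elim_inl, Sum.elim_inr]
  have e1 : ∑ t ∈ univ.filter fun t => a t ≠ a' t, e t (s (t, b t)) =
      ∑ t ∈ univ.filter fun t => a t ≠ a' t, e t (s (t, a' t)) :=
    sum_congr rfl fun t ht => by rw [hb' t (mem_filter.1 ht).2]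
  have e2 : ∑ t ∈ univ.filter fun t => ¬ a t ≠ a' t, e t (s (t, a t)) =
      ∑ t ∈ univ.filter fun t => ¬ a t ≠ a' t, e t (s (t, a' t)) :=
    sum_congr rfl fun t ht => by rw [not_not.1 (mem_filter.1 ht).2]
  rw [e1, ← sum_filter_add_sum_filter_not univ (fun t => a t ≠ a' t),
    ← sum_filter_add_sum_filter_not univ (fun t => a t ≠ a' t) fun t => e t (s (t, a' t)), e2,
    add_left_inj]

lemma rho {k : ℕ} {ρ : ℝ} (h0 : 0 ≤ ρ) (h1 : k * ρ ≤ 1) (a : L → Fin k) :
    ∑ a' : L → Fin k, ∏ t, (if a t ≠ a' t then ρ else 1) ≤ 2 ^ Fintype.card L := by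
  rw [← Fintype.piFinset_univ,
    ← prod_univ_sum (fun _ => univ) fun t (b : Fin k) => if a t ≠ b then ρ else (1 : ℝ),
    ← card_univ, ← prod_const]
  refine prod_le_prod (fun t _ => sum_nonneg fun b _ => by split_ifs <;> linarith) fun t _ => ?_
  calc ∑ b : Fin k, (if a t ≠ b then ρ else (1 : ℝ))
      ≤ ∑ b : Fin k, (ρ + if a t = b then 1 else 0) :=
        sum_le_sum fun b _ => by by_cases h : a t = b <;> simp [h, h0]
    _ ≤ 2 := by
        rw [sum_add_distrib, sum_ite_eq]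
        simp
        linarith

end EnL

open EnL in
theorem en : EnS := by
  intro A I T _ _ _ _ _ k π e C ρ δ Gd h hC hρ hδ hk hkρ hc hN hG
  have cN : (Fintype.card (T → Fin k) : ℝ) = (k : ℝ) ^ Fintype.card T := by simp
  have N0 : (0 : ℝ) < (k : ℝ) ^ Fintype.card T := pow_pos (by exact_mod_cast hk) _
  generalize (k : ℝ) ^ Fintype.card T = N at *
  have A0 : (0 : ℝ) < Fintype.card A := by exact_mod_cast Fintype.card_pos
  let gd : (T × Fin k → I) → ℝ := fun s => cnt fun a : T → Fin k => Gd fun t => s (t, a t)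
  let eg : (T × Fin k → I) → ℝ := fun s => cnt fun p : (T → Fin k) × (T → Fin k) =>
    ∑ t, e t (s (t, p.1 t)) = ∑ t, e t (s (t, p.2 t))
  have h1 : δ * N ≤ ∑ s, wt π s * gd s := by
    simp only [gd, cnt, mul_sum]
    rw [sum_comm, ← cN, mul_comm, ← card_univ, ← nsmul_eq_mul, ← sum_const]
    refine sum_le_sum fun a _ => hG.trans (le_of_eq ?_)
    exact (marg h (fun t => (t, a t)) (fun t u e => (Prod.mk.inj e).1) fun J => oi (Gd J)).symm
  have h2 : ∑ s, wt π s * eg s ≤ (C + 1) * N ^ 2 / Fintype.card A := by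
    simp only [eg, cnt, mul_sum]
    rw [sum_comm]
    refine (sum_le_sum fun p _ => col h e hC hc p.1 p.2).trans ?_
    rw [Fintype.sum_prod_type]
    calc _ ≤ ∑ a : T → Fin k, (N * (C / Fintype.card A) + N / Fintype.card A) := by
          refine sum_le_sum fun a _ => ?_
          rw [sum_add_distrib, sum_const, card_univ, nsmul_eq_mul, cN]
          exact add_le_add le_rfl ((rho hρ hkρ a).trans ((le_div_iff₀ A0).2 hN))
      _ = _ := by
          rw [sum_const, card_univ, nsmul_eq_mul, cN]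
          ring
  have E0 : 0 < (C + 1) * N ^ 2 / Fintype.card A := by positivity
  have e0 : 2 * (C + 1) / δ * N ^ 2 / Fintype.card A =
      2 * ((C + 1) * N ^ 2 / Fintype.card A) / δ := by ring
  rw [e0]
  generalize (C + 1) * N ^ 2 / Fintype.card A = E at *
  have ne : (univ : Finset (T × Fin k → I)).Nonempty :=
    nonempty_of_sum_ne_zero (by rw [wt1 h]; exact one_ne_zero)
  obtain ⟨s, -, hs⟩ := exists_max_image univ (fun s => 2 * E * gd s - δ * N * eg s) ne
  have h3 : ∑ s', wt π s' * (2 * E * gd s' - δ * N * eg s') ≤ 2 * E * gd s - δ * N * eg s := by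
    refine (sum_le_sum fun s' _ =>
      mul_le_mul_of_nonneg_left (hs s' (mem_univ _)) (wt0 h.1 s')).trans ?_
    rw [← sum_mul, wt1 h, one_mul]
  have h4 : ∑ s', wt π s' * (2 * E * gd s' - δ * N * eg s') =
      2 * E * ∑ s', wt π s' * gd s' - δ * N * ∑ s', wt π s' * eg s' := by
    rw [mul_sum, mul_sum, ← sum_sub_distrib]
    exact sum_congr rfl fun _ _ => by ring
  have dN : 0 < δ * N := by positivity
  have h5 : E * (δ * N) ≤ 2 * E * gd s - δ * N * eg s := by
    have a1 := mul_le_mul_of_nonneg_left h1 E0.le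
    have a2 := mul_le_mul_of_nonneg_left h2 dN.le
    linarith
  have g1 : gd s ≤ N := by
    rw [← cN, ← card_univ, card_eq_sum_ones]
    push_cast
    exact sum_le_sum fun _ _ => oi1 _
  have g0 : 0 ≤ eg s := sum_nonneg fun _ _ => oi0 _
  refine ⟨fun t b => s (t, b), ?_, ?_⟩
  · change _ ≤ gd s
    have := mul_nonneg dN.le g0
    refine le_of_mul_le_mul_left ?_ E0
    linarith
  · change eg s ≤ _
    rw [le_div_iff₀ hδ]
    have a1 := mul_le_mul_of_nonneg_left g1 E0.le
    have a2 := mul_pos E0 dN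
    refine le_of_mul_le_mul_left ?_ N0
    linarith

end Pool.Agent.MP_154433_an.T7

end

end PkEn

section PkPop

/-! Popular values over the points of a set with small energy. -/

set_option autoImplicit false

open Finset
open scoped BigOperators

noncomputable section

namespace Pool.Agent.MP_154433_an.T7

namespace PopL

theorem o1 {p : Prop} (h : p) : oi p = 1 := if_pos h

theorem o0 {p : Prop} (h : ¬ p) : oi p = 0 := if_neg h

theorem nn (p : Prop) : 0 ≤ oi p := by
  by_cases h : p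
  · rw [o1 h]; exact zero_le_one
  · rw [o0 h]

theorem mono {p q : Prop} (h : p → q) : oi p ≤ oi q := by
  by_cases c : p
  · rw [o1 c, o1 (h c)]
  · rw [o0 c]; exact nn q

theorem fib {A : Type} [Fintype A] (y : A) (p : A → Prop) : ∑ z, oi (y = z ∧ p z) = oi (p y) := by
  rw [sum_eq_single y (fun z _ h => o0 fun c => h c.1.symm) fun h => (h (mem_univ y)).elim]
  simp only [true_and]

theorem fib_le {Θ : Type} (S : Finset Θ) (y : Θ) (p : Prop) : ∑ θ ∈ S, oi (p ∧ y = θ) ≤ oi p := by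
  by_cases h : y ∈ S
  · rw [sum_eq_single y (fun z _ h => o0 fun c => h c.2.symm) fun c => (c h).elim]
    exact mono And.left
  · rw [sum_eq_zero fun z hz => o0 fun c : p ∧ y = z => h (c.2 ▸ hz)]
    exact nn p

/-- a small set is enumerated -/
theorem enum {Θ : Type} [Nonempty Θ] (S : Finset Θ) (m : ℕ) (h : S.card ≤ m) :
    ∃ f : Fin m → Θ, ∀ θ ∈ S, ∃ u, f u = θ := by
  obtain ⟨e⟩ : Nonempty (S ↪ Fin m) := Function.Embedding.nonempty_of_card_le (by simpa using h)
  exact ⟨Function.extend e Subtype.val fun _ => Classical.arbitrary Θ, fun θ hθ =>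
    ⟨e ⟨θ, hθ⟩, e.injective.extend_apply _ _ _⟩⟩

end PopL

open PopL in
theorem pop : PopS := by
  classical
  intro δ K hδ hK
  have hm : (0 : ℝ) < (⌈2 / δ⌉₊ + 1 : ℕ) := by positivity
  refine ⟨δ ^ 2 / (4 * K) / (⌈2 / δ⌉₊ + 1 : ℕ), ⌈2 / δ⌉₊ + 1, by positivity, by omega, ?_⟩
  intro A Θ X _ _ _ _
  set m := ⌈2 / δ⌉₊ + 1
  have h1 : ∀ (v : X → A × Θ) (z : A), ∃ f : Fin m → Θ, 0 < ∑ a, oi ((v a).1 = z) → ∀ a,
      δ / 2 * ∑ b, oi ((v b).1 = z) ≤ ∑ b, oi ((v b).1 = z ∧ (v b).2 = (v a).2) →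
      ∃ u, f u = (v a).2 := by
    intro v z
    by_cases c : 0 < ∑ a, oi ((v a).1 = z)
    swap
    · exact ⟨fun _ => Classical.arbitrary Θ, fun h => (c h).elim⟩
    let S := (univ.image fun a => (v a).2).filter fun θ =>
      δ / 2 * ∑ b, oi ((v b).1 = z) ≤ ∑ b, oi ((v b).1 = z ∧ (v b).2 = θ)
    have a1 : (S.card : ℝ) * (δ / 2 * ∑ b, oi ((v b).1 = z)) ≤ ∑ b, oi ((v b).1 = z) := by
      rw [← nsmul_eq_mul]
      refine (card_nsmul_le_sum S _ _ fun θ hθ => (mem_filter.1 hθ).2).trans ?_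
      rw [sum_comm]
      exact sum_le_sum fun b _ => fib_le S _ _
    have a2 : (S.card : ℝ) ≤ 2 / δ := by
      rw [le_div_iff₀ hδ]
      nlinarith
    have a3 : S.card ≤ ⌈2 / δ⌉₊ := by exact_mod_cast a2.trans (Nat.le_ceil _)
    obtain ⟨f, hf⟩ := enum S m (by omega)
    exact ⟨f, fun _ a h => hf _ (mem_filter.2 ⟨mem_image_of_mem _ (mem_univ a), h⟩)⟩
  choose f hf using h1
  refine ⟨fun u v z => f v z u, fun v E φ hg he => ?_⟩
  have hN : (0 : ℝ) < Fintype.card X := by exact_mod_cast Fintype.card_pos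
  have : Nonempty A := ⟨(v (Classical.arbitrary X)).1⟩
  have hA : (0 : ℝ) < Fintype.card A := by exact_mod_cast Fintype.card_pos
  set r : A → ℝ := fun z => ∑ a, oi ((v a).1 = z) with hr
  set g : A → ℝ := fun z => ∑ a, oi ((v a).1 = z ∧ z ∈ E ∧ φ z = (v a).2) with hg'
  have s1 : ∑ z, r z = Fintype.card X := by
    rw [sum_comm, sum_congr rfl fun a _ => (show ∑ z, oi ((v a).1 = z) = 1 by
      simpa only [and_true, o1 trivial] using fib (v a).1 fun _ => True)]
    simp
  have s2 : δ * Fintype.card X ≤ ∑ z, g z := by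
    rw [sum_comm, sum_congr rfl fun a _ => fib (v a).1 fun z => z ∈ E ∧ φ z = (v a).2]
    exact hg
  have s3 : ∑ z, r z ^ 2 ≤ K * (Fintype.card X : ℝ) ^ 2 / Fintype.card A := by
    refine le_trans (le_of_eq ?_) he
    rw [cnt, Fintype.sum_prod_type]
    simp only [hr, sq, sum_mul_sum]
    rw [sum_comm]
    refine sum_congr rfl fun a _ => ?_
    rw [sum_comm]
    refine sum_congr rfl fun b _ => ?_
    rw [← fib (v a).1 fun z => z = (v b).1]
    refine sum_congr rfl fun z _ => ?_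
    by_cases c : (v a).1 = z
    · simp only [c, true_and, o1 trivial, one_mul, eq_comm]
    · rw [o0 c, zero_mul, o0 fun h => c h.1]
  have gr : ∀ z, g z ≤ r z := fun z => sum_le_sum fun a _ => mono And.left
  have r0 : ∀ z, 0 ≤ r z := fun z => sum_nonneg fun a _ => nn _
  let R : A → Prop := fun z => 0 < g z ∧ δ / 2 * r z ≤ g z
  have s4 : ∑ z, g z ≤ ∑ z, (oi (R z) * r z + δ / 2 * r z) := sum_le_sum fun z _ => by
    have := mul_nonneg (half_pos hδ).le (r0 z)
    by_cases c : R z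
    · rw [o1 c]
      linarith [gr z]
    · rw [o0 c]
      rcases not_and_or.1 c with c | c <;> linarith [not_lt.1 (show ¬ δ / 2 * r z < g z from
        fun h => c (by linarith))]
  rw [sum_add_distrib, ← mul_sum, s1] at s4
  have s5 := sum_mul_sq_le_sq_mul_sq univ (fun z => oi (R z)) r
  rw [sum_congr rfl fun z _ => (show oi (R z) ^ 2 = oi (R z) by
    by_cases c : R z
    · rw [o1 c, one_pow]
    · rw [o0 c, zero_pow two_ne_zero])] at s5
  have p0 : 0 ≤ ∑ z, oi (R z) := sum_nonneg fun z _ => nn _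
  have s6 : δ ^ 2 / (4 * K) * Fintype.card A ≤ ∑ z, oi (R z) := by
    have b1 : (δ / 2 * Fintype.card X) ^ 2 ≤ (∑ z, oi (R z) * r z) ^ 2 :=
      pow_le_pow_left₀ (by positivity) (by linarith) 2
    have b2 := b1.trans (s5.trans (mul_le_mul_of_nonneg_left s3 p0))
    rw [← mul_div_assoc, le_div_iff₀ hA] at b2
    rw [div_mul_eq_mul_div, div_le_iff₀ (by positivity)]
    refine le_of_mul_le_mul_right ?_ (pow_pos hN 2)
    nlinarith
  have s7 : ∑ z, oi (R z) ≤ ∑ u, cnt fun z => z ∈ E ∧ φ z = f v z u := by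
    simp only [cnt]
    rw [sum_comm]
    refine sum_le_sum fun z _ => ?_
    by_cases c : R z
    swap
    · rw [o0 c]
      exact sum_nonneg fun u _ => nn _
    obtain ⟨a, -, ha⟩ := exists_ne_zero_of_sum_ne_zero c.1.ne'
    obtain ⟨-, a2, a3⟩ : (v a).1 = z ∧ z ∈ E ∧ φ z = (v a).2 := by_contra fun h => ha (o0 h)
    obtain ⟨u, hu⟩ := hf v z (c.1.trans_le (gr z)) a (c.2.trans
      (sum_le_sum fun b _ => mono fun h => ⟨h.1, h.2.2.symm.trans a3⟩))
    exact (mono fun _ => ⟨a2, a3.trans hu.symm⟩).trans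
      (single_le_sum (f := fun u => oi (z ∈ E ∧ φ z = f v z u)) (fun u _ => nn _) (mem_univ u))
  obtain ⟨u, -, hu⟩ := exists_le_of_sum_le (s := (univ : Finset (Fin m))) univ_nonempty
    (f := fun _ => δ ^ 2 / (4 * K) / m * Fintype.card A)
    (g := fun u => cnt fun z => z ∈ E ∧ φ z = f v z u) (by
      refine le_trans (le_of_eq ?_) (s6.trans s7)
      rw [sum_const, card_univ, Fintype.card_fin, nsmul_eq_mul]
      field_simp)
  exact ⟨u, hu⟩

end Pool.Agent.MP_154433_an.T7

end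

end PkPop

section PkWrap

/-! Row Wrap: popular values on a product of samples. -/

set_option autoImplicit false

open Finset

namespace Pool.Agent.MP_154433_an.T7

theorem wrap (hEn : EnS) (hPop : PopS) : WrapS := by
  intro δ C hδ hC
  obtain ⟨δ', m, h1, h2, h3⟩ := hPop (δ / 2) (2 * (C + 1) / δ) (by positivity) (by positivity)
  refine ⟨δ', m, h1, h2, fun A Θ T _ _ _ _ _ k0 hk hn => ?_⟩
  have : Nonempty (T → Fin k0) := ⟨fun _ => ⟨0, hk⟩⟩
  obtain ⟨pop, hp⟩ := h3 A Θ (T → Fin k0)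
  refine ⟨pop, fun I _ π e ρ w lam E φ hπ hρ hk' hc hg => ?_⟩
  obtain ⟨s, s1, s2⟩ := hEn A I T k0 π e C ρ δ _ hπ hC hρ hδ hk hk' hc hn hg
  have e1 : (Fintype.card (T → Fin k0) : ℝ) = (k0 : ℝ) ^ Fintype.card T := by
    rw [Fintype.card_fun, Fintype.card_fin, Nat.cast_pow]
  refine ⟨s, hp (fun a => (w + ∑ t, e t (s t (a t)), lam fun t => s t (a t))) E φ ?_ ?_⟩
  · rw [e1]
    exact s1
  · rw [e1]
    simpa only [add_right_inj] using s2

end Pool.Agent.MP_154433_an.T7

end PkWrap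

section PkPred

/-! Row Pred: a small family of functions predicts the frequency. -/

set_option autoImplicit false

open Finset

noncomputable section

namespace Pool.Agent.MP_154433_an.T7

theorem pred (hIter : IterS) (hWrap : WrapS) : PredS := by
  classical
  intro δ hδ B
  obtain ⟨η0, hη0, hI⟩ := hIter δ hδ B
  refine ⟨η0, hη0, fun C1 r hC1 => ?_⟩
  obtain ⟨δ1, C, e, hδ1, hC, hI⟩ := hI r
  obtain ⟨δ', m, hδ', -, hW⟩ := hWrap δ1 C1 hδ1 hC1
  refine ⟨δ', 1 + C + 2 ^ r + m, e + 1, hδ', by positivity, fun S x c k0 hS hc hk hn => ?_⟩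
  obtain ⟨T, _, _, 𝓕, hT, hF, hR⟩ := hI S x c hS hc
  obtain ⟨pop, hP⟩ := hW S.A S.Θ T k0 hk (by rw [hT]; exact hn)
  refine ⟨(univ ×ˢ 𝓕 ×ˢ univ ×ˢ univ).image
    fun p : S.A × ((T → S.I) → S.Θ) × (T → Fin k0 → S.I) × Fin m => pop p.2.2.2 fun a =>
      (p.1 + ∑ t, -S.ι (p.2.2.1 t (a t)), p.2.1 fun t => p.2.2.1 t (a t)), ?_, ?_⟩
  · obtain ⟨x1, hA, hI', -⟩ := hS
    have k1 : (1 : ℝ) ≤ k0 := by exact_mod_cast hk
    have p1 : x ≤ x ^ (e + 1) := le_self_pow₀ x1 (by omega)
    have p2 : x ^ e ≤ x ^ (e + 1) := pow_le_pow_right₀ x1 (by omega)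
    have p3 : x ^ (e + 1) ≤ k0 * x ^ (e + 1) := le_mul_of_one_le_left (by linarith) k1
    have p4 : k0 * x ≤ k0 * x ^ (e + 1) := by gcongr
    have h1 : (((Fintype.card S.I : ℝ) ^ k0) ^ 2 ^ r) ≤ Real.exp (2 ^ r * (k0 * x)) := by
      have := Real.exp_nat_mul (k0 * x) (2 ^ r)
      push_cast at this
      rw [this, Real.exp_nat_mul]
      gcongr
    have h2 : (m : ℝ) ≤ Real.exp m := by linarith [Real.add_one_le_exp (m : ℝ)]
    refine le_trans (Nat.cast_le.2 card_image_le) ?_
    simp only [card_product, card_univ, Fintype.card_fun, Fintype.card_fin, hT]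
    push_cast
    refine le_trans (b := Real.exp x * (Real.exp (C * x ^ e) *
      (Real.exp (2 ^ r * (k0 * x)) * Real.exp m))) (by gcongr) ?_
    rw [← Real.exp_add, ← Real.exp_add, ← Real.exp_add]
    refine Real.exp_le_exp.2 ?_
    have q1 : C * x ^ e ≤ C * (k0 * x ^ (e + 1)) := by gcongr; linarith
    have q2 : (2 : ℝ) ^ r * (k0 * x) ≤ 2 ^ r * (k0 * x ^ (e + 1)) := by gcongr
    have q3 : (m : ℝ) ≤ m * (k0 * x ^ (e + 1)) :=
      le_mul_of_one_le_right (by positivity) (by linarith)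
    linarith
  · rintro π ⟨hπ, hSp, ρ, hρ, hkρ, hCol⟩ G E φ hG h
    obtain ⟨Λ, hΛ, hw⟩ := hR π G E φ hπ hSp hG h
    have hs : ∑ _w : S.A, δ1 = δ1 * S.n := by
      rw [sum_const, card_univ, nsmul_eq_mul, mul_comm, St.n]
    rw [← hs] at hw
    obtain ⟨w, -, hw⟩ := exists_le_of_sum_le univ_nonempty hw
    obtain ⟨s, u, hu⟩ := hP S.I π (fun _ i => -S.ι i) ρ w (Λ w) E φ hπ hρ hkρ (hCol T hT) (by
      simpa only [sum_neg_distrib, ← sub_eq_add_neg] using hw)
    exact ⟨_, mem_image.2 ⟨(w, Λ w, s, u), by simp [hΛ w], rfl⟩, hu⟩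

end Pool.Agent.MP_154433_an.T7

end

end PkPred
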