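import Pool.Agent.MP_154433_an.p7.FAll
import Pool.Agent.MP_154433_an.t6.Spec

/-! Uniform twisted averages in the polynomial range. -/

set_option autoImplicit false
set_option linter.unusedVariables false

open MeasureTheory ProbabilityTheory Filter Topology Finset
open scoped BigOperators ComplexConjugate

noncomputable section

namespace Pool.Agent.MP_154433_an.T7

open T3S (B1 MB1)
open T4S (Gm Act)

namespace ToU

lemma ee_norm (t : ℝ) : ‖ee t‖ = 1 := Complex.norm_exp_ofReal_mul_I _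

lemma ee_meas : Measurable ee := by
  unfold ee
  fun_prop

variable {X : Type} [MeasurableSpace X] {μ : Measure X} [IsProbabilityMeasure μ]

lemma int_exp {ι : Type} (s : Finset ι) (F : ι → X → ℂ) (hF : ∀ i, Integrable (F i) μ) :
    Integrable (fun x => 𝔼 i ∈ s, F i x) μ ∧ ∫ x, 𝔼 i ∈ s, F i x ∂μ = 𝔼 i ∈ s, ∫ x, F i x ∂μ := by
  simp only [Finset.expect_eq_sum_div_card]
  exact ⟨(integrable_finsetSum _ fun i _ => hF i).div_const _, by
    rw [integral_div, integral_finsetSum _ fun i _ => hF i]⟩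

lemma key {l : ℕ} {A : Gm l → X → X} (hA : Act μ A) (u : Gm l) {g : X → ℂ} (hg : MB1 g)
    {b : X → ℝ} (hb : Measurable b) (v : ℕ → ℝ) (M : ℕ) (L : ℕ → ℕ) (hL : ∀ d, 1 ≤ L d) {δ : ℝ}
    (h : ∀ α, Atom α → ‖∑ d ∈ range M, (v d : ℂ) * win (L d) α d‖ ≤ δ) :
    ∫ x, ‖∑ d ∈ range M, (v d : ℂ) * (g (A ((d : ℤ) • u) x) * ee ((d : ℝ) * b x))‖ ∂μ ≤ δ := by
  have t1 : ∀ d : ℕ, MB1 fun x => g (A ((d : ℤ) • u) x) * ee ((d : ℝ) * b x) := fun d =>
    MB1.mul ⟨hg.1.comp (hA.mp _).measurable, fun x => hg.2 _⟩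
      ⟨ee_meas.comp (hb.const_mul _), fun x => (ee_norm _).le⟩
  set Φ : X → ℂ := fun x => ∑ d ∈ range M, (v d : ℂ) * (g (A ((d : ℤ) • u) x) * ee ((d : ℝ) * b x))
    with hΦ
  have mΦ : Measurable Φ := Finset.measurable_sum _ fun d _ => (t1 d).1.const_mul _
  set s : X → ℂ := fun x => conj (Φ x) / (‖Φ x‖ : ℂ) with hs
  have ms : MB1 s := by
    refine ⟨(Complex.continuous_conj.measurable.comp mΦ).div
      (Complex.measurable_ofReal.comp mΦ.norm), fun x => ?_⟩
    rw [hs]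
    simp only [norm_div, Complex.norm_conj, Complex.norm_real, norm_norm]
    exact div_self_le_one _
  have e1 : ∀ x, ((‖Φ x‖ : ℝ) : ℂ) = s x * Φ x := fun x => by
    by_cases h0 : Φ x = 0
    · simp [h0]
    · have h1 : ((‖Φ x‖ : ℝ) : ℂ) ≠ 0 := by simpa using h0
      rw [hs]
      simp only
      rw [div_mul_eq_mul_div, Complex.conj_mul', eq_div_iff h1, sq]
  let F : ℕ → X → ℂ := fun d x => s x * (g (A ((d : ℤ) • u) x) * ee ((d : ℝ) * b x))
  have mF : ∀ d, MB1 (F d) := fun d => ms.mul (t1 d)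
  have mF' : ∀ d m : ℕ, MB1 fun x => F d (A ((m : ℤ) • u) x) := fun d m =>
    ⟨(mF d).1.comp (hA.mp _).measurable, fun x => (mF d).2 _⟩
  have at1 : ∀ x, Atom fun n m d => F d (A ((m : ℤ) • u) x) := fun x => by
    refine ⟨fun n m => s (A ((m : ℤ) • u) x), fun n z => g (A ((z : ℤ) • u) x),
      fun m => b (A ((m : ℤ) • u) x), fun _ => 0, fun _ _ => ms.2 _, fun _ _ => hg.2 _,
      fun n m d => ?_⟩
    simp only [F, mul_zero, add_zero]
    rw [← hA.add, ← add_smul, Nat.cast_add, add_comm (m : ℤ), mul_assoc]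
  have w1 : ∀ d : ℕ, Integrable (fun x => win (L d) (fun n m d => F d (A ((m : ℤ) • u) x)) d) μ ∧
      ∫ x, win (L d) (fun n m d => F d (A ((m : ℤ) • u) x)) d ∂μ = ∫ x, F d x ∂μ := fun d => by
    have hne : (range (L d)).Nonempty := nonempty_range_iff.mpr (by have := hL d; omega)
    have i1 := int_exp (μ := μ) (range (L d)) (fun m x => F d (A ((m : ℤ) • u) x))
      fun m => (mF' d m).integrable μ
    have i2 : ∀ m : ℕ, ∫ x, F d (A ((m : ℤ) • u) x) ∂μ = ∫ x, F d x ∂μ := fun m => by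
      have := integral_map (μ := μ) (hA.mp ((m : ℤ) • u)).aemeasurable
        (f := F d) (mF d).1.aestronglyMeasurable
      rw [(hA.mp _).map_eq] at this
      exact this.symm
    simp only [win, expect_const hne]
    refine ⟨i1.1, i1.2.trans ?_⟩
    simp only [i2, expect_const hne]
  have e2 : ((∫ x, ‖Φ x‖ ∂μ : ℝ) : ℂ) = ∫ x, ∑ d ∈ range M,
      (v d : ℂ) * win (L d) (fun n m d => F d (A ((m : ℤ) • u) x)) d ∂μ := by
    rw [← integral_complex_ofReal, integral_finsetSum _ fun d _ => (w1 d).1.const_mul _]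
    simp only [integral_const_mul, (w1 _).2]
    simp only [← integral_const_mul]
    rw [← integral_finsetSum _ fun d _ => ((mF d).integrable μ).const_mul _]
    refine integral_congr_ae (Eventually.of_forall fun x => ?_)
    refine (e1 x).trans ?_
    rw [hΦ]
    simp only [mul_sum, F]
    exact sum_congr rfl fun d _ => by ring
  have h2 := norm_integral_le_of_norm_le_const (μ := μ)
    (Eventually.of_forall fun x => h _ (at1 x))
  rw [← e2, Complex.norm_real, probReal_univ, mul_one] at h2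
  exact (le_abs_self _).trans h2

end ToU

theorem uww_of_rf (w : ℕ → ℕ → ℝ) (h : RF w) : T6.UWW w := by
  intro X u g b hg hb
  refine tendsto_order.mpr ⟨fun c hc => Eventually.of_forall fun M =>
    hc.trans_le (integral_nonneg fun _ => norm_nonneg _), fun c hc => ?_⟩
  filter_upwards [h (c / 2) (by positivity)] with M hM
  obtain ⟨L, hL, H⟩ := hM
  exact (ToU.key (T6.act X) u hg (hb M) (w M) M L hL H).trans_lt (by linarith)

/-- the hypothesis of the two-map theorem holds in the polynomial range -/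
theorem uwwAll (σ : ℕ → ℝ) (hσ : ∀ n, 0 ≤ σ n ∧ σ n ≤ 1) (ha : Antitone σ) (hp : Poly σ) :
    T6.AS σ T6.UWW := fun Ω _ P _ E hE hi hP =>
  (aeAll σ hσ ha hp Ω P E hE hi hP).mono fun _ h => uww_of_rf _ h

theorem gr2 (σ : ℕ → ℝ) (h0 : ∀ n, 0 ≤ σ n) (ha : Antitone σ) (hp : Poly σ) : T3S.Gr σ 2 := by
  obtain ⟨a, ha1, h⟩ := hp
  have hc : 0 < (1 - a) / 2 := by linarith
  refine tendsto_atTop_mono' atTop ?_ (h.const_mul_atTop (pow_pos hc 2))
  filter_upwards [eventually_ge_atTop 2] with M hM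
  have hM1 : (1 : ℝ) < M := by exact_mod_cast hM
  have hM0 : (0 : ℝ) < M := by linarith
  have hl : 0 < Real.log M := Real.log_pos hM1
  have h1 : (M : ℝ) * σ M ≤ T3S.Wt σ M := by
    have := card_nsmul_le_sum (range M) σ (σ M) fun k hk => ha (mem_range.mp hk).le
    simpa [T3S.Wt] using this
  have h2 := Real.log_le_rpow_div hM0.le hc
  rw [le_div_iff₀ hc] at h2
  have h3 := pow_le_pow_left₀ (by positivity) h2 2
  have h4 : ((M : ℝ) ^ ((1 - a) / 2)) ^ 2 * (M : ℝ) ^ a = M := by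
    rw [← Real.rpow_natCast, ← Real.rpow_mul hM0.le, ← Real.rpow_add hM0]
    norm_num
  rw [le_div_iff₀ (pow_pos hl 2)]
  have h5 : 0 ≤ (M : ℝ) ^ a * σ M := mul_nonneg (by positivity) (h0 M)
  calc ((1 - a) / 2) ^ 2 * ((M : ℝ) ^ a * σ M) * Real.log M ^ 2
      = (Real.log M * ((1 - a) / 2)) ^ 2 * ((M : ℝ) ^ a * σ M) := by ring
    _ ≤ ((M : ℝ) ^ ((1 - a) / 2)) ^ 2 * ((M : ℝ) ^ a * σ M) := mul_le_mul_of_nonneg_right h3 h5
    _ = M * σ M := by rw [← mul_assoc, h4]
    _ ≤ _ := h1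

/-- the two-map theorem in the polynomial range from the conditional theorem -/
theorem of_t6 (h : T6.MainS) (σ : ℕ → ℝ) (hσ : ∀ n, 0 ≤ σ n ∧ σ n ≤ 1) (ha : Antitone σ)
    (hp : Poly σ) :
    ∀ (Ω : Type) [MeasurableSpace Ω] (P : Measure Ω) [IsProbabilityMeasure P]
      (E : ℕ → Set Ω), (∀ n, MeasurableSet (E n)) → iIndepSet E P →
      (∀ n, P (E n) = ENNReal.ofReal (σ n)) →
    ∀ᵐ ω ∂P, ∀ (X : Type) [MeasurableSpace X] (μ : Measure X) [IsProbabilityMeasure μ]
      (T : Fin 2 → X ≃ᵐ X) (f : Fin 2 → X → ℝ),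
      (∀ i, MeasurePreserving (⇑(T i)) μ μ) → (∀ i j, Function.Commute ⇑(T i) ⇑(T j)) →
      (∀ i, MemLp (f i) ⊤ μ) → T4S.Concl (fun m => ω ∈ E m) μ T f :=
  h σ hσ ha (gr2 σ (fun n => (hσ n).1) ha hp) (uwwAll σ hσ ha hp)

end Pool.Agent.MP_154433_an.T7

end
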